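import Pool.Agent.Helper92.FG.Main

/-!
# The converse: necessary conditions for simplicity
-/

namespace Pool.Agent.Helper92.FG

open Pool.Agent.Helper66.EL Pool.Agent.Helper66.AI MonoidAlgebra

variable {R : Type*} [Ring R] {Λ : Type*}

theorem eq_zero_of_mem_center {a b : Λ} (hab : a ≠ b) {r : R}
    (h : E a b r ∈ Subgroup.center (elemGroup R Λ)) : r = 0 := by
  classical
  have h2 := (Subgroup.mem_center_iff.1 h) (E b a 1)
  have h3 := congrArg (fun k : elemGroup R Λ => lm k (Finsupp.single b 1) b) h2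
  simp only [lm_mul] at h3
  rw [E_apply hab, E_apply hab.symm, E_apply hab.symm, E_apply hab] at h3
  simp only [Finsupp.add_apply, Finsupp.single_eq_same, Finsupp.single_eq_of_ne hab,
    Finsupp.single_eq_of_ne hab.symm, mul_one, one_mul, zero_add, add_zero,
    Finsupp.single_zero] at h3
  rw [add_eq_left] at h3
  exact h3

/-- The congruence subgroup of a two-sided ideal. -/
def congSub (K : TwoSidedIdeal R) (Λ : Type*) : Subgroup (elemGroup R Λ) where
  carrier := {g | ∀ v j, (lm g v - v) j ∈ K}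
  one_mem' := by
    intro v j
    rw [lm_one, sub_self]
    exact K.zero_mem
  mul_mem' := by
    intro g k hg hk v j
    have : lm (g * k) v - v = (lm g (lm k v) - lm k v) + (lm k v - v) := by
      rw [lm_mul]; abel
    rw [this, Finsupp.add_apply]
    exact K.add_mem (hg _ j) (hk _ j)
  inv_mem' := by
    intro g hg v j
    have h1 := hg (lm g⁻¹ v) j
    rw [lm_apply_inv] at h1
    have h3 := K.neg_mem h1
    rw [← Finsupp.neg_apply, neg_sub] at h3
    exact h3

theorem mem_congSub {K : TwoSidedIdeal R} {g : elemGroup R Λ} :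
    g ∈ congSub K Λ ↔ ∀ v j, (lm g v - v) j ∈ K := Iff.rfl

instance congSub_normal (K : TwoSidedIdeal R) : (congSub K Λ).Normal := by
  have hlin : ∀ (k : (Λ →₀ R) ≃ₗ[R] (Λ →₀ R)) (x : Λ →₀ R), (∀ j, x j ∈ K) →
      ∀ j, (k x) j ∈ K := by
    intro k x hx j
    have h1 : x = x.sum fun i c => c • Finsupp.single i (1 : R) := by
      conv_lhs => rw [← Finsupp.sum_single x]
      refine Finsupp.sum_congr fun i _ => ?_
      rw [Finsupp.smul_single, smul_eq_mul, mul_one]
    rw [h1, Finsupp.sum, map_sum, Finsupp.finsetSum_apply]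
    refine sum_mem fun i _ => ?_
    rw [map_smul, Finsupp.smul_apply, smul_eq_mul]
    exact K.mul_mem_right _ _ (hx i)
  refine ⟨fun g hg k => ?_⟩
  rw [mem_congSub] at hg ⊢
  intro v j
  have h3 : lm (k * g * k⁻¹) v - v = lm k (lm g (lm k⁻¹ v) - lm k⁻¹ v) := by
    rw [map_sub, lm_apply_inv, lm_mul, lm_mul]
  rw [h3]
  exact hlin _ _ (fun i => hg _ i) j

theorem E_mem_congSub {K : TwoSidedIdeal R} {a b : Λ} (hab : a ≠ b) {s : R} (hs : s ∈ K) :
    E a b s ∈ congSub K Λ := by
  classical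
  intro v j
  rw [E_apply hab, add_sub_cancel_left]
  by_cases hj : j = a
  · subst hj
    rw [Finsupp.single_eq_same]
    exact K.mul_mem_left _ _ hs
  · rw [Finsupp.single_eq_of_ne hj]
    exact K.zero_mem

/-- If the quotient of the elementary group by its center is simple, then so is the ring. -/
theorem isSimpleRing_of_PE {a b : Λ} (hab : a ≠ b) (h : IsSimpleGroup (PE R Λ)) :
    IsSimpleRing R := by
  classical
  have hnt : Nontrivial R := by
    by_contra hcon
    rw [not_nontrivial_iff_subsingleton] at hcon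
    obtain ⟨g, hg⟩ := exists_ne (1 : PE R Λ)
    apply hg
    obtain ⟨k, rfl⟩ := QuotientGroup.mk_surjective g
    have : k = 1 := lm_ext fun v => Subsingleton.elim _ _
    rw [this]
    rfl
  refine IsSimpleRing.of_eq_bot_or_eq_top fun K => ?_
  by_cases hK : K = ⊥
  · exact Or.inl hK
  right
  obtain ⟨r, hrK, hr0⟩ : ∃ r ∈ K, r ≠ 0 := by
    by_contra hcon
    push Not at hcon
    apply hK
    rw [eq_bot_iff]
    intro x hx
    exact (TwoSidedIdeal.mem_bot R).2 (hcon x hx)
  let M : Subgroup (PE R Λ) := (congSub K Λ).map (QuotientGroup.mk' _)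
  have hM : M.Normal :=
    Subgroup.Normal.map inferInstance _ (QuotientGroup.mk'_surjective _)
  have htop : M = ⊤ := by
    rcases hM.eq_bot_or_eq_top with h0 | h0
    · exfalso
      have h1 : (QuotientGroup.mk (E a b r) : PE R Λ) ∈ M :=
        Subgroup.mem_map.2 ⟨E a b r, E_mem_congSub hab hrK, rfl⟩
      rw [h0, Subgroup.mem_bot, QuotientGroup.eq_one_iff] at h1
      exact hr0 (eq_zero_of_mem_center hab h1)
    · exact h0
  have h1 : (QuotientGroup.mk (E a b (1 : R)) : PE R Λ) ∈ M := by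
    rw [htop]; exact Subgroup.mem_top _
  obtain ⟨n, hn, hn'⟩ := Subgroup.mem_map.1 h1
  have hn1 : (QuotientGroup.mk n : PE R Λ) = QuotientGroup.mk (E a b (1 : R)) := hn'
  rw [QuotientGroup.eq] at hn1
  obtain ⟨ζ, _, hζ⟩ := isScal_of_comm hab hn1
  have hζ' : ∀ v, lm (n⁻¹ * E a b (1 : R)) v = ζ • v := hζ
  have h2 : lm (E a b (1 : R)) (Finsupp.single b 1) = ζ • lm n (Finsupp.single b 1) := by
    rw [← map_smul, ← hζ', ← lm_mul, mul_inv_cancel_left]
  have h3 := DFunLike.congr_fun h2 a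
  rw [E_apply hab, Finsupp.add_apply, Finsupp.single_eq_same, Finsupp.single_eq_same,
    Finsupp.single_eq_of_ne hab, zero_add, one_mul, Finsupp.smul_apply, smul_eq_mul] at h3
  have h4 := hn (Finsupp.single b 1) a
  rw [Finsupp.sub_apply, Finsupp.single_eq_of_ne hab, sub_zero] at h4
  rw [← TwoSidedIdeal.one_mem_iff, h3]
  exact K.mul_mem_left _ _ h4

section char

variable (P : Type*) [Field P]

/-- Conjugation by an element of the elementary group. -/
noncomputable def cj (g : elemGroup R Λ) : ((Λ →₀ R) →ₗ[R] (Λ →₀ R)) →+ ((Λ →₀ R) →ₗ[R] (Λ →₀ R)) where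
  toFun m := (lm g).toLinearMap ∘ₗ m ∘ₗ (lm g⁻¹).toLinearMap
  map_zero' := by
    rw [LinearMap.zero_comp, LinearMap.comp_zero]
  map_add' m n := by
    rw [LinearMap.add_comp, LinearMap.comp_add]

theorem cj_apply (g : elemGroup R Λ) (m : (Λ →₀ R) →ₗ[R] (Λ →₀ R)) (v : Λ →₀ R) :
    cj g m v = lm g (m (lm g⁻¹ v)) := rfl

/-- The representation of the elementary group on the additive functions of endomorphisms. -/
noncomputable def crep (R : Type*) [Ring R] (Λ : Type*) : elemGroup R Λ →*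
    (Module.End P (((Λ →₀ R) →ₗ[R] (Λ →₀ R)) →+ P))ᵐᵒᵖ where
  toFun g := MulOpposite.op
    { toFun := fun f => f.comp (cj g)
      map_add' := fun _ _ => rfl
      map_smul' := fun _ _ => rfl }
  map_one' := rfl
  map_mul' _ _ := rfl

theorem crep_apply (g : elemGroup R Λ) (f : ((Λ →₀ R) →ₗ[R] (Λ →₀ R)) →+ P)
    (m : (Λ →₀ R) →ₗ[R] (Λ →₀ R)) : (crep P R Λ g).unop f m = f (cj g m) := rfl

theorem crep_center {a b : Λ} (hab : a ≠ b) {g : elemGroup R Λ}
    (h : g ∈ Subgroup.center (elemGroup R Λ)) : crep P R Λ g = 1 := by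
  obtain ⟨ζ, _, hζ⟩ := isScal_of_comm hab h
  have hζ' : ∀ v, lm g v = ζ • v := hζ
  apply MulOpposite.unop_injective
  refine LinearMap.ext fun f => AddMonoidHom.ext fun m => ?_
  rw [crep_apply, MulOpposite.unop_one, Module.End.one_apply]
  congr 1
  refine LinearMap.ext fun v => ?_
  rw [cj_apply, hζ', ← map_smul, ← hζ', lm_apply_inv]

/-- The difference operator. -/
noncomputable def dj (g : elemGroup R Λ) (m : (Λ →₀ R) →ₗ[R] (Λ →₀ R)) :
    (Λ →₀ R) →ₗ[R] (Λ →₀ R) := cj g m - m

theorem dj_E {a b : Λ} (hab : a ≠ b) (r : R) (m : (Λ →₀ R) →ₗ[R] (Λ →₀ R)) (v : Λ →₀ R) :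
    dj (E a b r) m v = -((v b * r) • m (Finsupp.single a 1)) +
      ((m v b - v b * r * m (Finsupp.single a 1) b) * r) • Finsupp.single a 1 := by
  classical
  have h1 : lm (E a b r)⁻¹ v = v - (v b * r) • Finsupp.single a (1 : R) := by
    rw [← E_neg, E_apply hab, mul_neg, Finsupp.single_neg, Finsupp.smul_single, smul_eq_mul,
      mul_one, sub_eq_add_neg]
  have h2 : ∀ w : Λ →₀ R, lm (E a b r) w = w + (w b * r) • Finsupp.single a (1 : R) := by
    intro w
    rw [E_apply hab, Finsupp.smul_single, smul_eq_mul, mul_one]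
  rw [dj, LinearMap.sub_apply, cj_apply, h1, map_sub, map_smul, h2, Finsupp.sub_apply,
    Finsupp.smul_apply, smul_eq_mul]
  abel

theorem dj_dj_dj {a b : Λ} (hab : a ≠ b) (r s t : R) (m : (Λ →₀ R) →ₗ[R] (Λ →₀ R)) :
    dj (E a b t) (dj (E a b s) (dj (E a b r) m)) = 0 := by
  classical
  have h0 : (Finsupp.single a (1 : R)) b = 0 := Finsupp.single_eq_of_ne hab.symm
  set m1 := dj (E a b r) m with hm1
  set m2 := dj (E a b s) m1 with hm2
  have h1 : m1 (Finsupp.single a 1) = (m (Finsupp.single a 1) b * r) • Finsupp.single a 1 := by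
    rw [hm1, dj_E hab, h0]
    simp only [zero_mul, zero_smul, neg_zero, zero_add, sub_zero]
  have h2 : ∀ v, m1 v b = -(v b * r * m (Finsupp.single a 1) b) := by
    intro v
    rw [hm1, dj_E hab, Finsupp.add_apply, Finsupp.neg_apply, Finsupp.smul_apply,
      Finsupp.smul_apply, h0, smul_zero, add_zero, smul_eq_mul]
  have h3 : m2 (Finsupp.single a 1) = 0 := by
    rw [hm2, dj_E hab, h0, h2, h0]
    simp only [zero_mul, zero_smul, neg_zero, zero_add, sub_zero]
  have h4 : ∀ v, m2 v b = 0 := by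
    intro v
    rw [hm2, dj_E hab, Finsupp.add_apply, Finsupp.neg_apply, Finsupp.smul_apply,
      Finsupp.smul_apply, h0, smul_zero, add_zero, h1, Finsupp.smul_apply, h0, smul_zero,
      smul_zero, neg_zero]
  refine LinearMap.ext fun v => ?_
  rw [dj_E hab, h3, h4, LinearMap.zero_apply, smul_zero, neg_zero, zero_add,
    Finsupp.zero_apply, mul_zero, sub_zero, zero_mul, zero_smul]

/-- The representation of the quotient. -/
noncomputable def prep {a b : Λ} (hab : a ≠ b) : PE R Λ →*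
    (Module.End P (((Λ →₀ R) →ₗ[R] (Λ →₀ R)) →+ P))ᵐᵒᵖ :=
  QuotientGroup.lift _ (crep P R Λ) fun _ h => crep_center P hab h

theorem exists_mul_ne_zero_of_infinite {H : Type*} [Group H] {T : Set H} (hT : T.Infinite)
    {x : MonoidAlgebra P H} (hx : x ≠ 0) : ∃ t ∈ T, (of P H t - 1) * x ≠ 0 := by
  classical
  obtain ⟨k, hk⟩ : ∃ k, x.coeff k ≠ 0 := by
    by_contra hcon
    push Not at hcon
    exact hx (coeff_eq_zero.1 (Finsupp.ext hcon))
  by_contra hcon
  push Not at hcon
  have hfin : (T ∩ ((fun t => t * k) ⁻¹' (x.coeff.support : Set H))).Finite :=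
    (Set.Finite.preimage (fun _ _ _ _ h => mul_right_cancel h)
      (Finset.finite_toSet _)).subset Set.inter_subset_right
  refine hT (hfin.subset fun t ht => ⟨ht, ?_⟩)
  have h1 := hcon t ht
  rw [sub_mul, one_mul, sub_eq_zero] at h1
  have h2 : x.coeff (t * k) = x.coeff k := by
    conv_lhs => rw [← h1]
    rw [coeff_of_mul, inv_mul_cancel_left]
  simp only [Set.mem_preimage, Finset.mem_coe, Finsupp.mem_support_iff]
  rw [h2]
  exact hk

theorem not_augSimple_PE_of_char [IsSimpleRing R] [Infinite R] {a b : Λ} (hab : a ≠ b)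
    (h : ringChar R = ringChar P) : ¬ AugSimple P (PE R Λ) := by
  classical
  intro hs
  obtain ⟨φ, hφ⟩ := exists_additive h
  let T : Set (PE R Λ) := Set.range fun r : R => (QuotientGroup.mk (E a b r) : PE R Λ)
  have hT : T.Infinite := by
    refine Set.infinite_range_of_injective ?_
    intro r s hrs
    have h' : (QuotientGroup.mk (E a b r) : PE R Λ) = QuotientGroup.mk (E a b s) := hrs
    rw [QuotientGroup.eq, ← E_neg, ← E_add] at h'
    have := eq_zero_of_mem_center hab h'
    rw [neg_add_eq_zero] at this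
    exact this
  obtain ⟨t₁, ⟨r₁, rfl⟩, h₁⟩ := exists_mul_ne_zero_of_infinite P hT (x := 1) one_ne_zero
  obtain ⟨t₂, ⟨r₂, rfl⟩, h₂⟩ := exists_mul_ne_zero_of_infinite P hT h₁
  obtain ⟨t₃, ⟨r₃, rfl⟩, h₃⟩ := exists_mul_ne_zero_of_infinite P hT h₂
  simp only [mul_one] at h₃
  let F : MonoidAlgebra P (PE R Λ) →ₐ[P] (Module.End P (((Λ →₀ R) →ₗ[R] (Λ →₀ R)) →+ P))ᵐᵒᵖ :=
    MonoidAlgebra.lift P _ _ (prep P hab)
  have hF : ∀ (r : R) (f : ((Λ →₀ R) →ₗ[R] (Λ →₀ R)) →+ P) (m : (Λ →₀ R) →ₗ[R] (Λ →₀ R)),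
      (F (of P _ (QuotientGroup.mk (E a b r)) - 1)).unop f m = f (dj (E a b r) m) := by
    intro r f m
    rw [map_sub, map_one, MulOpposite.unop_sub, MulOpposite.unop_one, LinearMap.sub_apply,
      AddMonoidHom.sub_apply, Module.End.one_apply, dj, map_sub f, lift_of]
    rfl
  let I : AddSubgroup (MonoidAlgebra P (PE R Λ)) := (RingHom.ker F).toAddSubgroup
  have hker : ∀ x, x ∈ I ↔ F x = 0 := fun x => Iff.rfl
  have hmem : (of P _ (QuotientGroup.mk (E a b (1 : R))) - 1 : MonoidAlgebra P (PE R Λ)) ∈ I := by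
    refine hs.le I ?_ ?_ ?_ h₃ ?_ (of_sub_one_mem _)
    · intro r i hi
      rw [hker] at hi ⊢
      rw [map_mul, hi, mul_zero]
    · intro r i hi
      rw [hker] at hi ⊢
      rw [map_mul, hi, zero_mul]
    · rw [hker, map_mul, map_mul]
      apply MulOpposite.unop_injective
      refine LinearMap.ext fun f => AddMonoidHom.ext fun m => ?_
      rw [MulOpposite.unop_mul, MulOpposite.unop_mul, Module.End.mul_apply,
        Module.End.mul_apply, hF, hF, hF, dj_dj_dj hab, map_zero]
      rfl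
    · exact mem_augIdeal_mul_right (of_sub_one_mem _) _
  rw [hker] at hmem
  let ev : ((Λ →₀ R) →ₗ[R] (Λ →₀ R)) →+ P :=
    { toFun := fun m => φ (m (Finsupp.single a 1) a)
      map_zero' := by rw [LinearMap.zero_apply, Finsupp.zero_apply, map_zero]
      map_add' := fun m n => by rw [LinearMap.add_apply, Finsupp.add_apply, map_add] }
  let m : (Λ →₀ R) →ₗ[R] (Λ →₀ R) :=
    (LinearMap.toSpanSingleton R (Λ →₀ R) (Finsupp.single b 1)) ∘ₗ (Finsupp.lapply a)
  have hm : ∀ v, m v = v a • Finsupp.single b (1 : R) := fun v => rfl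
  have h4 := hF 1 ev m
  rw [hmem] at h4
  have h5 : ev (dj (E a b (1 : R)) m) = φ 1 := by
    show φ (dj (E a b (1 : R)) m (Finsupp.single a 1) a) = φ 1
    rw [dj_E hab, Finsupp.single_eq_of_ne hab.symm, hm, Finsupp.single_eq_same, one_smul]
    simp
  rw [h5] at h4
  exact hφ h4.symm

end char

end Pool.Agent.Helper92.FG
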