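import Pool.Agent.Helper92.FG.Fin

/-!
# The core theorem: a nontrivial relation makes the representation trivial
-/

namespace Pool.Agent.Helper92.FG

open Pool.Agent.Helper66.EL

variable {R : Type*} [Ring R] {Λ : Type*}

/-- `g` acts trivially on `W` and modulo `W`. -/
def Triv (W : Submodule R (Λ →₀ R)) (g : elemGroup R Λ) : Prop :=
  (∀ v, lm g v - v ∈ W) ∧ ∀ v ∈ W, lm g v = v

theorem Triv.comm {W : Submodule R (Λ →₀ R)} {g h : elemGroup R Λ} (hg : Triv W g)
    (hh : Triv W h) : g * h = h * g := comm_of_W W hg.1 hg.2 hh.1 hh.2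

theorem Triv.mul {W : Submodule R (Λ →₀ R)} {g h : elemGroup R Λ} (hg : Triv W g)
    (hh : Triv W h) : Triv W (g * h) := by
  constructor
  · intro v
    have e1 : lm (g * h) v - v = (lm g (lm h v) - lm h v) + (lm h v - v) := by
      rw [lm_mul]; abel
    rw [e1]
    exact W.add_mem (hg.1 _) (hh.1 _)
  · intro v hv
    rw [lm_mul, hh.2 v hv, hg.2 v hv]

variable [IsSimpleRing R] [Infinite R] [Finite Λ]

/-- The core theorem in general position. -/
theorem core1 {P : Type*} [Field P] (hR : NoInsulator R) (hchar : ringChar R ≠ ringChar P)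
    {S : Type*} [Ring S] [Algebra P S] (ρ : elemGroup R Λ →* S) {a b c : Λ} (hba : b ≠ a)
    (hca : c ≠ a) (hcb : c ≠ b) {K : Type*} [Fintype K] (g : K → elemGroup R Λ) (κ : K → P)
    (hg : ∀ k, lm (g k) (Finsupp.single a 1) b ≠ 0)
    (hg' : ∀ k, lm (g k)⁻¹ (Finsupp.single a 1) b ≠ 0)
    (hrel : 1 + ∑ k, κ k • ρ (g k) = 0) (x : elemGroup R Λ) : ρ x = 1 := by
  classical
  have hab : a ≠ b := Ne.symm hba
  have hac : a ≠ c := Ne.symm hca
  have hbc : b ≠ c := Ne.symm hcb
  let G : Option K → elemGroup R Λ := fun o => o.elim 1 g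
  have hG0 : G none = 1 := rfl
  have hGs : ∀ k, G (some k) = g k := fun _ => rfl
  let F : Finset R := (Finset.univ.image fun p : Option K × Option K =>
      lm ((G p.1)⁻¹ * G p.2) (Finsupp.single a 1) b) ∪
    (Finset.univ.image fun i : Option K => lm (G i)⁻¹ (Finsupp.single c 1) b)
  obtain ⟨u, w, hF, hC, hD⟩ := hR.exists_pair F
    (Finset.univ.image fun k => lm (g k)⁻¹ (Finsupp.single a 1) b)
    (insert 1 (Finset.univ.image fun k => lm (g k) (Finsupp.single a 1) b))
    (by
      intro z hz
      obtain ⟨k, _, rfl⟩ := Finset.mem_image.1 hz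
      exact hg' k)
    (by
      intro z hz
      rcases Finset.mem_insert.1 hz with rfl | hz
      · exact one_ne_zero
      · obtain ⟨k, _, rfl⟩ := Finset.mem_image.1 hz
        exact hg k)
  have h1 : ∀ i j, w * lm ((G i)⁻¹ * G j) (Finsupp.single a 1) b * u = 0 := fun i j =>
    hF _ (Finset.mem_union_left _ (Finset.mem_image.2 ⟨(i, j), Finset.mem_univ _, rfl⟩))
  have h2 : ∀ i, w * lm (G i)⁻¹ (Finsupp.single c 1) b * u = 0 := fun i =>
    hF _ (Finset.mem_union_right _ (Finset.mem_image_of_mem _ (Finset.mem_univ i)))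
  have hw : w ≠ 0 := by
    have := hD 1 (Finset.mem_insert_self _ _)
    rwa [mul_one] at this
  have he : ∀ k, w * lm (g k) (Finsupp.single a 1) b ≠ 0 := fun k =>
    hD _ (Finset.mem_insert_of_mem (Finset.mem_image_of_mem _ (Finset.mem_univ k)))
  have he' : ∀ k, lm (g k)⁻¹ (Finsupp.single a 1) b * u ≠ 0 := fun k =>
    hC _ (Finset.mem_image_of_mem _ (Finset.mem_univ k))
  -- the submodule `W` and the functionals
  let φ : Option K → (Λ →₀ R) →ₗ[R] R := fun i => phi (G i) b u
  let X : Option K → Λ →₀ R := fun i => w • lm (G i) (Finsupp.single a 1)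
  let η : Λ →₀ R := Finsupp.single c w
  let W : Submodule R (Λ →₀ R) := Submodule.span R (Set.range X ∪ {η})
  have hXW : ∀ i, X i ∈ W := fun i => Submodule.subset_span (Or.inl ⟨i, rfl⟩)
  have hηW : η ∈ W := Submodule.subset_span (Or.inr rfl)
  have hη1 : η = w • Finsupp.single c (1 : R) := by
    simp only [η, Finsupp.smul_single, smul_eq_mul, mul_one]
  have hφη : ∀ i, φ i η = 0 := by
    intro i
    rw [hη1, map_smul, phi_apply, smul_eq_mul, ← mul_assoc]
    exact h2 i
  have hφX : ∀ i j, φ i (X j) = 0 := by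
    intro i j
    show φ i (w • lm (G j) (Finsupp.single a 1)) = 0
    rw [map_smul, phi_apply, smul_eq_mul, ← mul_assoc]
    exact h1 i j
  have hφW : ∀ i, ∀ v ∈ W, φ i v = 0 := by
    intro i
    refine vanish_span ?_
    rintro v (⟨j, rfl⟩ | rfl)
    · exact hφX i j
    · exact hφη i
  -- the conjugates of the elementary elements
  let T : Option K → R → elemGroup R Λ := fun i r => G i * E a b (u * r * w) * (G i)⁻¹
  have hT : ∀ i r v, lm (T i r) v = v + (φ i v * r) • X i := fun i r v =>
    conj_E hab (G i) u r w v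
  have hTW : ∀ i r, Triv W (T i r) := fun i r =>
    W_of_form (hXW i) (f := fun v => φ i v * r) (fun v hv => by rw [hφW i v hv, zero_mul]) (hT i r)
  have hT0 : ∀ i, T i 0 = 1 := by
    intro i
    simp only [T]
    rw [mul_zero, zero_mul, E_zero, mul_one, mul_inv_cancel]
  have hTadd : ∀ i r s, T i (r + s) = T i r * T i s := by
    intro i r s
    simp only [T]
    rw [mul_add, add_mul, E_add]
    group
  have hTneg : ∀ i r, T i (-r) * T i r = 1 := by
    intro i r
    rw [← hTadd, neg_add_cancel, hT0]
  have hTG : ∀ i r, G i * E a b (u * r * w) = T i r * G i := by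
    intro i r
    simp only [T]
    group
  clear_value T
  -- the transvections with center `η`
  let ψ : K → R → (Λ →₀ R) →ₗ[R] R := fun k t =>
    (LinearMap.toSpanSingleton R R t) ∘ₗ (φ (some k))
  have hψ : ∀ k t v, ψ k t v = φ (some k) v * t := fun _ _ _ => rfl
  have hψc : ∀ k t, w * ψ k t (Finsupp.single c 1) = 0 := by
    intro k t
    have e1 : w * (φ (some k) (Finsupp.single c 1)) = 0 := by
      have := hφη (some k)
      rwa [hη1, map_smul, smul_eq_mul] at this
    rw [hψ, ← mul_assoc, e1, zero_mul]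
  let M : K → R → elemGroup R Λ := fun k t => mt c w (ψ k t)
  have hM : ∀ k t v, lm (M k t) v = v + (φ (some k) v * t) • η := fun k t v =>
    mt_apply hca (hψc k t) v
  have hMW : ∀ k t, Triv W (M k t) := fun k t =>
    W_of_form hηW (f := fun v => φ (some k) v * t)
      (fun v hv => by rw [hφW (some k) v hv, zero_mul]) (hM k t)
  have hM0 : ∀ k, M k 0 = 1 := by
    intro k
    apply lm_ext
    intro v
    rw [hM, mul_zero, zero_smul, add_zero, lm_one]
  have hMadd : ∀ k t s, M k (t + s) = M k t * M k s := by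
    intro k t s
    apply lm_ext
    intro v
    rw [lm_mul, hM k s, map_add, (hMW k t).2 _ (W.smul_mem _ hηW), hM, hM, mul_add, add_smul]
    abel
  -- first stage: elimination
  let co : Option K → P := fun o => o.elim 1 κ
  let pr : (K → R) → List K → Option K → S := fun r l i =>
    (l.map fun k => ρ (T (some k) (-r k)) * ρ (T i (r k)) - 1).prod
  have hpr : ∀ (r : K → R) (l : List K) (i j : Option K) (s : R),
      pr r l i * ρ (T j s) = ρ (T j s) * pr r l i := by
    intro r l i j s
    have : Commute (ρ (T j s)) (pr r l i) := by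
      apply Commute.list_prod_right
      intro z hz
      obtain ⟨k, _, rfl⟩ := List.mem_map.1 hz
      have c1 : Commute (ρ (T j s)) (ρ (T (some k) (-r k))) := by
        show _ = _
        rw [← map_mul, (hTW j s).comm (hTW _ _), map_mul]
      have c2 : Commute (ρ (T j s)) (ρ (T i (r k))) := by
        show _ = _
        rw [← map_mul, (hTW j s).comm (hTW _ _), map_mul]
      exact (c1.mul_right c2).sub_right (Commute.one_right _)
    exact this.symm.eq
  have helim : ∀ (r : K → R) (l : List K), ∑ i, co i • (pr r l i * ρ (G i)) = 0 := by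
    intro r l
    induction l with
    | nil =>
      simp only [pr, List.map_nil, List.prod_nil, one_mul]
      rw [Fintype.sum_option]
      simp only [co, Option.elim, hG0, map_one, one_smul, hGs]
      exact hrel
    | cons k l ih =>
      have e1 : ∀ i, pr r (k :: l) i * ρ (G i) =
          ρ (T (some k) (-r k)) * (pr r l i * ρ (G i)) * ρ (E a b (u * r k * w)) -
            pr r l i * ρ (G i) := by
        intro i
        have e2 := hTG i (r k)
        have e3 : pr r (k :: l) i =
            (ρ (T (some k) (-r k)) * ρ (T i (r k)) - 1) * pr r l i := by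
          simp only [pr, List.map_cons, List.prod_cons]
        rw [e3]
        have e4 : ρ (T (some k) (-r k)) * (pr r l i * ρ (G i)) * ρ (E a b (u * r k * w)) =
            ρ (T (some k) (-r k)) * (pr r l i * ρ (T i (r k))) * ρ (G i) := by
          calc ρ (T (some k) (-r k)) * (pr r l i * ρ (G i)) * ρ (E a b (u * r k * w)) =
              ρ (T (some k) (-r k)) * pr r l i * (ρ (G i) * ρ (E a b (u * r k * w))) := by
                simp only [mul_assoc]
            _ = ρ (T (some k) (-r k)) * pr r l i * (ρ (T i (r k)) * ρ (G i)) := by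
                rw [← map_mul, e2, map_mul]
            _ = _ := by simp only [mul_assoc]
        rw [e4, hpr]
        noncomm_ring
      have e5 : ∑ i, co i • (pr r (k :: l) i * ρ (G i)) =
          ρ (T (some k) (-r k)) * (∑ i, co i • (pr r l i * ρ (G i))) *
            ρ (E a b (u * r k * w)) - ∑ i, co i • (pr r l i * ρ (G i)) := by
        rw [Finset.mul_sum, Finset.sum_mul, ← Finset.sum_sub_distrib]
        refine Finset.sum_congr rfl fun i _ => ?_
        rw [e1, smul_sub, mul_smul_comm, smul_mul_assoc]
      rw [e5, ih, mul_zero, zero_mul, sub_zero]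
  have hstage1 : ∀ r : K → R,
      lp (fun k => ρ (T (some k) (-r k) * T none (r k)) - 1) = 0 := by
    intro r
    have h3 := helim r (Finset.univ : Finset K).toList
    rw [Fintype.sum_option] at h3
    have h4 : ∑ k : K, co (some k) • (pr r (Finset.univ : Finset K).toList (some k) *
        ρ (G (some k))) = 0 := by
      refine Finset.sum_eq_zero fun k _ => ?_
      have h5 : pr r (Finset.univ : Finset K).toList (some k) = 0 := by
        apply List.prod_eq_zero
        rw [List.mem_map]
        refine ⟨k, Finset.mem_toList.2 (Finset.mem_univ k), ?_⟩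
        rw [← map_mul, hTneg, map_one, sub_self]
      rw [h5, zero_mul, smul_zero]
    rw [h4, add_zero] at h3
    simp only [co, Option.elim, one_smul, hG0, map_one, mul_one] at h3
    rw [← h3, lp]
    simp only [pr, map_mul]
  -- second stage
  let C : K → R → elemGroup R Λ := fun k r => T (some k) (-r) * T none r
  have hCW : ∀ k r, Triv W (C k r) := fun k r => (hTW _ _).mul (hTW _ _)
  have hC' : ∀ k r v, lm (C k r) v = v + (φ none v * r) • X none -
      (φ (some k) v * r) • X (some k) := by
    intro k r v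
    rw [lm_mul, hT none, map_add, (hTW _ _).2 _ (W.smul_mem _ (hXW none)), hT, mul_neg, neg_smul]
    abel
  have hstage1' : ∀ r : K → R, lp (fun k => ρ (C k (r k)) - 1) = 0 := hstage1
  clear_value C M
  have hXb : X none b = 0 := by
    show (w • lm (G none) (Finsupp.single a 1)) b = 0
    rw [hG0, lm_one, Finsupp.smul_apply, Finsupp.single_eq_of_ne hba, smul_zero]
  have hXkb : ∀ k, X (some k) b = w * lm (g k) (Finsupp.single a 1) b := by
    intro k
    show (w • lm (G (some k)) (Finsupp.single a 1)) b = _
    rw [hGs, Finsupp.smul_apply, smul_eq_mul]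
  have hηb : η b = 0 := Finsupp.single_eq_of_ne hbc
  have hy : ∀ (s : R) v, lm (E c b (s * w)) v = v + (v b * s) • η := by
    intro s v
    rw [E_apply hcb]
    simp only [η, Finsupp.smul_single, smul_eq_mul, mul_assoc]
  have hconj : ∀ (s : R) (k : K) (r : R), (E c b (s * w))⁻¹ * C k r * E c b (s * w) =
      C k r * M k (r * (w * lm (g k) (Finsupp.single a 1) b) * s) := by
    intro s k r
    rw [mul_assoc, inv_mul_eq_iff_eq_mul]
    apply lm_ext
    intro v
    rw [lm_mul, lm_mul, lm_mul, hy, map_add, (hCW k r).2 _ (W.smul_mem _ hηW), hM, map_add,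
      (hCW k r).2 _ (W.smul_mem _ hηW), hy, hC']
    simp only [Finsupp.add_apply, Finsupp.sub_apply, Finsupp.smul_apply, smul_eq_mul, hXb, hXkb,
      hηb, mul_zero, add_zero]
    rw [sub_mul, sub_smul]
    simp only [mul_assoc]
    abel
  have hstage2 : ∀ t : K → R, IsNilpotent (lp fun k => ρ (M k (t k)) - 1) := by
    refine nil_of_family' (fun k => w * lm (g k) (Finsupp.single a 1) b) he
      (fun k r => ρ (C k r)) (fun k t => ρ (M k t)) ?_ ?_ ?_ ?_
    · intro k r k' r'
      refine ⟨?_, ?_, ?_⟩
      · rw [← map_mul, (hCW k r).comm (hCW k' r'), map_mul]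
      · rw [← map_mul, (hCW k r).comm (hMW k' r'), map_mul]
      · rw [← map_mul, (hMW k r).comm (hMW k' r'), map_mul]
    · intro k t s
      rw [hMadd, map_mul]
    · intro k
      rw [hM0, map_one]
    · intro s r
      have h3 : ρ (E c b (s * w))⁻¹ * ρ (E c b (s * w)) = 1 := by
        rw [← map_mul, inv_mul_cancel, map_one]
      have h3' : ρ (E c b (s * w)) * ρ (E c b (s * w))⁻¹ = 1 := by
        rw [← map_mul, mul_inv_cancel, map_one]
      have h4 := conj_lp h3 h3' (fun k => ρ (C k (r k)) - 1)
        (fun k => ρ (C k (r k)) *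
          ρ (M k (r k * (w * lm (g k) (Finsupp.single a 1) b) * s)) - 1) (by
        intro k
        rw [mul_sub, sub_mul, mul_one, h3, ← map_mul, ← map_mul, ← map_mul, ← hconj])
      rw [← h4, hstage1', mul_zero, zero_mul]
      exact IsNilpotent.zero
  -- third stage
  let W' : Submodule R (Λ →₀ R) := Submodule.span R {η}
  have hηW' : η ∈ W' := Submodule.subset_span rfl
  have hMW' : ∀ k t, Triv W' (M k t) := fun k t =>
    W_of_form hηW' (f := fun v => φ (some k) v * t)
      (fun v hv => by
        rw [vanish_span (X := {η}) (f := φ (some k)) (by rintro v rfl; exact hφη _) v hv,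
          zero_mul]) (hM k t)
  have hEW' : ∀ s, Triv W' (E c b (s * w)) := fun s =>
    W_of_form hηW' (f := fun v => v b * s)
      (fun v hv => by
        have h3 : (Finsupp.lapply b : (Λ →₀ R) →ₗ[R] R) v = 0 :=
          vanish_span (X := {η}) (by rintro v rfl; exact hηb) v hv
        have h4 : v b = 0 := h3
        rw [h4, zero_mul]) (hy s)
  have hconj' : ∀ (τ : R) (k : K) (t : R), E a b τ * M k t * (E a b τ)⁻¹ =
      M k t * E c b (-(τ * (lm (g k)⁻¹ (Finsupp.single a 1) b * u) * t) * w) := by
    intro τ k t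
    rw [mul_inv_eq_iff_eq_mul]
    apply lm_ext
    intro v
    have e1 : φ (some k) (Finsupp.single a (v b * τ)) =
        v b * τ * (lm (g k)⁻¹ (Finsupp.single a 1) b * u) := by
      have e2 : Finsupp.single a (v b * τ) = (v b * τ) • Finsupp.single a (1 : R) := by
        rw [Finsupp.smul_single, smul_eq_mul, mul_one]
      rw [e2, map_smul, phi_apply, smul_eq_mul]
      rfl
    have e3 : (v + Finsupp.single a (v b * τ)) b = v b := by
      rw [Finsupp.add_apply, Finsupp.single_eq_of_ne hba, add_zero]
    rw [lm_mul, lm_mul, lm_mul, hM, E_apply hab, E_apply hab, hy, map_add (lm (M k t)),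
      (hMW' k t).2 _ (W'.smul_mem _ hηW'), hM, map_add (φ (some k)), e1, e3]
    simp only [Finsupp.add_apply, Finsupp.smul_apply, smul_eq_mul, hηb, mul_zero, add_zero]
    rw [add_mul, add_smul, mul_neg, neg_smul]
    simp only [mul_assoc]
    abel
  have : Infinite Rᵐᵒᵖ := Infinite.of_injective MulOpposite.op MulOpposite.op_injective
  have hstage3 : ∀ t : K → Rᵐᵒᵖ,
      IsNilpotent (lp fun k => ρ (E c b (-(MulOpposite.unop (t k)) * w)) - 1) := by
    refine nil_of_family' (R := Rᵐᵒᵖ)
      (fun k => MulOpposite.op (lm (g k)⁻¹ (Finsupp.single a 1) b * u))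
      (fun k => (MulOpposite.op_ne_zero_iff _).2 (he' k))
      (fun k x => ρ (M k (MulOpposite.unop x)))
      (fun _ x => ρ (E c b (-(MulOpposite.unop x) * w))) ?_ ?_ ?_ ?_
    · intro k r k' r'
      refine ⟨?_, ?_, ?_⟩
      · rw [← map_mul, (hMW' k _).comm (hMW' k' _), map_mul]
      · rw [← map_mul, (hMW' k _).comm (hEW' _), map_mul]
      · rw [← map_mul, (hEW' _).comm (hEW' _), map_mul]
    · intro k t s
      rw [MulOpposite.unop_add, neg_add, add_mul, E_add, map_mul]
    · intro k
      rw [MulOpposite.unop_zero, neg_zero, zero_mul, E_zero, map_one]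
    · intro s r
      set τ := MulOpposite.unop s with hτ
      have h3 : ρ (E a b τ) * ρ (E a b τ)⁻¹ = 1 := by
        rw [← map_mul, mul_inv_cancel, map_one]
      have h3' : ρ (E a b τ)⁻¹ * ρ (E a b τ) = 1 := by
        rw [← map_mul, inv_mul_cancel, map_one]
      have h4 := conj_lp h3 h3' (fun k => ρ (M k (MulOpposite.unop (r k))) - 1)
        (fun k => ρ (M k (MulOpposite.unop (r k))) *
          ρ (E c b (-(MulOpposite.unop (r k *
            MulOpposite.op (lm (g k)⁻¹ (Finsupp.single a 1) b * u) * s)) * w)) - 1) (by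
        intro k
        rw [mul_sub, sub_mul, mul_one, h3, ← map_mul, ← map_mul, ← map_mul, hconj']
        simp only [MulOpposite.unop_mul, MulOpposite.unop_op, ← hτ, mul_assoc])
      rw [← h4]
      exact isNilpotent_conj h3 h3' (hstage2 _)
  refine finish hchar ρ hba hca hcb hw (fun y => ?_) x
  have h3 := hstage3 fun _ => MulOpposite.op (-y)
  rw [lp_const] at h3
  simp only [MulOpposite.unop_op, neg_neg] at h3
  obtain ⟨m, hm⟩ := h3
  exact ⟨Fintype.card K * m, by rw [pow_mul]; exact hm⟩

end Pool.Agent.Helper92.FG
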