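import Pool.Agent.Helper66.EL.Group

/-!
# Elementary groups modulo the center, rings without uniform insulators
-/

namespace Pool.Agent.Helper92.FG

open Pool.Agent.Helper66.EL

/-- No finite subset `F` of `R` is a uniform insulator: for each finite `F` there are nonzero
`u`, `v` with `v F u = 0`. -/
def NoInsulator (R : Type*) [Ring R] : Prop :=
  ∀ F : Finset R, ∃ u v : R, u ≠ 0 ∧ v ≠ 0 ∧ ∀ x ∈ F, v * x * u = 0

/-- The quotient of the elementary group by its center. -/
abbrev PE (R : Type*) [Ring R] (Λ : Type*) : Type _ :=
  elemGroup R Λ ⧸ Subgroup.center (elemGroup R Λ)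

end Pool.Agent.Helper92.FG
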