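import Pool.Agent.Helper92.FG.FinGen

/-!
# Diagonal elements of the elementary group
-/

namespace Pool.Agent.Helper92.FG

open Pool.Agent.Helper66.EL

variable {R : Type*} [Ring R] {Λ : Type*}

/-- The element `g` multiplies the coordinate `i` by `f i` for each `i`. -/
def Dg (g : elemGroup R Λ) (f : Λ → Rˣ) : Prop := ∀ v i, lm g v i = v i * f i

theorem Dg.mul {g g' : elemGroup R Λ} {f f' : Λ → Rˣ} (h : Dg g f) (h' : Dg g' f') :
    Dg (g * g') (f' * f) := by
  intro v i
  rw [lm_mul, h, h', Pi.mul_apply, Units.val_mul, mul_assoc]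

theorem Dg.inv {g : elemGroup R Λ} {f : Λ → Rˣ} (h : Dg g f) : Dg g⁻¹ f⁻¹ := by
  intro v i
  have h1 := h (lm g⁻¹ v) i
  rw [lm_apply_inv] at h1
  rw [h1, Pi.inv_apply, Units.mul_inv_cancel_right]

theorem Dg.ext {g g' : elemGroup R Λ} {f : Λ → Rˣ} (h : Dg g f) (h' : Dg g' f) : g = g' :=
  lm_ext fun v => Finsupp.ext fun i => by rw [h, h']

section dec

variable [DecidableEq Λ]

theorem exists_dg {a c : Λ} (hac : a ≠ c) (u : Rˣ) :
    ∃ g : elemGroup R Λ, Dg g (Pi.mulSingle a u * Pi.mulSingle c u⁻¹) := by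
  refine ⟨E a c (-(u : R)) * (E c a ((u⁻¹ : Rˣ) - 1 : R) * (E a c 1 * E c a ((u : R) - 1))),
    fun v i => ?_⟩
  rw [lm_mul, lm_mul, lm_mul, E_apply hac.symm (u - 1 : R), E_apply hac 1,
    E_apply hac.symm (((u⁻¹ : Rˣ) : R) - 1), E_apply hac (-(u : R))]
  have hca : c ≠ a := hac.symm
  have e1 : (u : R) * ((u⁻¹ : Rˣ) : R) = 1 := Units.mul_inv u
  have e2 : ((u⁻¹ : Rˣ) : R) * (u : R) = 1 := Units.inv_mul u
  by_cases hia : i = a
  · subst hia
    simp only [Finsupp.add_apply, Finsupp.single_eq_same, Finsupp.single_eq_of_ne hac,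
      Finsupp.single_eq_of_ne hca, Pi.mul_apply, Pi.mulSingle_eq_same,
      Pi.mulSingle_eq_of_ne hac, add_zero, mul_one]
    have e3 : v i + (v c + v i * ((u : R) - 1)) = v i * u + v c := by
      rw [mul_sub, mul_one]; abel
    rw [e3]
    have e4 : v c + v i * ((u : R) - 1) + (v i * u + v c) * (((u⁻¹ : Rˣ) : R) - 1) =
        v c * ((u⁻¹ : Rˣ) : R) := by
      rw [mul_sub, mul_sub, add_mul, mul_assoc (v i), e1]
      simp only [mul_one]
      abel
    rw [e4, mul_neg, mul_assoc (v c), e2, mul_one]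
    abel
  · by_cases hic : i = c
    · subst hic
      simp only [Finsupp.add_apply, Finsupp.single_eq_same, Finsupp.single_eq_of_ne hac,
        Finsupp.single_eq_of_ne hca, Pi.mul_apply, Pi.mulSingle_eq_same,
        Pi.mulSingle_eq_of_ne hca, add_zero, mul_one, one_mul]
      have e3 : v a + (v i + v a * ((u : R) - 1)) = v a * u + v i := by
        rw [mul_sub, mul_one]; abel
      rw [e3]
      rw [mul_sub, mul_sub, add_mul, mul_assoc (v a), e1]
      simp only [mul_one]
      abel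
    · simp only [Finsupp.add_apply, Finsupp.single_eq_of_ne hia, Finsupp.single_eq_of_ne hic,
        Pi.mul_apply, Pi.mulSingle_eq_of_ne hia, Pi.mulSingle_eq_of_ne hic, add_zero, mul_one,
        Units.val_one]

theorem exists_dg_comm {a b c : Λ} (hab : a ≠ b) (hac : a ≠ c) (hbc : b ≠ c) (s t : Rˣ) :
    ∃ g : elemGroup R Λ, Dg g (Pi.mulSingle a (t⁻¹ * s⁻¹ * t * s)) := by
  obtain ⟨k, hk⟩ := exists_dg (R := R) hab s
  obtain ⟨l, hl⟩ := exists_dg (R := R) hac t
  refine ⟨k * (l * (k⁻¹ * l⁻¹)), ?_⟩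
  have h1 := hk.mul (hl.mul (hk.inv.mul hl.inv))
  convert h1 using 1
  funext i
  by_cases hia : i = a
  · subst hia
    simp only [Pi.mul_apply, Pi.inv_apply, Pi.mulSingle_eq_same, Pi.mulSingle_eq_of_ne hab,
      Pi.mulSingle_eq_of_ne hac, mul_one]
  · by_cases hib : i = b
    · subst hib
      simp only [Pi.mul_apply, Pi.inv_apply, Pi.mulSingle_eq_same, Pi.mulSingle_eq_of_ne hia,
        Pi.mulSingle_eq_of_ne hbc, mul_one, one_mul, inv_one, inv_inv, mul_inv_cancel]
    · by_cases hic : i = c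
      · subst hic
        simp only [Pi.mul_apply, Pi.inv_apply, Pi.mulSingle_eq_same, Pi.mulSingle_eq_of_ne hia,
          Pi.mulSingle_eq_of_ne hib, mul_one, one_mul, inv_one, inv_inv, mul_inv_cancel]
      · simp only [Pi.mul_apply, Pi.inv_apply, Pi.mulSingle_eq_of_ne hia,
          Pi.mulSingle_eq_of_ne hib, Pi.mulSingle_eq_of_ne hic, mul_one, inv_one]

/-- A group of units which are commutators embeds in the quotient of the elementary group by the
center. -/
theorem exists_embed {C : Type*} [Group C] {a b c : Λ} (hab : a ≠ b) (hac : a ≠ c)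
    (hbc : b ≠ c) (ψ : C →* Rˣ) (hψ : Function.Injective ψ)
    (h : ∀ x, ∃ s t : Rˣ, ψ x = t⁻¹ * s⁻¹ * t * s) :
    ∃ f : C →* PE R Λ, Function.Injective f := by
  have h1 : ∀ x, ∃ g : elemGroup R Λ, Dg g (Pi.mulSingle a (ψ x)⁻¹) := by
    intro x
    obtain ⟨s, t, hst⟩ := h x
    obtain ⟨g, hg⟩ := exists_dg_comm hab hac hbc s t
    refine ⟨g⁻¹, ?_⟩
    have := hg.inv
    rwa [← hst, ← Pi.mulSingle_inv] at this
  choose g hg using h1
  let f : C →* elemGroup R Λ :=
    { toFun := g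
      map_one' := by
        have h2 := hg 1
        rw [map_one, inv_one, Pi.mulSingle_one] at h2
        refine h2.ext (g' := 1) fun v i => ?_
        rw [lm_one, Pi.one_apply, Units.val_one, mul_one]
      map_mul' := by
        intro x y
        refine (hg (x * y)).ext ?_
        have h2 := (hg x).mul (hg y)
        rwa [← Pi.mulSingle_mul, ← mul_inv_rev, ← map_mul] at h2 }
  have hf : ∀ x, Dg (f x) (Pi.mulSingle a (ψ x)⁻¹) := hg
  refine ⟨(QuotientGroup.mk' _).comp f, ?_⟩
  rw [injective_iff_map_eq_one]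
  intro x hx
  have hx' : (QuotientGroup.mk (f x) : PE R Λ) = 1 := hx
  rw [QuotientGroup.eq_one_iff] at hx'
  obtain ⟨ζ, _, hζ⟩ := isScal_of_comm hab hx'
  have hζ' : ∀ v, lm (f x) v = ζ • v := hζ
  have h2 : ζ = 1 := by
    have h3 := DFunLike.congr_fun (hζ' (Finsupp.single b 1)) b
    rw [hf x, Pi.mulSingle_eq_of_ne hab.symm, Finsupp.single_eq_same, Units.val_one, mul_one,
      Finsupp.smul_apply, Finsupp.single_eq_same, smul_eq_mul, mul_one] at h3
    exact h3.symm
  have h4 : (((ψ x)⁻¹ : Rˣ) : R) = 1 := by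
    have h3 := DFunLike.congr_fun (hζ' (Finsupp.single a 1)) a
    rw [hf x, Pi.mulSingle_eq_same, Finsupp.single_eq_same, one_mul,
      Finsupp.smul_apply, Finsupp.single_eq_same, smul_eq_mul, mul_one, h2] at h3
    exact h3
  apply hψ
  rw [map_one, ← inv_eq_one]
  exact Units.ext h4

end dec

end Pool.Agent.Helper92.FG
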