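import Pool.Agent.Helper92.FG.Rel

/-!
# Finitely generated simple rings without insulators
-/

namespace Pool.Agent.Helper92.FG

universe u

/-- Each nontrivial ring has a simple quotient. -/
theorem exists_simple_quotient (A : Type*) [Ring A] [Nontrivial A] :
    ∃ I : TwoSidedIdeal A, IsSimpleRing I.ringCon.Quotient := by
  classical
  obtain ⟨I, hI⟩ := zorn_le₀ {I : TwoSidedIdeal A | (1 : A) ∉ I} (by
    intro c hc hchain
    by_cases hne : c.Nonempty
    · obtain ⟨I₀, hI₀⟩ := hne
      let J : TwoSidedIdeal A := TwoSidedIdeal.mk' {z | ∃ I ∈ c, z ∈ I}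
        ⟨I₀, hI₀, I₀.zero_mem⟩
        (by
          rintro x y ⟨I, hI, hx⟩ ⟨I', hI', hy⟩
          rcases hchain.total hI hI' with h | h
          · exact ⟨I', hI', I'.add_mem (h hx) hy⟩
          · exact ⟨I, hI, I.add_mem hx (h hy)⟩)
        (by
          rintro x ⟨I, hI, hx⟩
          exact ⟨I, hI, I.neg_mem hx⟩)
        (by
          rintro x y ⟨I, hI, hy⟩
          exact ⟨I, hI, I.mul_mem_left _ _ hy⟩)
        (by
          rintro x y ⟨I, hI, hx⟩
          exact ⟨I, hI, I.mul_mem_right _ _ hx⟩)
      have hJ : ∀ x, x ∈ J ↔ ∃ I ∈ c, x ∈ I := fun x => TwoSidedIdeal.mem_mk' _ _ _ _ _ _ x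
      refine ⟨J, ?_, ?_⟩
      · intro h
        obtain ⟨I, hI, h1⟩ := (hJ 1).1 h
        exact hc hI h1
      · intro I hI x hx
        exact (hJ x).2 ⟨I, hI, hx⟩
    · refine ⟨⊥, ?_, fun z hz => absurd ⟨z, hz⟩ hne⟩
      intro h
      exact one_ne_zero ((TwoSidedIdeal.mem_bot A).1 h))
  have h1 : (1 : A) ∉ I := hI.prop
  have hmk : ∀ x : A, I.ringCon.mk' x = 0 ↔ x ∈ I := by
    intro x
    rw [TwoSidedIdeal.mem_iff]
    exact RingCon.eq I.ringCon
  refine ⟨I, ?_⟩
  have : Nontrivial I.ringCon.Quotient := by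
    refine ⟨1, 0, fun h => h1 ?_⟩
    rw [← hmk, map_one]
    exact h
  refine IsSimpleRing.of_eq_bot_or_eq_top fun K => ?_
  by_cases hK : (1 : I.ringCon.Quotient) ∈ K
  · exact Or.inr ((TwoSidedIdeal.one_mem_iff K).1 hK)
  · left
    have h2 : TwoSidedIdeal.comap I.ringCon.mk' K ≤ I := by
      refine hI.le_of_ge ?_ ?_
      · intro h
        rw [TwoSidedIdeal.mem_comap, map_one] at h
        exact hK h
      · intro x hx
        rw [TwoSidedIdeal.mem_comap, (hmk x).2 hx]
        exact K.zero_mem
    rw [eq_bot_iff]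
    intro y hy
    obtain ⟨x, rfl⟩ := RingCon.mk'_surjective I.ringCon y
    rw [TwoSidedIdeal.mem_bot, hmk]
    apply h2
    rwa [TwoSidedIdeal.mem_comap]

section ops

variable {B : Type*} [Ring B]

/-- The operator `x_i`. -/
def ox (B : Type*) [Ring B] (i : Bool) : AddMonoid.End (ℕ → B) where
  toFun f n := if n.bodd = i then f n.div2 else 0
  map_zero' := by
    funext n
    simp
  map_add' f g := by
    funext n
    by_cases h : n.bodd = i
    · simp [h]
    · simp [h]

/-- The operator `y_i`. -/
def oy (B : Type*) [Ring B] (i : Bool) : AddMonoid.End (ℕ → B) where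
  toFun f n := f (Nat.bit i n)
  map_zero' := rfl
  map_add' _ _ := rfl

/-- The number of trailing ones. -/
def tr (n : ℕ) : ℕ := padicValNat 2 (n + 1)

theorem tr_bit_false (n : ℕ) : tr (Nat.bit false n) = 0 := by
  have h1 : Nat.bit false n + 1 = 2 * n + 1 := by rw [Nat.bit_val]; rfl
  rw [tr, h1]
  exact padicValNat.eq_zero_of_not_dvd (by omega)

theorem tr_bit_true (n : ℕ) : tr (Nat.bit true n) = tr n + 1 := by
  have h1 : Nat.bit true n + 1 = 2 * (n + 1) := by rw [Nat.bit_val, Bool.toNat_true]; ring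
  rw [tr, tr, h1, padicValNat.mul (by norm_num) (by omega), padicValNat.self (by norm_num), add_comm]

/-- The operator `D_j`. -/
def od (b : ℕ → B) (j : ℕ) : AddMonoid.End (ℕ → B) where
  toFun f n := b (tr n + j) * f n
  map_zero' := by
    funext n
    exact mul_zero _
  map_add' f g := by
    funext n
    exact mul_add _ _ _

/-- Multiplication by an element of `B`. -/
def ol (B : Type*) [Ring B] : B →+* AddMonoid.End (ℕ → B) where
  toFun β :=
    { toFun := fun f n => β * f n
      map_zero' := by
        funext n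
        exact mul_zero _
      map_add' := fun f g => by
        funext n
        exact mul_add _ _ _ }
  map_zero' := by
    ext f n
    exact zero_mul _
  map_one' := by
    ext f n
    exact one_mul _
  map_add' α β := by
    ext f n
    exact add_mul _ _ _
  map_mul' α β := by
    ext f n
    exact mul_assoc _ _ _

theorem ox_apply (i : Bool) (f : ℕ → B) (n : ℕ) :
    ox B i f n = if n.bodd = i then f n.div2 else 0 := rfl

theorem oy_apply (i : Bool) (f : ℕ → B) (n : ℕ) : oy B i f n = f (Nat.bit i n) := rfl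

theorem od_apply (b : ℕ → B) (j : ℕ) (f : ℕ → B) (n : ℕ) :
    od b j f n = b (tr n + j) * f n := rfl

theorem ol_apply (β : B) (f : ℕ → B) (n : ℕ) : ol B β f n = β * f n := rfl

theorem mul_ap (S T : AddMonoid.End (ℕ → B)) (f : ℕ → B) : (S * T) f = S (T f) := rfl

theorem end_ext {S T : AddMonoid.End (ℕ → B)} (h : ∀ f n, S f n = T f n) : S = T :=
  AddMonoidHom.ext fun f => funext (h f)

theorem oy_mul_ox (i j : Bool) : oy B i * ox B j = if i = j then 1 else 0 := by
  apply end_ext
  intro f n
  rw [mul_ap, oy_apply, ox_apply, Nat.bodd_bit, Nat.div2_bit]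
  by_cases h : i = j
  · rw [if_pos h, if_pos h]; rfl
  · rw [if_neg h, if_neg h]; rfl

theorem ol_mul_ox (β : B) (i : Bool) : ol B β * ox B i = ox B i * ol B β := by
  apply end_ext
  intro f n
  rw [mul_ap, mul_ap, ol_apply, ox_apply, ox_apply, ol_apply]
  by_cases h : n.bodd = i
  · rw [if_pos h, if_pos h]
  · rw [if_neg h, if_neg h, mul_zero]

theorem ol_mul_oy (β : B) (i : Bool) : ol B β * oy B i = oy B i * ol B β := rfl

theorem od_mul_ox_false (b : ℕ → B) (j : ℕ) : od b j * ox B false = ox B false * ol B (b j) := by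
  apply end_ext
  intro f n
  rw [mul_ap, mul_ap, od_apply, ox_apply, ox_apply, ol_apply]
  by_cases h : n.bodd = false
  · rw [if_pos h, if_pos h]
    have h1 : tr n = 0 := by
      rw [← Nat.bit_bodd_div2 n, h, tr_bit_false]
    rw [h1, zero_add]
  · rw [if_neg h, if_neg h, mul_zero]

theorem od_mul_ox_true (b : ℕ → B) (j : ℕ) : od b j * ox B true = ox B true * od b (j + 1) := by
  apply end_ext
  intro f n
  rw [mul_ap, mul_ap, od_apply, ox_apply, ox_apply, od_apply]
  by_cases h : n.bodd = true
  · rw [if_pos h, if_pos h]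
    have h1 : tr n = tr n.div2 + 1 := by
      conv_lhs => rw [← Nat.bit_bodd_div2 n, h, tr_bit_true]
    rw [h1, add_right_comm, add_assoc]
  · rw [if_neg h, if_neg h, mul_zero]

end ops

/-- Each countably generated ring maps to a finitely generated simple ring without insulators. -/
theorem exists_ring {B : Type u} [Ring B] [Nontrivial B] (b : ℕ → B)
    (hb : Subring.closure (Set.range b) = ⊤) :
    ∃ (R : Type u) (_ : Ring R), IsSimpleRing R ∧ NoInsulator R ∧
      (∃ T : Finset R, Subring.closure (T : Set R) = ⊤) ∧ Nonempty (B →+* R) := by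
  classical
  set S : Set (AddMonoid.End (ℕ → B)) :=
    {ox B false, ox B true, oy B false, oy B true, od b 0} with hS
  let R₀ := Subring.closure S
  have hx : ∀ i, ox B i ∈ R₀ := by
    intro i
    cases i
    · exact Subring.subset_closure (by simp [hS])
    · exact Subring.subset_closure (by simp [hS])
  have hy : ∀ i, oy B i ∈ R₀ := by
    intro i
    cases i
    · exact Subring.subset_closure (by simp [hS])
    · exact Subring.subset_closure (by simp [hS])
  have hd : ∀ j, od b j ∈ R₀ := by
    intro j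
    induction j with
    | zero => exact Subring.subset_closure (by simp [hS])
    | succ j ih =>
      have h1 : od b (j + 1) = oy B true * (od b j * ox B true) := by
        rw [od_mul_ox_true, ← mul_assoc, oy_mul_ox, if_pos rfl, one_mul]
      rw [h1]
      exact R₀.mul_mem (hy _) (R₀.mul_mem ih (hx _))
  have hlb : ∀ j, ol B (b j) ∈ R₀ := by
    intro j
    have h1 : ol B (b j) = oy B false * (od b j * ox B false) := by
      rw [od_mul_ox_false, ← mul_assoc, oy_mul_ox, if_pos rfl, one_mul]
    rw [h1]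
    exact R₀.mul_mem (hy _) (R₀.mul_mem (hd _) (hx _))
  have hl : ∀ β, ol B β ∈ R₀ := by
    intro β
    have h1 : β ∈ Subring.closure (Set.range b) := by rw [hb]; exact Subring.mem_top β
    induction h1 using Subring.closure_induction with
    | mem x hx =>
      obtain ⟨j, rfl⟩ := hx
      exact hlb j
    | zero => rw [map_zero]; exact R₀.zero_mem
    | one => rw [map_one]; exact R₀.one_mem
    | add x y _ _ h h' => rw [map_add]; exact R₀.add_mem h h'
    | neg x _ h => rw [map_neg]; exact R₀.neg_mem h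
    | mul x y _ _ h h' => rw [map_mul]; exact R₀.mul_mem h h'
  have hnt : Nontrivial R₀ := by
    refine ⟨1, 0, fun h => ?_⟩
    have h1 : (1 : AddMonoid.End (ℕ → B)) = 0 := congrArg Subtype.val h
    have h2 := congrArg (fun T : AddMonoid.End (ℕ → B) => T (fun _ => 1) 0) h1
    exact one_ne_zero h2
  obtain ⟨I, hI⟩ := exists_simple_quotient R₀
  let π : R₀ →+* I.ringCon.Quotient := I.ringCon.mk'
  let θ : B →+* I.ringCon.Quotient := π.comp ((ol B).codRestrict R₀ hl)
  let X : Bool → I.ringCon.Quotient := fun i => π ⟨ox B i, hx i⟩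
  let Y : Bool → I.ringCon.Quotient := fun i => π ⟨oy B i, hy i⟩
  let D : ℕ → I.ringCon.Quotient := fun j => π ⟨od b j, hd j⟩
  have hθ : ∀ β, θ β = π ⟨ol B β, hl β⟩ := fun β => rfl
  have hgen : Subring.closure ({X false, X true, Y false, Y true, D 0} :
      Set I.ringCon.Quotient) = ⊤ := by
    rw [eq_top_iff]
    intro r hr
    clear hr
    obtain ⟨⟨e, he⟩, rfl⟩ := RingCon.mk'_surjective I.ringCon r
    show π ⟨e, he⟩ ∈ _
    set S' : Set I.ringCon.Quotient := {X false, X true, Y false, Y true, D 0} with hS'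
    induction he using Subring.closure_induction with
    | mem x hx' =>
      apply Subring.subset_closure
      simp only [hS, Set.mem_insert_iff, Set.mem_singleton_iff] at hx'
      rcases hx' with rfl | rfl | rfl | rfl | rfl
      · simp [hS', X]
      · simp [hS', X]
      · simp [hS', Y]
      · simp [hS', Y]
      · simp [hS', D]
    | zero =>
      have : π ⟨0, R₀.zero_mem⟩ = 0 := map_zero π
      rw [this]
      exact Subring.zero_mem _
    | one =>
      have : π ⟨1, R₀.one_mem⟩ = 1 := map_one π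
      rw [this]
      exact Subring.one_mem _
    | add x y hx hy h h' =>
      have : π ⟨x + y, R₀.add_mem hx hy⟩ = π ⟨x, hx⟩ + π ⟨y, hy⟩ := map_add π ⟨x, hx⟩ ⟨y, hy⟩
      rw [this]
      exact Subring.add_mem _ h h'
    | neg x hx h =>
      have : π ⟨-x, R₀.neg_mem hx⟩ = -π ⟨x, hx⟩ := map_neg π ⟨x, hx⟩
      rw [this]
      exact Subring.neg_mem _ h
    | mul x y hx hy h h' =>
      have : π ⟨x * y, R₀.mul_mem hx hy⟩ = π ⟨x, hx⟩ * π ⟨y, hy⟩ := map_mul π ⟨x, hx⟩ ⟨y, hy⟩
      rw [this]
      exact Subring.mul_mem _ h h'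
  refine ⟨I.ringCon.Quotient, inferInstance, hI, ?_,
    ⟨{X false, X true, Y false, Y true, D 0}, by simpa using hgen⟩, ⟨θ⟩⟩
  refine noInsulator_of_rel (x := X) (y := Y) (D := D) (b := fun j => θ (b j)) ?_ ?_ ?_ ?_ hgen
  · intro i j
    rw [← map_mul]
    have h1 : (⟨oy B i, hy i⟩ * ⟨ox B j, hx j⟩ : R₀) = if i = j then 1 else 0 := by
      apply Subtype.ext
      show oy B i * ox B j = _
      rw [oy_mul_ox]
      by_cases h : i = j
      · rw [if_pos h, if_pos h]; rfl
      · rw [if_neg h, if_neg h]; rfl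
    rw [h1]
    by_cases h : i = j
    · rw [if_pos h, if_pos h, map_one]
    · rw [if_neg h, if_neg h, map_zero]
  · intro n i
    rw [hθ, ← map_mul, ← map_mul]
    congr 1
    exact Subtype.ext (ol_mul_ox _ _)
  · intro n
    rw [hθ, ← map_mul, ← map_mul]
    congr 1
    exact Subtype.ext (od_mul_ox_false b n)
  · intro n
    rw [← map_mul, ← map_mul]
    congr 1
    exact Subtype.ext (od_mul_ox_true b n)

end Pool.Agent.Helper92.FG
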