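import Pool.Agent.Helper92.FG.Diag
import Pool.Agent.Helper92.FG.Ring

/-!
# Every countable group embeds in a finitely generated group with simple augmentation ideal
-/

namespace Pool.Agent.Helper92.FG

open Pool.Agent.Helper66.EL Pool.Agent.Helper66.AI

universe u v

section perm

variable {X : Type u} (k : Type) [Field k]

/-- The operator of a permutation. -/
def pp (X : Type u) : Equiv.Perm X →* Module.End k (X → k) where
  toFun σ := LinearMap.funLeft k k (σ⁻¹ : Equiv.Perm X)
  map_one' := rfl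
  map_mul' σ τ := by
    apply LinearMap.ext
    intro f
    funext x
    show f ((σ * τ)⁻¹ x) = f (τ⁻¹ (σ⁻¹ x))
    rw [mul_inv_rev]
    rfl

theorem pp_apply (σ : Equiv.Perm X) (f : X → k) (x : X) : pp k X σ f x = f (σ⁻¹ x) := rfl

end perm

section main

variable (k : Type) [Field k] (C : Type u) [Group C]

/-- The set on which the group acts. -/
abbrev XX (C : Type u) : Type u := ℤ × C × ℕ

/-- The action on the nonnegative levels. -/
def al (C : Type u) [Group C] : C →* Equiv.Perm (XX C) where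
  toFun c :=
    { toFun := fun x => if 0 ≤ x.1 then (x.1, c * x.2.1, x.2.2) else x
      invFun := fun x => if 0 ≤ x.1 then (x.1, c⁻¹ * x.2.1, x.2.2) else x
      left_inv := by
        rintro ⟨i, g, n⟩
        by_cases h : 0 ≤ i
        · simp [h]
        · simp [h]
      right_inv := by
        rintro ⟨i, g, n⟩
        by_cases h : 0 ≤ i
        · simp [h]
        · simp [h] }
  map_one' := by
    apply Equiv.ext
    rintro ⟨i, g, n⟩
    simp
  map_mul' c d := by
    apply Equiv.ext
    rintro ⟨i, g, n⟩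
    by_cases h : 0 ≤ i
    · simp [h, mul_assoc]
    · simp [h]

theorem al_pos (c : C) {i : ℤ} (h : 0 ≤ i) (g : C) (n : ℕ) :
    al C c (i, g, n) = (i, c * g, n) := if_pos h

theorem al_neg (c : C) {i : ℤ} (h : ¬ 0 ≤ i) (g : C) (n : ℕ) :
    al C c (i, g, n) = (i, g, n) := if_neg h

/-- The shift. -/
def sh (C : Type u) : Equiv.Perm (XX C) where
  toFun x := (x.1 + 1, x.2.1, x.2.2)
  invFun x := (x.1 - 1, x.2.1, x.2.2)
  left_inv := by
    rintro ⟨i, g, n⟩
    simp
  right_inv := by
    rintro ⟨i, g, n⟩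
    simp

omit [Group C] in
theorem sh_apply (i : ℤ) (g : C) (n : ℕ) : sh C (i, g, n) = (i + 1, g, n) := rfl

omit [Group C] in
theorem sh_inv_apply (i : ℤ) (g : C) (n : ℕ) : (sh C)⁻¹ (i, g, n) = (i - 1, g, n) := rfl

/-- The action on the level zero, as a commutator. -/
theorem comm_apply (c : C) (i : ℤ) (g : C) (n : ℕ) :
    (al C c * sh C * (al C c)⁻¹ * (sh C)⁻¹) (i, g, n) =
      if i = 0 then (i, c * g, n) else (i, g, n) := by
  rw [← map_inv]
  show al C c (sh C (al C c⁻¹ ((sh C)⁻¹ (i, g, n)))) = _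
  rw [sh_inv_apply]
  by_cases h0 : i = 0
  · rw [al_neg C c⁻¹ (i := i - 1) (by omega) g n, sh_apply C (i - 1) g n, if_pos h0,
      al_pos C c (i := i - 1 + 1) (by omega) g n, sub_add_cancel]
  · rw [if_neg h0]
    by_cases h1 : 0 ≤ i - 1
    · rw [al_pos C c⁻¹ h1 g n, sh_apply C (i - 1) _ n,
        al_pos C c (i := i - 1 + 1) (by omega) _ n, sub_add_cancel, mul_inv_cancel_left]
    · rw [al_neg C c⁻¹ h1 g n, sh_apply C (i - 1) _ n,
        al_neg C c (i := i - 1 + 1) (by omega) _ n, sub_add_cancel]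

/-- The action on level zero. -/
def ro (C : Type u) [Group C] : C →* Equiv.Perm (XX C) where
  toFun c := al C c * sh C * (al C c)⁻¹ * (sh C)⁻¹
  map_one' := by
    rw [map_one, one_mul, inv_one, mul_one, mul_inv_cancel]
  map_mul' c d := by
    apply Equiv.ext
    rintro ⟨i, g, n⟩
    have h1 : ((al C c * sh C * (al C c)⁻¹ * (sh C)⁻¹) *
        (al C d * sh C * (al C d)⁻¹ * (sh C)⁻¹)) (i, g, n) =
        (al C c * sh C * (al C c)⁻¹ * (sh C)⁻¹)
          ((al C d * sh C * (al C d)⁻¹ * (sh C)⁻¹) (i, g, n)) := rfl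
    rw [h1, comm_apply C (c * d) i g n, comm_apply C d i g n]
    by_cases h : i = 0
    · rw [if_pos h, if_pos h, comm_apply C c i (d * g) n, if_pos h, mul_assoc]
    · rw [if_neg h, if_neg h, comm_apply C c i g n, if_neg h]

theorem ro_apply (c : C) (i : ℤ) (g : C) (n : ℕ) :
    ro C c (i, g, n) = if i = 0 then (i, c * g, n) else (i, g, n) := comm_apply C c i g n

/-- The operator `s_c`. -/
def os (enc : XX C → ℕ) (c : C) : Module.End k (XX C → k) :=
  LinearMap.funLeft k k fun x => (0, c, enc x)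

omit [Group C] in
theorem os_apply (enc : XX C → ℕ) (c : C) (f : XX C → k) (x : XX C) :
    os k C enc c f x = f (0, c, enc x) := rfl

open Classical in
/-- The operator `t`. -/
noncomputable def ot (dec : ℕ → XX C) : Module.End k (XX C → k) where
  toFun f x := if x.2.1 = 1 then f (dec x.2.2) else 0
  map_add' f g := by
    funext x
    by_cases h : x.2.1 = 1
    · simp [h]
    · simp [h]
  map_smul' r f := by
    funext x
    by_cases h : x.2.1 = 1
    · simp [h]
    · simp [h]

theorem ot_apply_one (dec : ℕ → XX C) (f : XX C → k) (i : ℤ) (n : ℕ) :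
    ot k C dec f (i, 1, n) = f (dec n) := if_pos rfl

theorem ot_apply_ne (dec : ℕ → XX C) (f : XX C → k) (i : ℤ) (c : C) (hc : c ≠ 1) (n : ℕ) :
    ot k C dec f (i, c, n) = 0 := if_neg hc

theorem st_eq {enc : XX C → ℕ} {dec : ℕ → XX C} (h : ∀ x, dec (enc x) = x) {c : C}
    (hc : c ≠ 1) : os k C enc c * ((pp k (XX C) (ro C c) - 1) * ot k C dec) = 1 := by
  apply LinearMap.ext
  intro f
  funext x
  show (pp k (XX C) (ro C c) - 1) (ot k C dec f) (0, c, enc x) = f x
  rw [LinearMap.sub_apply, Pi.sub_apply, pp_apply, ← map_inv, ro_apply, if_pos rfl,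
    Module.End.one_apply, ot_apply_ne k C dec f 0 c hc, sub_zero, inv_mul_cancel,
    ot_apply_one, h]

end main

end Pool.Agent.Helper92.FG
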