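import Pool.Agent.Helper92.FG.Gen

/-!
# Commuting families in noncommutative rings
-/

namespace Pool.Agent.Helper92.FG

open Pool.Agent.Helper66.EL

section lp

variable {K : Type*} [Fintype K] {S : Type*} [Ring S]

/-- The product of a family in a fixed order. -/
noncomputable def lp (x : K → S) : S := ((Finset.univ : Finset K).toList.map x).prod

theorem lp_eq_prod {A : Type*} [CommRing A] (x : K → A) : lp x = ∏ k, x k :=
  Finset.prod_map_toList _ _

theorem map_lp {S' : Type*} [Ring S'] (f : S →+* S') (x : K → S) :
    f (lp x) = lp fun k => f (x k) := by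
  rw [lp, map_list_prod, List.map_map]; rfl

theorem lp_const (x : S) : lp (fun _ : K => x) = x ^ Fintype.card K := by
  rw [lp, List.map_const', List.prod_replicate, Finset.length_toList, Finset.card_univ]

/-- Conjugation of a product. -/
theorem conj_lp {g g' : S} (h : g * g' = 1) (h' : g' * g = 1) (x y : K → S)
    (hxy : ∀ k, g * x k * g' = y k) : g * lp x * g' = lp y := by
  have h1 : y = fun k => g * x k * g' := funext fun k => (hxy k).symm
  rw [h1, lp, lp]
  generalize (Finset.univ : Finset K).toList = l
  induction l with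
  | nil => simp [h]
  | cons k l ih =>
    rw [List.map_cons, List.map_cons, List.prod_cons, List.prod_cons, ← ih]
    calc g * (x k * (List.map x l).prod) * g' =
        g * x k * 1 * (List.map x l).prod * g' := by simp only [mul_assoc, one_mul]
      _ = g * x k * (g' * g) * (List.map x l).prod * g' := by rw [h']
      _ = _ := by simp only [mul_assoc]

theorem isNilpotent_conj {g g' x : S} (h : g * g' = 1) (h' : g' * g = 1) (hx : IsNilpotent x) :
    IsNilpotent (g * x * g') := by
  obtain ⟨n, hn⟩ := hx
  refine ⟨n, ?_⟩
  have h1 : ∀ m : ℕ, (g * x * g') ^ m = g * x ^ m * g' := by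
    intro m
    induction m with
    | zero => simp [h]
    | succ m ih =>
      rw [pow_succ, ih, pow_succ]
      calc g * x ^ m * g' * (g * x * g') = g * x ^ m * (g' * g) * x * g' := by
            simp only [mul_assoc]
        _ = _ := by rw [h', mul_one]; simp only [mul_assoc]
  rw [h1, hn, mul_zero, zero_mul]

end lp

/-- The elimination lemma for commuting families in rings. -/
theorem nil_of_family' {R : Type*} [Ring R] [IsSimpleRing R] [Infinite R] {S : Type*} [Ring S]
    {K : Type*} [Fintype K] (e : K → R) (he : ∀ k, e k ≠ 0) (α β : K → R → S)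
    (hc : ∀ k r k' r', α k r * α k' r' = α k' r' * α k r ∧ α k r * β k' r' = β k' r' * α k r ∧
      β k r * β k' r' = β k' r' * β k r)
    (hβ : ∀ k x y, β k (x + y) = β k x * β k y) (hβ0 : ∀ k, β k 0 = 1)
    (h : ∀ (s : R) (r : K → R), IsNilpotent (lp fun k => α k (r k) * β k (r k * e k * s) - 1))
    (t : K → R) : IsNilpotent (lp fun k => β k (t k) - 1) := by
  classical
  let X : Set S := {z | (∃ k r, z = α k r) ∨ ∃ k r, z = β k r}
  have hX : ∀ x ∈ X, ∀ y ∈ X, x * y = y * x := by
    rintro x (⟨k, r, rfl⟩ | ⟨k, r, rfl⟩) y (⟨k', r', rfl⟩ | ⟨k', r', rfl⟩)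
    · exact (hc k r k' r').1
    · exact (hc k r k' r').2.1
    · exact ((hc k' r' k r).2.1).symm
    · exact (hc k r k' r').2.2
  let A := Subring.closure X
  letI : CommRing A := Subring.closureCommRingOfComm hX
  let α' : K → R → A := fun k r => ⟨α k r, Subring.subset_closure (Or.inl ⟨k, r, rfl⟩)⟩
  let β' : K → R → A := fun k r => ⟨β k r, Subring.subset_closure (Or.inr ⟨k, r, rfl⟩)⟩
  let f : A →+* S := A.subtype
  have hf : Function.Injective f := Subtype.val_injective
  have h1 := nil_of_family e he α' β' (fun k x y => Subtype.ext (hβ k x y))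
    (fun k => Subtype.ext (hβ0 k)) (fun s r => by
      rw [← IsNilpotent.map_iff hf, ← lp_eq_prod, map_lp]
      exact h s r) t
  rw [← IsNilpotent.map_iff hf, ← lp_eq_prod, map_lp] at h1
  exact h1

end Pool.Agent.Helper92.FG
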