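import Pool.Agent.Helper92.FG.Ops

/-!
# From nilpotent differences to triviality
-/

namespace Pool.Agent.Helper92.FG

open Pool.Agent.Helper66.EL

variable {R : Type*} [Ring R] {Λ : Type*}

theorem E_add (a b : Λ) (r s : R) : E a b (r + s) = E a b r * E a b s := by
  rw [E, E, E, Finsupp.single_add, x_add]

theorem E_zero (a b : Λ) : E a b (0 : R) = 1 := by
  rw [E, Finsupp.single_zero, x_zero]

theorem E_neg (a b : Λ) (r : R) : E a b (-r) = (E a b r)⁻¹ := by
  rw [E, E, Finsupp.single_neg, x_neg]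

theorem E_nsmul (a b : Λ) (n : ℕ) (r : R) : E a b ((n : R) * r) = E a b r ^ n := by
  induction n with
  | zero => rw [Nat.cast_zero, zero_mul, E_zero, pow_zero]
  | succ n ih => rw [Nat.cast_succ, add_mul, one_mul, E_add, ih, pow_succ]

/-- A normal subgroup containing `e_{ab}(1)` is the whole group, if `Λ` has at least three
elements. -/
theorem normal_top (third : ∀ a b : Λ, ∃ c, c ≠ a ∧ c ≠ b) (N : Subgroup (elemGroup R Λ))
    [hN : N.Normal] {a b : Λ} (hab : a ≠ b) (h : E a b (1 : R) ∈ N) : N = ⊤ := by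
  classical
  have cl : ∀ {g n : elemGroup R Λ}, n ∈ N → g * n * g⁻¹ * n⁻¹ ∈ N := fun hn =>
    N.mul_mem (hN.conj_mem _ hn _) (N.inv_mem hn)
  have cr : ∀ {g n : elemGroup R Λ}, n ∈ N → n * g * n⁻¹ * g⁻¹ ∈ N := by
    intro g n hn
    have : n * g * n⁻¹ * g⁻¹ = n * (g * n⁻¹ * g⁻¹) := by group
    rw [this]
    exact N.mul_mem hn (hN.conj_mem _ (N.inv_mem hn) _)
  have row : ∀ {a b c : Λ}, a ≠ b → c ≠ a → c ≠ b → E a b (1 : R) ∈ N →
      ∀ s : R, E a c s ∈ N := by
    intro a b c hab hca hcb h s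
    have := E_comm (R := R) hab hcb.symm hca.symm 1 s
    rw [mul_one] at this
    rw [← this]
    exact cr h
  have col : ∀ {a b c : Λ}, a ≠ b → c ≠ a → c ≠ b → E a b (1 : R) ∈ N →
      ∀ s : R, E c b s ∈ N := by
    intro a b c hab hca hcb h s
    have := E_comm (R := R) hca hab hcb s 1
    rw [one_mul] at this
    rw [← this]
    exact cl h
  have row' : ∀ {a b c : Λ}, a ≠ b → c ≠ a → E a b (1 : R) ∈ N → ∀ s : R, E a c s ∈ N := by
    intro a b c hab hca h s
    by_cases hcb : c = b
    · subst hcb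
      obtain ⟨d, hda, hdc⟩ := third a c
      exact row (Ne.symm hda) hca hdc.symm (row hab hda hdc h 1) s
    · exact row hab hca hcb h s
  have col' : ∀ {a b c : Λ}, a ≠ b → c ≠ b → E a b (1 : R) ∈ N → ∀ s : R, E c b s ∈ N := by
    intro a b c hab hcb h s
    by_cases hca : c = a
    · subst hca
      exact row' hab hab.symm h s
    · exact col hab hca hcb h s
  have all : ∀ {c d : Λ}, c ≠ d → ∀ s : R, E c d s ∈ N := by
    intro c d hcd s
    by_cases hda : d = a
    · subst hda
      obtain ⟨e, hed, hec⟩ := third d c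
      by_cases hcb : c = b
      · subst hcb
        have h1 : E e c (1 : R) ∈ N := col' hcd.symm hec h 1
        have h2 : E e d (1 : R) ∈ N := row' hec hed.symm h1 1
        exact col' hed hcd h2 s
      · have h1 : E c b (1 : R) ∈ N := col' hab hcb h 1
        exact row' hcb hcd.symm h1 s
    · have h1 : E a d (1 : R) ∈ N := row' hab hda h 1
      exact col' (Ne.symm hda) hcd h1 s
  rw [eq_top_iff]
  rintro ⟨g, hg⟩ -
  induction hg using Subgroup.closure_induction with
  | mem g hg =>
    obtain ⟨c, d, s, hcd, hgs⟩ := hg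
    have h1 := all hcd s
    have h2 : (⟨g, Subgroup.subset_closure ⟨c, d, s, hcd, hgs⟩⟩ : elemGroup R Λ) = E c d s :=
      Subtype.ext (E_eq hcd hgs).symm
    rw [h2]; exact h1
  | one => exact N.one_mem
  | mul g k hg hk ihg ihk => exact N.mul_mem ihg ihk
  | inv g hg ih => exact N.inv_mem ih

/-- An element `g` with `g ^ p = 1`, `p` invertible and `g - 1` nilpotent is `1`. -/
theorem eq_one_of_pow {P : Type*} [Field P] {S : Type*} [Ring S] [Algebra P S] {p : ℕ}
    (hp : (p : P) ≠ 0) {g : S} (hg : g ^ p = 1) (hn : IsNilpotent (g - 1)) : g = 1 := by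
  have hX : ∀ x ∈ ({g} : Set S), ∀ y ∈ ({g} : Set S), x * y = y * x := by
    rintro x rfl y rfl
    rfl
  let A := Algebra.adjoin P ({g} : Set S)
  letI : CommRing A := Algebra.adjoinCommRingOfComm P hX
  let f : A →+* S := A.val.toRingHom
  have hf : Function.Injective f := Subtype.val_injective
  let γ : A := ⟨g, Algebra.subset_adjoin rfl⟩
  have hγ : f γ = g := rfl
  have h1 : γ ^ p = 1 := hf (by rw [map_pow, map_one, hγ, hg])
  have h2 : ((p : ℕ) : A) * algebraMap P A (p : P)⁻¹ = 1 := by
    rw [← map_natCast (algebraMap P A) p, ← map_mul, mul_inv_cancel₀ hp, map_one]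
  obtain ⟨y, hy⟩ := exists_regular h1 h2
  obtain ⟨n, hn⟩ := hn
  have h3 : (γ - 1) ^ n = 0 := hf (by rw [map_pow, map_sub, map_one, hγ, hn, map_zero])
  have h4 : γ - 1 ∈ (⊥ : Ideal A) := mem_of_regular hy (n := n) (by rw [h3]; exact Ideal.zero_mem _)
  rw [Ideal.mem_bot, sub_eq_zero] at h4
  rw [← hγ, h4, map_one]

theorem third_of {a b c : Λ} (hba : b ≠ a) (hca : c ≠ a) (hcb : c ≠ b) :
    ∀ d e : Λ, ∃ f, f ≠ d ∧ f ≠ e := by
  classical
  intro d e
  by_contra hcon
  push Not at hcon
  by_cases h1 : a = d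
  · subst h1
    have e1 := hcon b hba
    have e2 := hcon c hca
    exact hcb (e2.trans e1.symm)
  · have e0 := hcon a h1
    subst e0
    by_cases h2 : b = d
    · subst h2
      exact hca (hcon c hcb)
    · exact hba (hcon b h2)

theorem finish {P : Type*} [Field P] [IsSimpleRing R] (hchar : ringChar R ≠ ringChar P)
    {S : Type*} [Ring S] [Algebra P S] (ρ : elemGroup R Λ →* S) {a b c : Λ} (hba : b ≠ a)
    (hca : c ≠ a) (hcb : c ≠ b) {w : R} (hw : w ≠ 0)
    (h : ∀ y : R, IsNilpotent (ρ (E c b (y * w)) - 1)) (g : elemGroup R Λ) : ρ g = 1 := by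
  classical
  have hab : a ≠ b := Ne.symm hba
  have hac : a ≠ c := Ne.symm hca
  have hbc : b ≠ c := Ne.symm hcb
  -- the elements are trivial
  have h1 : ∀ y : R, ρ (E c b (y * w)) = 1 := by
    intro y
    by_cases hR : ringChar R = 0
    · set q := ringChar P with hq
      have hq0 : q ≠ 0 := fun h => hchar (hR.trans h.symm)
      have hqp : q.Prime := (CharP.char_is_prime_or_zero P q).resolve_right hq0
      have hqR : (q : R) ≠ 0 := by
        intro h
        rw [ringChar.spec, hR, Nat.zero_dvd] at h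
        exact hq0 h
      obtain ⟨κ, hκ1, hκ2⟩ := exists_inv_natCast hqR
      have hκc : ∀ n : ℕ, Commute κ (q : R) := fun _ => (Nat.cast_commute q κ).symm
      have hκn : ∀ n : ℕ, κ ^ n * (q : R) ^ n = 1 := by
        intro n
        rw [← (hκc 0).mul_pow, hκ2, one_pow]
      obtain ⟨N, hN⟩ := h y
      obtain ⟨n, hn⟩ : ∃ n : ℕ, N ≤ q ^ n := ⟨N, (Nat.lt_pow_self hqp.one_lt).le⟩
      obtain ⟨k, hk, hka⟩ := exists_scale hcb hca hab (hκn n)
      have h2 : k * E c b (y * w) * k⁻¹ = E c b (y * w * κ ^ n) := by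
        rw [E, conj_x hk, E]
        congr 1
        have e1 : Finsupp.single c (y * w) = (y * w) • Finsupp.single c (1 : R) := by
          rw [Finsupp.smul_single, smul_eq_mul, mul_one]
        rw [e1, map_smul, hka, Finsupp.smul_single, smul_eq_mul]
      have h3 : (ρ (E c b (y * w * κ ^ n)) - 1) ^ N = 0 := by
        rw [← h2]
        have e1 : ρ k * ρ k⁻¹ = 1 := by rw [← map_mul, mul_inv_cancel, map_one]
        have e2 : ρ k⁻¹ * ρ k = 1 := by rw [← map_mul, inv_mul_cancel, map_one]
        have e3 : ρ (k * E c b (y * w) * k⁻¹) - 1 = ρ k * (ρ (E c b (y * w)) - 1) * ρ k⁻¹ := by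
          rw [map_mul, map_mul, mul_sub, sub_mul, mul_one, e1]
        have e4 : ∀ m : ℕ, (ρ k * (ρ (E c b (y * w)) - 1) * ρ k⁻¹) ^ m =
            ρ k * (ρ (E c b (y * w)) - 1) ^ m * ρ k⁻¹ := by
          intro m
          induction m with
          | zero => simp [e1]
          | succ m ih =>
            rw [pow_succ, ih, pow_succ]
            calc ρ k * (ρ (E c b (y * w)) - 1) ^ m * ρ k⁻¹ *
                  (ρ k * (ρ (E c b (y * w)) - 1) * ρ k⁻¹) =
                ρ k * (ρ (E c b (y * w)) - 1) ^ m * (ρ k⁻¹ * ρ k) *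
                  (ρ (E c b (y * w)) - 1) * ρ k⁻¹ := by simp only [mul_assoc]
              _ = _ := by rw [e2, mul_one]; simp only [mul_assoc]
        rw [e3, e4, hN, mul_zero, zero_mul]
      have h4 : E c b (y * w) = E c b (y * w * κ ^ n) ^ q ^ n := by
        rw [← E_nsmul]
        congr 1
        have e1 : ((q ^ n : ℕ) : R) * (y * w * κ ^ n) = y * w * (κ ^ n * (q : R) ^ n) := by
          rw [Nat.cast_pow]
          have e2 : Commute ((q : R) ^ n) (y * w * κ ^ n) :=
            (Nat.cast_commute q (y * w * κ ^ n)).pow_left n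
          rw [e2.eq, mul_assoc]
        rw [e1, hκn, mul_one]
      by_cases hS : Nontrivial S
      · have : CharP S q :=
          charP_of_injective_algebraMap (algebraMap P S).injective q
        have : Fact q.Prime := ⟨hqp⟩
        have h5 : (ρ (E c b (y * w * κ ^ n)) - 1) ^ q ^ n = 0 := by
          rw [← Nat.sub_add_cancel hn, pow_add, h3, mul_zero]
        have h6 : (ρ (E c b (y * w * κ ^ n)) - 1) ^ q ^ n =
            ρ (E c b (y * w * κ ^ n)) ^ q ^ n - 1 ^ q ^ n :=
          sub_pow_char_pow_of_commute _ _ (Commute.one_right _)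
        rw [h6, one_pow, sub_eq_zero] at h5
        rw [h4, map_pow, h5]
      · rw [not_nontrivial_iff_subsingleton] at hS
        exact Subsingleton.elim _ _
    · have hp := ringChar_prime hR
      set p := ringChar R with hpdef
      have hpP : (p : P) ≠ 0 := by
        intro h
        rw [ringChar.spec] at h
        rcases (Nat.dvd_prime hp).1 h with h1 | h1
        · have h2 : ((ringChar P : ℕ) : P) = 0 := ringChar.Nat.cast_ringChar
          rw [h1, Nat.cast_one] at h2
          exact one_ne_zero h2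
        · exact hchar h1.symm
      refine eq_one_of_pow hpP ?_ (h y)
      rw [← map_pow, ← E_nsmul]
      have h2 : ((p : ℕ) : R) = 0 := ringChar.Nat.cast_ringChar
      rw [h2, zero_mul, E_zero, map_one]
  -- commutators
  have hcomm : ∀ {g k : elemGroup R Λ}, ρ g = 1 → ρ (g * k * g⁻¹ * k⁻¹) = 1 := by
    intro g k hg
    have hg' : ρ g⁻¹ = 1 := by
      have : ρ g * ρ g⁻¹ = 1 := by rw [← map_mul, mul_inv_cancel, map_one]
      rwa [hg, one_mul] at this
    rw [map_mul, map_mul, map_mul, hg, hg', one_mul, mul_one, ← map_mul, mul_inv_cancel, map_one]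
  have hcomm' : ∀ {g k : elemGroup R Λ}, ρ k = 1 → ρ (g * k * g⁻¹ * k⁻¹) = 1 := by
    intro g k hk
    have hk' : ρ k⁻¹ = 1 := by
      have : ρ k * ρ k⁻¹ = 1 := by rw [← map_mul, mul_inv_cancel, map_one]
      rwa [hk, one_mul] at this
    rw [map_mul, map_mul, map_mul, hk, hk', mul_one, mul_one, ← map_mul, mul_inv_cancel, map_one]
  -- `ρ (E c a (s y w)) = 1`
  have h2 : ∀ s y : R, ρ (E c a (s * (y * w))) = 1 := by
    intro s y
    rw [← E_comm hcb hba hca (y * w) s]
    exact hcomm (h1 y)
  have h3 : ∀ s y r : R, ρ (E b a (s * (y * w) * r)) = 1 := by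
    intro s y r
    rw [← E_comm hbc hca hba r (s * (y * w))]
    exact hcomm' (h2 s y)
  let I : TwoSidedIdeal R := TwoSidedIdeal.mk' {z | ∀ s r, ρ (E b a (s * z * r)) = 1}
    (by intro s r; rw [mul_zero, zero_mul, E_zero, map_one])
    (by
      intro x y hx hy s r
      rw [mul_add, add_mul, E_add, map_mul, hx, hy, one_mul])
    (by
      intro x hx s r
      rw [mul_neg, neg_mul, E_neg]
      have e1 := hx s r
      have : ρ (E b a (s * x * r)) * ρ (E b a (s * x * r))⁻¹ = 1 := by
        rw [← map_mul, mul_inv_cancel, map_one]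
      rwa [e1, one_mul] at this)
    (by
      intro x y hy s r
      rw [← mul_assoc s x y]
      exact hy _ _)
    (by
      intro x y hx s r
      rw [← mul_assoc s x y, mul_assoc (s * x) y r]
      exact hx _ _)
  have hwI : w ∈ I := by
    rw [TwoSidedIdeal.mem_mk']
    intro s r
    have := h3 s 1 r
    rwa [one_mul] at this
  have h1I := IsSimpleRing.one_mem_of_ne_zero_mem I hw hwI
  rw [TwoSidedIdeal.mem_mk'] at h1I
  have h4 := h1I 1 1
  rw [one_mul, mul_one] at h4
  let N : Subgroup (elemGroup R Λ) :=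
    { carrier := {g | ρ g = 1}
      one_mem' := map_one ρ
      mul_mem' := by
        intro g k hg hk
        show ρ (g * k) = 1
        rw [map_mul, show ρ g = 1 from hg, show ρ k = 1 from hk, one_mul]
      inv_mem' := by
        intro g hg
        have hg' : ρ g = 1 := hg
        show ρ g⁻¹ = 1
        have : ρ g * ρ g⁻¹ = 1 := by rw [← map_mul, mul_inv_cancel, map_one]
        rwa [hg', one_mul] at this }
  have hN : N.Normal := by
    refine ⟨fun n hn k => ?_⟩
    have hn' : ρ n = 1 := hn
    show ρ (k * n * k⁻¹) = 1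
    rw [map_mul, map_mul, hn', mul_one, ← map_mul, mul_inv_cancel, map_one]
  have htop : N = ⊤ := normal_top (third_of hba hca hcb) N hba h4
  have : g ∈ N := by rw [htop]; exact Subgroup.mem_top g
  exact this

end Pool.Agent.Helper92.FG
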