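import Pool.Agent.Helper92.FG.Thm

/-!
# Elementary groups of finite rank over finitely generated rings are finitely generated
-/

namespace Pool.Agent.Helper92.FG

open Pool.Agent.Helper66.EL

variable {R : Type*} [Ring R] {Λ : Type*}

theorem fg_elemGroup [Finite Λ] (third : ∀ a b : Λ, ∃ c, c ≠ a ∧ c ≠ b) (T : Finset R)
    (hT : Subring.closure (T : Set R) = ⊤) : Group.FG (elemGroup R Λ) := by
  classical
  have := Fintype.ofFinite Λ
  let G : Finset (elemGroup R Λ) :=
    ((Finset.univ : Finset Λ) ×ˢ (Finset.univ : Finset Λ) ×ˢ (insert 1 T)).image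
      fun p => E p.1 p.2.1 p.2.2
  have hG : ∀ (a b : Λ) (r : R), r ∈ insert 1 T → E a b r ∈ Subgroup.closure (G : Set _) := by
    intro a b r hr
    refine Subgroup.subset_closure (Finset.mem_coe.2 (Finset.mem_image.2 ⟨(a, b, r), ?_, rfl⟩))
    simp only [Finset.mem_product, Finset.mem_univ, true_and]
    exact hr
  have hall : ∀ (r : R) (a b : Λ), a ≠ b → E a b r ∈ Subgroup.closure (G : Set _) := by
    intro r
    have hr : r ∈ Subring.closure (T : Set R) := by rw [hT]; exact Subring.mem_top r
    induction hr using Subring.closure_induction with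
    | mem x hx => exact fun a b _ => hG a b x (Finset.mem_insert_of_mem hx)
    | zero => intro a b _; rw [E_zero]; exact Subgroup.one_mem _
    | one => exact fun a b _ => hG a b 1 (Finset.mem_insert_self _ _)
    | add x y _ _ h h' =>
      intro a b hab
      rw [E_add]
      exact Subgroup.mul_mem _ (h a b hab) (h' a b hab)
    | neg x _ h =>
      intro a b hab
      rw [E_neg]
      exact Subgroup.inv_mem _ (h a b hab)
    | mul x y _ _ h h' =>
      intro a b hab
      obtain ⟨c, hca, hcb⟩ := third a b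
      rw [← E_comm hca.symm hcb hab y x]
      exact Subgroup.mul_mem _ (Subgroup.mul_mem _ (Subgroup.mul_mem _ (h' a c hca.symm)
        (h c b hcb)) (Subgroup.inv_mem _ (h' a c hca.symm))) (Subgroup.inv_mem _ (h c b hcb))
  refine Group.fg_iff.2 ⟨(G : Set _), ?_, G.finite_toSet⟩
  rw [eq_top_iff]
  rintro ⟨g, hg⟩ -
  induction hg using Subgroup.closure_induction with
  | mem g hg =>
    obtain ⟨c, d, s, hcd, hgs⟩ := hg
    have h2 : (⟨g, Subgroup.subset_closure ⟨c, d, s, hcd, hgs⟩⟩ : elemGroup R Λ) = E c d s :=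
      Subtype.ext (E_eq hcd hgs).symm
    rw [h2]
    exact hall s c d hcd
  | one => exact Subgroup.one_mem _
  | mul g k hg hk ihg ihk => exact Subgroup.mul_mem _ ihg ihk
  | inv g hg ih => exact Subgroup.inv_mem _ ih

theorem fg_PE [Finite Λ] (third : ∀ a b : Λ, ∃ c, c ≠ a ∧ c ≠ b) (T : Finset R)
    (hT : Subring.closure (T : Set R) = ⊤) : Group.FG (PE R Λ) := by
  have := fg_elemGroup (Λ := Λ) third T hT
  exact Group.fg_of_surjective (QuotientGroup.mk'_surjective (Subgroup.center (elemGroup R Λ)))

end Pool.Agent.Helper92.FG
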