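import Pool.Agent.Helper92.FG.Embed

/-!
# The embedding theorem
-/

namespace Pool.Agent.Helper92.FG

open Pool.Agent.Helper66.EL Pool.Agent.Helper66.AI

universe u v

theorem exists_ring_group (k : Type) [Field k] [Countable k] (C : Type u) [Group C]
    [Countable C] :
    ∃ (R : Type u) (_ : Ring R), IsSimpleRing R ∧ NoInsulator R ∧
      (∃ T : Finset R, Subring.closure (T : Set R) = ⊤) ∧ ringChar R = ringChar k ∧
      ∃ ψ : C →* Rˣ, Function.Injective ψ ∧ ∀ x, ∃ s t : Rˣ, ψ x = t⁻¹ * s⁻¹ * t * s := by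
  classical
  obtain ⟨enc, henc⟩ := exists_injective_nat (XX C)
  let dec : ℕ → XX C := Function.invFun enc
  have hdec : ∀ x, dec (enc x) = x := Function.leftInverse_invFun henc
  set S : Set (Module.End k (XX C → k)) :=
    Set.range (algebraMap k (Module.End k (XX C → k))) ∪
      (Set.range (fun c => pp k (XX C) (al C c)) ∪ ({pp k (XX C) (sh C), pp k (XX C) (sh C)⁻¹,
        ot k C dec} ∪ Set.range (os k C enc))) with hS
  have hSc : S.Countable := (Set.countable_range _).union ((Set.countable_range _).union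
    ((Set.toFinite _).countable.union (Set.countable_range _)))
  have hSne : S.Nonempty := ⟨algebraMap k _ 0, Or.inl ⟨0, rfl⟩⟩
  obtain ⟨b₀, hb₀⟩ := hSc.exists_eq_range hSne
  let B := Subring.closure S
  have hbB : ∀ n, b₀ n ∈ B := fun n =>
    Subring.subset_closure (by rw [hb₀]; exact Set.mem_range_self n)
  let b : ℕ → B := fun n => ⟨b₀ n, hbB n⟩
  have hb : Subring.closure (Set.range b) = ⊤ := by
    rw [eq_top_iff]
    intro r hr
    clear hr
    obtain ⟨e, he⟩ := r
    induction he using Subring.closure_induction with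
    | mem x hx =>
      apply Subring.subset_closure
      rw [hb₀] at hx
      obtain ⟨n, rfl⟩ := hx
      exact ⟨n, rfl⟩
    | zero => exact Subring.zero_mem _
    | one => exact Subring.one_mem _
    | add x y hx hy h h' => exact Subring.add_mem _ h h'
    | neg x hx h => exact Subring.neg_mem _ h
    | mul x y hx hy h h' => exact Subring.mul_mem _ h h'
  have hnt : Nontrivial B := by
    refine ⟨1, 0, fun h => ?_⟩
    have h1 : (1 : Module.End k (XX C → k)) = 0 := congrArg Subtype.val h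
    have h2 := congrArg (fun T : Module.End k (XX C → k) => T (fun _ => 1) (0, 1, 0)) h1
    exact one_ne_zero h2
  obtain ⟨R, hR, hsimple, hNI, hfg, ⟨θ⟩⟩ := exists_ring b hb
  refine ⟨R, hR, hsimple, hNI, hfg, ?_, ?_⟩
  · let f : k →+* B := (algebraMap k (Module.End k (XX C → k))).codRestrict B fun x =>
      Subring.subset_closure (Or.inl ⟨x, rfl⟩)
    have := charP_of_injective_ringHom (θ.comp f).injective (ringChar k)
    exact ringChar.eq R (ringChar k)
  · -- the permutations
    let Γ : Subgroup (Equiv.Perm (XX C)) :=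
      { carrier := {σ | pp k (XX C) σ ∈ B ∧ pp k (XX C) σ⁻¹ ∈ B}
        one_mem' := by
          rw [Set.mem_ofPred_eq, inv_one, map_one]
          exact ⟨B.one_mem, B.one_mem⟩
        mul_mem' := by
          rintro σ τ ⟨h1, h2⟩ ⟨h3, h4⟩
          rw [Set.mem_ofPred_eq, mul_inv_rev, map_mul, map_mul]
          exact ⟨B.mul_mem h1 h3, B.mul_mem h4 h2⟩
        inv_mem' := by
          rintro σ ⟨h1, h2⟩
          rw [Set.mem_ofPred_eq, inv_inv]
          exact ⟨h2, h1⟩ }
    have hal : ∀ c, al C c ∈ Γ := by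
      intro c
      refine ⟨Subring.subset_closure ?_, Subring.subset_closure ?_⟩
      · exact Or.inr (Or.inl ⟨c, rfl⟩)
      · rw [← map_inv]
        exact Or.inr (Or.inl ⟨c⁻¹, rfl⟩)
    have hsh : sh C ∈ Γ := by
      refine ⟨Subring.subset_closure ?_, Subring.subset_closure ?_⟩
      · exact Or.inr (Or.inr (Or.inl (by simp)))
      · exact Or.inr (Or.inr (Or.inl (by simp)))
    have hro : ∀ c, ro C c ∈ Γ := fun c =>
      Γ.mul_mem (Γ.mul_mem (Γ.mul_mem (hal c) hsh) (Γ.inv_mem (hal c))) (Γ.inv_mem hsh)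
    let Φ : Γ →* B :=
      { toFun := fun σ => ⟨pp k (XX C) σ, σ.2.1⟩
        map_one' := Subtype.ext (map_one _)
        map_mul' := fun σ τ => Subtype.ext (map_mul _ _ _) }
    let Ψ : Γ →* Rˣ := ((θ : B →* R).comp Φ).toHomUnits
    let ψ : C →* Rˣ := Ψ.comp ((ro C).codRestrict Γ hro)
    have hΨ : ∀ σ, ((Ψ σ : Rˣ) : R) = θ (Φ σ) := fun σ => rfl
    have hψ : ∀ c, ψ c = Ψ ⟨ro C c, hro c⟩ := fun c => rfl
    refine ⟨ψ, ?_, fun c => ?_⟩
    · rw [injective_iff_map_eq_one]
      intro c hc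
      by_contra hc1
      have hs : os k C enc c ∈ B :=
        Subring.subset_closure (Or.inr (Or.inr (Or.inr ⟨c, rfl⟩)))
      have ht : ot k C dec ∈ B :=
        Subring.subset_closure (Or.inr (Or.inr (Or.inl (by simp))))
      have h1 : (⟨os k C enc c, hs⟩ : B) * ((Φ ⟨ro C c, hro c⟩ - 1) * ⟨ot k C dec, ht⟩) = 1 :=
        Subtype.ext (st_eq k C hdec hc1)
      have h2 : θ (Φ ⟨ro C c, hro c⟩) = 1 := by
        rw [← hΨ, ← hψ, hc, Units.val_one]
      have h3 := congrArg θ h1
      rw [map_mul, map_mul, map_sub, map_one, h2, sub_self, zero_mul, mul_zero] at h3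
      exact zero_ne_one h3
    · refine ⟨(Ψ ⟨sh C, hsh⟩)⁻¹, (Ψ ⟨al C c, hal c⟩)⁻¹, ?_⟩
      have h1 : (⟨ro C c, hro c⟩ : Γ) = ⟨al C c, hal c⟩ * ⟨sh C, hsh⟩ * ⟨al C c, hal c⟩⁻¹ *
        ⟨sh C, hsh⟩⁻¹ := rfl
      rw [hψ, h1, map_mul, map_mul, map_mul, map_inv, map_inv, inv_inv, inv_inv]

/-- Every countable group embeds in a finitely generated group whose group ring over a field `P`
has simple augmentation ideal exactly if the characteristic of `P` is not `p`. -/
theorem exists_fg_group (p : ℕ) (hp : p = 0 ∨ p.Prime) (C : Type u) [Group C] [Countable C] :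
    ∃ (H : Type u) (_ : Group H), Group.FG H ∧ (∃ f : C →* H, Function.Injective f) ∧
      ∀ (P : Type v) [Field P], AugSimple P H ↔ ringChar P ≠ p := by
  classical
  obtain ⟨k, hk, hkc, hkp⟩ : ∃ (k : Type) (_ : Field k), Countable k ∧ ringChar k = p := by
    rcases hp with rfl | hp
    · exact ⟨ℚ, inferInstance, inferInstance, ringChar.eq_zero⟩
    · have : Fact p.Prime := ⟨hp⟩
      exact ⟨ZMod p, inferInstance, inferInstance, ZMod.ringChar_zmod_n p⟩
  obtain ⟨R, _, hsimple, hNI, ⟨T, hT⟩, hchar, ψ, hψ, hcomm⟩ := exists_ring_group k C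
  have h01 : (0 : Fin 3) ≠ 1 := by decide
  have h02 : (0 : Fin 3) ≠ 2 := by decide
  have h12 : (1 : Fin 3) ≠ 2 := by decide
  refine ⟨PE R (Fin 3), inferInstance, ?_, exists_embed h01 h02 h12 ψ hψ hcomm, ?_⟩
  · exact fg_PE (third_of h01.symm h02.symm h12.symm) T hT
  · intro P _
    rw [augSimple_PE_iff P R (Fin 3) ⟨0, 1, 2, h01, h02, h12⟩ (Or.inr hNI), hchar, hkp]
    constructor
    · rintro ⟨_, _, h⟩
      exact Ne.symm h
    · intro h
      exact ⟨hsimple, hNI.infinite, Ne.symm h⟩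

end Pool.Agent.Helper92.FG
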