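import Pool.Agent.Helper92.FG.Thin

/-!
# General position for finitely many elements of the elementary group
-/

namespace Pool.Agent.Helper92.FG

open Pool.Agent.Helper66.EL

variable {R : Type*} [Ring R] {Λ : Type*}

/-- The linear map `g` is the multiplication by a central scalar. -/
def IsScal (g : (Λ →₀ R) →ₗ[R] (Λ →₀ R)) : Prop :=
  ∃ z : R, (∀ r : R, r * z = z * r) ∧ ∀ v, g v = z • v

theorem isScal_of_basis {g : (Λ →₀ R) →ₗ[R] (Λ →₀ R)} {z : R} (hz : ∀ r : R, r * z = z * r)
    (h0 : ∀ i j, i ≠ j → g (Finsupp.single i 1) j = 0)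
    (h1 : ∀ i, g (Finsupp.single i 1) i = z) : IsScal g := by
  classical
  refine ⟨z, hz, fun v => ?_⟩
  induction v using Finsupp.induction_linear with
  | zero => rw [map_zero, smul_zero]
  | add u v hu hv => rw [map_add, smul_add, hu, hv]
  | single i s =>
    have e1 : Finsupp.single i s = s • Finsupp.single i (1 : R) := by
      rw [Finsupp.smul_single, smul_eq_mul, mul_one]
    rw [e1, map_smul]
    ext j
    rw [Finsupp.smul_apply, Finsupp.smul_apply, Finsupp.smul_apply, smul_eq_mul, smul_eq_mul,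
      smul_eq_mul]
    by_cases hij : i = j
    · subst hij
      rw [h1, Finsupp.single_eq_same, mul_one, hz]
    · rw [h0 i j hij, Finsupp.single_eq_of_ne (Ne.symm hij), mul_zero, mul_zero]

/-- The vector `w` without its coordinates `a` and `c`. -/
noncomputable def p2 (a c : Λ) : (Λ →₀ R) →+ (Λ →₀ R) where
  toFun w := q a (q c w)
  map_zero' := by simp [q]
  map_add' u v := by rw [q_add, q_add]

theorem p2_single {a c i : Λ} (hia : i ≠ a) (hic : i ≠ c) (s : R) :
    p2 a c (Finsupp.single i s) = Finsupp.single i s := by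
  show q a (q c (Finsupp.single i s)) = Finsupp.single i s
  rw [q_eq (Finsupp.single_eq_of_ne (Ne.symm hic)), q_eq (Finsupp.single_eq_of_ne (Ne.symm hia))]

theorem p2_single_a {a c : Λ} (s : R) : p2 a c (Finsupp.single a s) = 0 := by
  show q a (q c (Finsupp.single a s)) = 0
  by_cases hac : a = c
  · subst hac
    rw [q_single]
    simp [q]
  · rw [q_eq (Finsupp.single_eq_of_ne (Ne.symm hac)), q_single]

theorem p2_single_c {a c : Λ} (s : R) : p2 a c (Finsupp.single c s) = 0 := by
  show q a (q c (Finsupp.single c s)) = 0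
  rw [q_single]
  simp [q]

theorem p2_apply_a {a c : Λ} (w : Λ →₀ R) : p2 a c w a = 0 := q_apply a _

theorem p2_apply_c {a c : Λ} (hca : c ≠ a) (w : Λ →₀ R) : p2 a c w c = 0 := by
  show q a (q c w) c = 0
  rw [q, Finsupp.sub_apply, q_apply, Finsupp.single_eq_of_ne hca, sub_zero]

/-- The vector `e_a + t e_c + w'`, where `w'` is `w` without the coordinates `a`, `c`. -/
noncomputable def zz (a c : Λ) (t : R) (w : Λ →₀ R) : Λ →₀ R :=
  Finsupp.single a 1 + (Finsupp.single c t + p2 a c w)

theorem zz_c {a c : Λ} (hca : c ≠ a) (t : R) (w : Λ →₀ R) : zz a c t w c = t := by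
  rw [zz, Finsupp.add_apply, Finsupp.add_apply, Finsupp.single_eq_of_ne hca,
    Finsupp.single_eq_same, p2_apply_c hca, add_zero, zero_add]

theorem zz_j {a c j : Λ} (hja : j ≠ a) (hjc : j ≠ c) (t : R) (w : Λ →₀ R) :
    zz a c t w j = p2 a c w j := by
  rw [zz, Finsupp.add_apply, Finsupp.add_apply, Finsupp.single_eq_of_ne hja,
    Finsupp.single_eq_of_ne hjc, zero_add, zero_add]

theorem g_zz (g : (Λ →₀ R) →ₗ[R] (Λ →₀ R)) (a c : Λ) (t : R) (w : Λ →₀ R) (j : Λ) :
    g (zz a c t w) j = g (Finsupp.single a 1) j + (t * g (Finsupp.single c 1) j +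
      g (p2 a c w) j) := by
  have e1 : Finsupp.single c t = t • Finsupp.single c (1 : R) := by
    rw [Finsupp.smul_single, smul_eq_mul, mul_one]
  rw [zz, e1, map_add, map_add, map_smul, Finsupp.add_apply, Finsupp.add_apply,
    Finsupp.smul_apply, smul_eq_mul]

theorem g_single (g : (Λ →₀ R) →ₗ[R] (Λ →₀ R)) (i : Λ) (s : R) (j : Λ) :
    g (Finsupp.single i s) j = s * g (Finsupp.single i 1) j := by
  have e1 : Finsupp.single i s = s • Finsupp.single i (1 : R) := by
    rw [Finsupp.smul_single, smul_eq_mul, mul_one]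
  rw [e1, map_smul, Finsupp.smul_apply, smul_eq_mul]

/-- The vectors `w` for which the line of `e_a + t e_c + w'` is preserved by `g`. -/
def Bad (g : (Λ →₀ R) →ₗ[R] (Λ →₀ R)) (a c : Λ) (t : R) : Set (Λ →₀ R) :=
  {w | ∀ j, j ≠ a → g (zz a c t w) j = g (zz a c t w) a * zz a c t w j}

variable [IsSimpleRing R] [Infinite R]

omit [IsSimpleRing R] [Infinite R] in
/-- The additive map `w ↦ g(w')_j - α w'_j`. -/
noncomputable def DD (g : (Λ →₀ R) →ₗ[R] (Λ →₀ R)) (a c j : Λ) (α : R) : (Λ →₀ R) →+ R where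
  toFun w := g (p2 a c w) j - α * p2 a c w j
  map_zero' := by simp
  map_add' u v := by
    rw [map_add, map_add, Finsupp.add_apply, Finsupp.add_apply, mul_add]; abel

theorem DD_not_fi {g : (Λ →₀ R) →ₗ[R] (Λ →₀ R)} {a c j i : Λ} {α : R} (hia : i ≠ a)
    (hic : i ≠ c) (hij : i ≠ j) (h : g (Finsupp.single i 1) j ≠ 0) :
    ¬ (DD g a c j α).ker.FiniteIndex := by
  intro hfi
  apply not_fi_mulRight h
  have h1 : ((DD g a c j α).ker.comap (Finsupp.singleAddHom i)).FiniteIndex :=
    finiteIndex_comap _ _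
  refine AddSubgroup.finiteIndex_of_le
    (H := (DD g a c j α).ker.comap (Finsupp.singleAddHom i)) ?_
  intro s hs
  have hs' : g (p2 a c (Finsupp.single i s)) j - α * p2 a c (Finsupp.single i s) j = 0 := hs
  rw [p2_single hia hic, Finsupp.single_eq_of_ne (Ne.symm hij), mul_zero, sub_zero,
    g_single] at hs'
  exact hs'

theorem DD_not_fi' {g : (Λ →₀ R) →ₗ[R] (Λ →₀ R)} {a c j : Λ} {α : R} (hja : j ≠ a)
    (hjc : j ≠ c) (h : ¬ (α = g (Finsupp.single j 1) j ∧
      ∀ r : R, r * g (Finsupp.single j 1) j = g (Finsupp.single j 1) j * r)) :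
    ¬ (DD g a c j α).ker.FiniteIndex := by
  intro hfi
  apply h
  have h1 : ((DD g a c j α).ker.comap (Finsupp.singleAddHom j)).FiniteIndex :=
    finiteIndex_comap _ _
  refine central_of_fi h1 fun s hs => ?_
  have hs' : g (p2 a c (Finsupp.single j s)) j - α * p2 a c (Finsupp.single j s) j = 0 := hs
  rw [p2_single hja hjc, Finsupp.single_eq_same, g_single] at hs'
  exact sub_eq_zero.1 hs'

theorem gen1 (g : (Λ →₀ R) →ₗ[R] (Λ →₀ R)) {a c d : Λ} (hca : c ≠ a) (hda : d ≠ a)
    (hdc : d ≠ c) (hg : ¬ IsScal g) :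
    ∃ Ex : Set R, Thin Ex ∧ ∀ t, t ∉ Ex → Thin (Bad g a c t) := by
  classical
  by_cases h1 : ∃ i, i ≠ a ∧ i ≠ c ∧ (g (Finsupp.single i 1) c ≠ 0 ∨ g (Finsupp.single i 1) a ≠ 0)
  · obtain ⟨i, hia, hic, hi⟩ := h1
    refine ⟨{t | g (Finsupp.single i 1) c = g (Finsupp.single i 1) a * t}, ?_, fun t ht => ?_⟩
    · by_cases h0 : g (Finsupp.single i 1) a = 0
      · left
        rw [Set.eq_empty_iff_forall_notMem]
        intro t ht
        have ht' : g (Finsupp.single i 1) c = g (Finsupp.single i 1) a * t := ht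
        rw [h0, zero_mul] at ht'
        rcases hi with hi | hi
        · exact hi ht'
        · exact hi h0
      · right
        refine ⟨_, not_fi_mulLeft h0, fun x hx y hy => ?_⟩
        show g (Finsupp.single i 1) a * (x - y) = 0
        have hx' : g (Finsupp.single i 1) c = g (Finsupp.single i 1) a * x := hx
        have hy' : g (Finsupp.single i 1) c = g (Finsupp.single i 1) a * y := hy
        rw [mul_sub, ← hx', ← hy', sub_self]
    · right
      have hd : g (Finsupp.single i 1) c - g (Finsupp.single i 1) a * t ≠ 0 :=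
        fun h => ht (sub_eq_zero.1 h)
      let D : (Λ →₀ R) →+ R :=
        { toFun := fun w => g (p2 a c w) c - g (p2 a c w) a * t
          map_zero' := by simp
          map_add' := fun u v => by
            rw [map_add, map_add, Finsupp.add_apply, Finsupp.add_apply, add_mul]; abel }
      refine ⟨D.ker, fun hfi => ?_, fun x hx y hy => ?_⟩
      · apply not_fi_mulRight hd
        have h1 : (D.ker.comap (Finsupp.singleAddHom i)).FiniteIndex := finiteIndex_comap _ _
        refine AddSubgroup.finiteIndex_of_le (H := D.ker.comap (Finsupp.singleAddHom i)) ?_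
        intro s hs
        have hs' : g (p2 a c (Finsupp.single i s)) c - g (p2 a c (Finsupp.single i s)) a * t = 0 :=
          hs
        rw [p2_single hia hic, g_single, g_single g i s a, mul_assoc, ← mul_sub] at hs'
        exact hs'
      · have hx' := hx c hca
        have hy' := hy c hca
        rw [zz_c hca, g_zz, g_zz] at hx' hy'
        have e1 : D x = D y := by
          show g (p2 a c x) c - g (p2 a c x) a * t = g (p2 a c y) c - g (p2 a c y) a * t
          rw [add_mul, add_mul] at hx' hy'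
          have e2 : g (p2 a c x) c - g (p2 a c x) a * t =
              (g (Finsupp.single a 1) a * t + t * g (Finsupp.single c 1) a * t) -
                (g (Finsupp.single a 1) c + t * g (Finsupp.single c 1) c) := by
            rw [sub_eq_sub_iff_add_eq_add]
            have := hx'
            rw [← add_assoc, ← add_assoc] at this
            rw [← this]
            abel
          have e3 : g (p2 a c y) c - g (p2 a c y) a * t =
              (g (Finsupp.single a 1) a * t + t * g (Finsupp.single c 1) a * t) -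
                (g (Finsupp.single a 1) c + t * g (Finsupp.single c 1) c) := by
            rw [sub_eq_sub_iff_add_eq_add]
            have := hy'
            rw [← add_assoc, ← add_assoc] at this
            rw [← this]
            abel
          rw [e2, e3]
        rw [AddMonoidHom.mem_ker, map_sub, e1, sub_self]
  push Not at h1
  -- the image of `p2` has no coordinates in `a` and `c`
  have hpa : ∀ w : Λ →₀ R, g (p2 a c w) a = 0 ∧ g (p2 a c w) c = 0 := by
    intro w
    induction w using Finsupp.induction_linear with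
    | zero => simp
    | add u v hu hv =>
      rw [map_add, map_add, Finsupp.add_apply, Finsupp.add_apply, hu.1, hu.2, hv.1, hv.2,
        add_zero]
      exact ⟨rfl, rfl⟩
    | single i s =>
      by_cases hia : i = a
      · subst hia
        rw [p2_single_a]; simp
      by_cases hic : i = c
      · subst hic
        rw [p2_single_c]; simp
      rw [p2_single hia hic, g_single, g_single g i s c, (h1 i hia hic).1, (h1 i hia hic).2,
        mul_zero]
      exact ⟨rfl, rfl⟩
  -- the equation for the coordinate `j`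
  have hj : ∀ t w j, w ∈ Bad g a c t → j ≠ a → j ≠ c → DD g a c j
      (g (Finsupp.single a 1) a + t * g (Finsupp.single c 1) a) w =
        -(g (Finsupp.single a 1) j + t * g (Finsupp.single c 1) j) := by
    intro t w j hw hja hjc
    have h2 := hw j hja
    rw [zz_j hja hjc, g_zz, g_zz g a c t w a, (hpa w).1, add_zero] at h2
    show g (p2 a c w) j - _ * p2 a c w j = _
    rw [← h2]
    abel
  have key : ∀ t j, j ≠ a → j ≠ c → ¬ (DD g a c j
      (g (Finsupp.single a 1) a + t * g (Finsupp.single c 1) a)).ker.FiniteIndex →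
      Thin (Bad g a c t) := by
    intro t j hja hjc hfi
    right
    refine ⟨_, hfi, fun x hx y hy => ?_⟩
    rw [AddMonoidHom.mem_ker, map_sub, hj t x j hx hja hjc, hj t y j hy hja hjc, sub_self]
  have thin0 : Thin (∅ : Set R) := Or.inl rfl
  by_cases h2 : ∃ i j, i ≠ a ∧ i ≠ c ∧ j ≠ a ∧ j ≠ c ∧ i ≠ j ∧ g (Finsupp.single i 1) j ≠ 0
  · obtain ⟨i, j, hia, hic, hja, hjc, hij, h⟩ := h2
    exact ⟨∅, thin0, fun t _ => key t j hja hjc (DD_not_fi hia hic hij h)⟩
  push Not at h2
  by_cases h3 : g (Finsupp.single c 1) a = 0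
  swap
  · refine ⟨{t | g (Finsupp.single a 1) a + t * g (Finsupp.single c 1) a =
      g (Finsupp.single d 1) d}, Or.inr ⟨_, not_fi_mulRight h3, fun x hx y hy => ?_⟩,
      fun t ht => key t d hda hdc (DD_not_fi' hda hdc fun h => ht h.1)⟩
    have hx' : g (Finsupp.single a 1) a + x * g (Finsupp.single c 1) a =
      g (Finsupp.single d 1) d := hx
    have hy' : g (Finsupp.single a 1) a + y * g (Finsupp.single c 1) a =
      g (Finsupp.single d 1) d := hy
    show (x - y) * g (Finsupp.single c 1) a = 0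
    rw [← hy'] at hx'
    rw [sub_mul, add_left_cancel hx', sub_self]
  have hα : ∀ t : R, g (Finsupp.single a 1) a + t * g (Finsupp.single c 1) a =
      g (Finsupp.single a 1) a := fun t => by rw [h3, mul_zero, add_zero]
  simp only [hα] at hj key
  by_cases h4 : ∃ j, j ≠ a ∧ j ≠ c ∧ ¬ (g (Finsupp.single a 1) a = g (Finsupp.single j 1) j ∧
      ∀ r : R, r * g (Finsupp.single j 1) j = g (Finsupp.single j 1) j * r)
  · obtain ⟨j, hja, hjc, h⟩ := h4
    exact ⟨∅, thin0, fun t _ => key t j hja hjc (DD_not_fi' hja hjc h)⟩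
  push Not at h4
  set z := g (Finsupp.single a 1) a with hz
  have hzc : ∀ r : R, r * z = z * r := by
    rw [(h4 d hda hdc).1]
    exact (h4 d hda hdc).2
  -- now `DD` vanishes
  have hD0 : ∀ j, j ≠ a → j ≠ c → ∀ w : Λ →₀ R, DD g a c j z w = 0 := by
    intro j hja hjc w
    induction w using Finsupp.induction_linear with
    | zero => rw [map_zero]
    | add u v hu hv => rw [map_add, hu, hv, add_zero]
    | single i s =>
      show g (p2 a c (Finsupp.single i s)) j - z * p2 a c (Finsupp.single i s) j = 0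
      by_cases hia : i = a
      · subst hia
        rw [p2_single_a]; simp
      by_cases hic : i = c
      · subst hic
        rw [p2_single_c]; simp
      rw [p2_single hia hic, g_single]
      by_cases hij : i = j
      · subst hij
        rw [Finsupp.single_eq_same, ← (h4 i hia hic).1, hzc, sub_self]
      · rw [h2 i j hia hic hja hjc hij, Finsupp.single_eq_of_ne (Ne.symm hij), mul_zero,
          mul_zero, sub_zero]
  have hj' : ∀ t w j, w ∈ Bad g a c t → j ≠ a → j ≠ c →
      g (Finsupp.single a 1) j + t * g (Finsupp.single c 1) j = 0 := by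
    intro t w j hw hja hjc
    have h5 := hj t w j hw hja hjc
    rw [hD0 j hja hjc] at h5
    rw [← neg_eq_zero, ← h5]
  by_cases h5 : ∃ j, j ≠ a ∧ j ≠ c ∧ g (Finsupp.single c 1) j ≠ 0
  · obtain ⟨j, hja, hjc, h⟩ := h5
    refine ⟨{t | g (Finsupp.single a 1) j + t * g (Finsupp.single c 1) j = 0},
      Or.inr ⟨_, not_fi_mulRight h, fun x hx y hy => ?_⟩, fun t ht => ?_⟩
    · have hx' : g (Finsupp.single a 1) j + x * g (Finsupp.single c 1) j = 0 := hx
      have hy' : g (Finsupp.single a 1) j + y * g (Finsupp.single c 1) j = 0 := hy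
      show (x - y) * g (Finsupp.single c 1) j = 0
      rw [← hy'] at hx'
      rw [sub_mul, add_left_cancel hx', sub_self]
    · left
      rw [Set.eq_empty_iff_forall_notMem]
      intro w hw
      exact ht (hj' t w j hw hja hjc)
  push Not at h5
  by_cases h6 : ∃ j, j ≠ a ∧ j ≠ c ∧ g (Finsupp.single a 1) j ≠ 0
  · obtain ⟨j, hja, hjc, h⟩ := h6
    refine ⟨∅, thin0, fun t _ => ?_⟩
    left
    rw [Set.eq_empty_iff_forall_notMem]
    intro w hw
    have := hj' t w j hw hja hjc
    rw [h5 j hja hjc, mul_zero, add_zero] at this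
    exact h this
  push Not at h6
  -- the equation for the coordinate `c`
  have hcc : ∀ t w, w ∈ Bad g a c t →
      g (Finsupp.single a 1) c + t * g (Finsupp.single c 1) c = z * t := by
    intro t w hw
    have h7 := hw c hca
    rw [zz_c hca, g_zz, g_zz g a c t w a, (hpa w).1, (hpa w).2, h3, mul_zero, add_zero, add_zero,
      add_zero] at h7
    exact h7
  by_cases h7 : g (Finsupp.single c 1) c = z
  swap
  · have hd : g (Finsupp.single c 1) c - z ≠ 0 := sub_ne_zero.2 h7
    refine ⟨{t | g (Finsupp.single a 1) c + t * g (Finsupp.single c 1) c = z * t},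
      Or.inr ⟨_, not_fi_mulRight hd, fun x hx y hy => ?_⟩, fun t ht => ?_⟩
    · have hx' : g (Finsupp.single a 1) c + x * g (Finsupp.single c 1) c = z * x := hx
      have hy' : g (Finsupp.single a 1) c + y * g (Finsupp.single c 1) c = z * y := hy
      show (x - y) * (g (Finsupp.single c 1) c - z) = 0
      have e1 : x * g (Finsupp.single c 1) c - z * x = y * g (Finsupp.single c 1) c - z * y := by
        rw [← hx', ← hy']; abel
      rw [mul_sub, sub_mul, sub_mul, hzc x, hzc y]
      calc x * g (Finsupp.single c 1) c - y * g (Finsupp.single c 1) c - (z * x - z * y) =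
          (x * g (Finsupp.single c 1) c - z * x) - (y * g (Finsupp.single c 1) c - z * y) := by
            abel
        _ = 0 := by rw [e1, sub_self]
    · left
      rw [Set.eq_empty_iff_forall_notMem]
      intro w hw
      exact ht (hcc t w hw)
  by_cases h8 : g (Finsupp.single a 1) c = 0
  swap
  · refine ⟨∅, thin0, fun t _ => ?_⟩
    left
    rw [Set.eq_empty_iff_forall_notMem]
    intro w hw
    have h9 := hcc t w hw
    rw [h7, hzc, add_eq_right] at h9
    exact h8 h9
  exfalso
  apply hg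
  refine isScal_of_basis hzc ?_ ?_
  · intro i j hij
    by_cases hia : i = a
    · subst hia
      by_cases hjc : j = c
      · subst hjc; exact h8
      · exact h6 j (Ne.symm hij) hjc
    by_cases hic : i = c
    · subst hic
      by_cases hja : j = a
      · subst hja; exact h3
      · exact h5 j hja (Ne.symm hij)
    by_cases hja : j = a
    · subst hja; exact (h1 i hia hic).2
    by_cases hjc : j = c
    · subst hjc; exact (h1 i hia hic).1
    exact h2 i j hia hic hja hjc hij
  · intro i
    by_cases hia : i = a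
    · subst hia; rfl
    by_cases hic : i = c
    · subst hic; exact h7
    exact (h4 i hia hic).1.symm

/-- General position: after conjugation the coordinate `b` of the image of the basis vector `a`
is not zero. -/
theorem exists_generic [Finite Λ] (S : Finset (elemGroup R Λ))
    (hS : ∀ g ∈ S, ¬ IsScal ((g : elemGroup R Λ) : (Λ →₀ R) ≃ₗ[R] (Λ →₀ R)).toLinearMap)
    {a b c : Λ} (hba : b ≠ a) (hca : c ≠ a) (hcb : c ≠ b) :
    ∃ y : elemGroup R Λ, ∀ g ∈ S,
      ((y⁻¹ * g * y : elemGroup R Λ) : (Λ →₀ R) ≃ₗ[R] (Λ →₀ R)) (Finsupp.single a 1) b ≠ 0 := by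
  classical
  have := Fintype.ofFinite Λ
  -- first step
  have h1 : ∀ g ∈ S, ∃ Ex : Set R, Thin Ex ∧ ∀ t, t ∉ Ex →
      Thin (Bad ((g : elemGroup R Λ) : (Λ →₀ R) ≃ₗ[R] (Λ →₀ R)).toLinearMap a b t) :=
    fun g hg => gen1 _ hba hca hcb (hS g hg)
  choose! Ex hEx hEx' using h1
  obtain ⟨t, ht⟩ := exists_notMem_thin S Ex hEx
  obtain ⟨w, hw⟩ := exists_notMem_thin S _ fun g hg => hEx' g hg t (ht g hg)
  have hw' : ∀ g ∈ S, ∃ j, j ≠ a ∧ ((g : elemGroup R Λ) : (Λ →₀ R) ≃ₗ[R] (Λ →₀ R))
      (zz a b t w) j ≠ ((g : elemGroup R Λ) : (Λ →₀ R) ≃ₗ[R] (Λ →₀ R)) (zz a b t w) a *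
        zz a b t w j := by
    intro g hg
    have := hw g hg
    simp only [Bad, Set.mem_ofPred_eq, not_forall, exists_prop] at this
    exact this
  set w' : Λ →₀ R := Finsupp.single b t + p2 a b w with hw'def
  have hw'a : w' a = 0 := by
    rw [hw'def, Finsupp.add_apply, Finsupp.single_eq_of_ne (Ne.symm hba), p2_apply_a, add_zero]
  have hzz : zz a b t w = Finsupp.single a 1 + w' := rfl
  set y₁ : elemGroup R Λ := x a w' with hy₁
  have hy₁v : ∀ v, (y₁ : (Λ →₀ R) ≃ₗ[R] (Λ →₀ R)) v = v + v a • w' := by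
    intro v
    rw [hy₁, x_apply, q_eq hw'a]
  have hy₁i : ∀ v, ((y₁⁻¹ : elemGroup R Λ) : (Λ →₀ R) ≃ₗ[R] (Λ →₀ R)) v = v - v a • w' := by
    intro v
    rw [hy₁, ← x_neg, x_apply, q_eq (by rw [Finsupp.neg_apply, hw'a, neg_zero]), smul_neg,
      sub_eq_add_neg]
  let W : elemGroup R Λ → Λ →₀ R := fun g =>
    ((y₁⁻¹ * g * y₁ : elemGroup R Λ) : (Λ →₀ R) ≃ₗ[R] (Λ →₀ R)) (Finsupp.single a 1)
  have hW : ∀ g ∈ S, ∃ j, j ≠ a ∧ W g j ≠ 0 := by
    intro g hg
    obtain ⟨j, hja, hj⟩ := hw' g hg
    refine ⟨j, hja, ?_⟩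
    have e1 : W g = ((y₁⁻¹ : elemGroup R Λ) : (Λ →₀ R) ≃ₗ[R] (Λ →₀ R))
        ((g : (Λ →₀ R) ≃ₗ[R] (Λ →₀ R)) ((y₁ : (Λ →₀ R) ≃ₗ[R] (Λ →₀ R))
          (Finsupp.single a 1))) := rfl
    rw [e1, hy₁v, Finsupp.single_eq_same, one_smul, ← hzz, hy₁i, Finsupp.sub_apply,
      Finsupp.smul_apply, smul_eq_mul]
    have e2 : w' j = zz a b t w j := by
      have e3 : (Finsupp.single a (1 : R)) j = 0 := Finsupp.single_eq_of_ne hja
      rw [hzz]
      show w' j = (Finsupp.single a (1 : R)) j + w' j
      rw [e3, zero_add]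
    rw [e2]
    exact sub_ne_zero.2 hj
  -- second step
  let A : Finset Λ := Finset.univ.filter fun j => j ≠ a ∧ j ≠ b
  have hthin : ∀ g ∈ S, Thin {r : Λ → R | W g b + ∑ j ∈ A, W g j * r j = 0} := by
    intro g hg
    by_cases h : ∃ j ∈ A, W g j ≠ 0
    · obtain ⟨j, hjA, hj⟩ := h
      right
      let D : (Λ → R) →+ R :=
        { toFun := fun r => ∑ j ∈ A, W g j * r j
          map_zero' := by simp
          map_add' := fun r s => by simp [mul_add, Finset.sum_add_distrib] }
      refine ⟨D.ker, fun hfi => ?_, fun x hx y hy => ?_⟩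
      · apply not_fi_mulLeft hj
        have h1 : (D.ker.comap (AddMonoidHom.single (fun _ : Λ => R) j)).FiniteIndex :=
          finiteIndex_comap _ _
        refine AddSubgroup.finiteIndex_of_le
          (H := D.ker.comap (AddMonoidHom.single (fun _ : Λ => R) j)) ?_
        intro s hs
        have hs' : ∑ i ∈ A, W g i * (AddMonoidHom.single (fun _ : Λ => R) j s) i = 0 := hs
        rw [Finset.sum_eq_single_of_mem j hjA] at hs'
        · simpa using hs'
        · intro i _ hij
          simp [Pi.single_eq_of_ne hij]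
      · have hx' : W g b + D x = 0 := hx
        have hy' : W g b + D y = 0 := hy
        rw [AddMonoidHom.mem_ker, map_sub, sub_eq_zero]
        exact add_left_cancel (hx'.trans hy'.symm)
    · left
      push Not at h
      obtain ⟨j, hja, hj⟩ := hW g hg
      have hjb : j = b := by
        by_contra hcon
        exact hj (h j (Finset.mem_filter.2 ⟨Finset.mem_univ _, hja, hcon⟩))
      subst hjb
      rw [Set.eq_empty_iff_forall_notMem]
      intro r hr
      have hr' : W g j + ∑ i ∈ A, W g i * r i = 0 := hr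
      rw [Finset.sum_eq_zero fun i hi => by rw [h i hi, zero_mul], add_zero] at hr'
      exact hj hr'
  obtain ⟨r, hr⟩ := exists_notMem_thin S _ hthin
  obtain ⟨y, hy, hyv⟩ := exists_y a b hba r A (by simp [A]) (by simp [A])
  refine ⟨y₁ * y⁻¹, fun g hg => ?_⟩
  have e1 : (((y₁ * y⁻¹)⁻¹ * g * (y₁ * y⁻¹) : elemGroup R Λ) : (Λ →₀ R) ≃ₗ[R] (Λ →₀ R))
      (Finsupp.single a 1) = (y : (Λ →₀ R) ≃ₗ[R] (Λ →₀ R)) (W g) := by
    have e2 : (y₁ * y⁻¹)⁻¹ * g * (y₁ * y⁻¹) = y * (y₁⁻¹ * g * y₁) * y⁻¹ := by group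
    rw [e2]
    show (y : (Λ →₀ R) ≃ₗ[R] (Λ →₀ R)) (((y₁⁻¹ * g * y₁ : elemGroup R Λ) :
      (Λ →₀ R) ≃ₗ[R] (Λ →₀ R)) (((y⁻¹ : elemGroup R Λ) : (Λ →₀ R) ≃ₗ[R] (Λ →₀ R))
        (Finsupp.single a 1))) = _
    have e3 : ((y⁻¹ : elemGroup R Λ) : (Λ →₀ R) ≃ₗ[R] (Λ →₀ R)) (Finsupp.single a 1) =
      Finsupp.single a 1 := hy.inv.basis 1
    rw [e3]
  rw [e1, hyv, Finsupp.add_apply, Finsupp.single_eq_same]
  exact hr g hg

end Pool.Agent.Helper92.FG
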