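import Pool.Agent.Helper92.FG.Core
import Pool.Agent.Helper66.EL.Neg

/-!
# Group rings of elementary groups of finite rank over rings without insulators
-/

namespace Pool.Agent.Helper92.FG

open Pool.Agent.Helper66.EL Pool.Agent.Helper66.AI MonoidAlgebra

variable {R : Type*} [Ring R] {Λ : Type*}

theorem isScal_inv {g : elemGroup R Λ} [Nontrivial Λ] (h : IsScal (lm g⁻¹).toLinearMap) :
    IsScal (lm g).toLinearMap := by
  classical
  obtain ⟨z, hz, hv⟩ := h
  obtain ⟨i, _, _⟩ := exists_pair_ne Λ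
  have h1 : ∀ v, z • lm g v = v := by
    intro v
    have := hv (lm g v)
    rw [LinearEquiv.coe_coe, lm_inv_apply] at this
    exact this.symm
  set z' := lm g (Finsupp.single i 1) i with hz'
  have h2 : z * z' = 1 := by
    have := DFunLike.congr_fun (h1 (Finsupp.single i 1)) i
    rwa [Finsupp.smul_apply, smul_eq_mul, Finsupp.single_eq_same] at this
  have h3 : z' * z = 1 := by rw [hz, h2]
  refine ⟨z', fun r => ?_, fun v => ?_⟩
  · calc r * z' = z' * z * (r * z') := by rw [h3, one_mul]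
      _ = z' * (z * r) * z' := by simp only [mul_assoc]
      _ = z' * (r * z) * z' := by rw [hz]
      _ = z' * r * (z * z') := by simp only [mul_assoc]
      _ = z' * r := by rw [h2, mul_one]
  · show lm g v = z' • v
    conv_rhs => rw [← h1 v]
    rw [smul_smul, h3, one_smul]

theorem isScal_of_comm {g : elemGroup R Λ} {a b : Λ} (hab : a ≠ b)
    (h : g ∈ Subgroup.center (elemGroup R Λ)) : IsScal (lm g).toLinearMap := by
  classical
  have hc : ∀ k, k * g = g * k := fun k => (Subgroup.mem_center_iff.1 h) k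
  -- commuting with `E i j r`
  have h1 : ∀ i j : Λ, i ≠ j → ∀ (r : R) (v : Λ →₀ R),
      (v j * r) • lm g (Finsupp.single i 1) = Finsupp.single i (lm g v j * r) := by
    intro i j hij r v
    have h2 := congrArg (fun k : elemGroup R Λ => lm k v) (hc (E i j r))
    simp only [lm_mul] at h2
    rw [E_apply hij, E_apply hij, map_add, add_right_inj] at h2
    rw [h2, ← map_smul, Finsupp.smul_single, smul_eq_mul, mul_one]
  -- the matrix is diagonal
  have h2 : ∀ i k : Λ, i ≠ k → lm g (Finsupp.single i 1) k = 0 := by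
    intro i k hik
    obtain ⟨j, hji⟩ : ∃ j, j ≠ i := by
      by_cases hai : a = i
      · exact ⟨b, fun h => hab (hai.trans h.symm)⟩
      · exact ⟨a, hai⟩
    have h3 := h1 i j hji.symm 1 (Finsupp.single j 1)
    rw [Finsupp.single_eq_same, one_mul, one_smul] at h3
    rw [h3, Finsupp.single_eq_of_ne (Ne.symm hik)]
  -- the diagonal entries agree
  have h3 : ∀ i j : Λ, i ≠ j → ∀ r : R,
      r * lm g (Finsupp.single i 1) i = lm g (Finsupp.single j 1) j * r := by
    intro i j hij r
    have h4 := DFunLike.congr_fun (h1 i j hij r (Finsupp.single j 1)) i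
    rw [Finsupp.smul_apply, Finsupp.single_eq_same, Finsupp.single_eq_same, one_mul,
      smul_eq_mul] at h4
    exact h4
  have h4 : ∀ i j : Λ, i ≠ j → lm g (Finsupp.single i 1) i = lm g (Finsupp.single j 1) j := by
    intro i j hij
    have := h3 i j hij 1
    rwa [one_mul, mul_one] at this
  have h5 : ∀ i, lm g (Finsupp.single i 1) i = lm g (Finsupp.single a 1) a := by
    intro i
    by_cases hia : i = a
    · rw [hia]
    · exact h4 i a hia
  refine isScal_of_basis (z := lm g (Finsupp.single a 1) a) (fun r => ?_) h2 h5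
  have := h3 a b hab r
  rwa [← h4 a b hab] at this

theorem center_of_isScal {g : elemGroup R Λ} (h : IsScal (lm g).toLinearMap) :
    g ∈ Subgroup.center (elemGroup R Λ) := by
  obtain ⟨z, _, hv⟩ := h
  have hv' : ∀ v, lm g v = z • v := hv
  rw [Subgroup.mem_center_iff]
  intro k
  apply lm_ext
  intro v
  rw [lm_mul, lm_mul, hv', hv', map_smul]

variable [IsSimpleRing R] [Infinite R] [Finite Λ]

/-- The core theorem. -/
theorem core {P : Type*} [Field P] (hR : NoInsulator R) (hchar : ringChar R ≠ ringChar P)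
    {S : Type*} [Ring S] [Algebra P S] (ρ : elemGroup R Λ →* S) {a b c : Λ} (hba : b ≠ a)
    (hca : c ≠ a) (hcb : c ≠ b) {K : Type*} [Fintype K] (g : K → elemGroup R Λ) (κ : K → P)
    (hg : ∀ k, g k ∉ Subgroup.center (elemGroup R Λ))
    (hrel : 1 + ∑ k, κ k • ρ (g k) = 0) (x : elemGroup R Λ) : ρ x = 1 := by
  classical
  have : Nontrivial Λ := ⟨a, b, Ne.symm hba⟩
  have hS : ∀ k, ¬ IsScal (lm (g k)).toLinearMap := fun k h => hg k (center_of_isScal h)
  have hS' : ∀ k, ¬ IsScal (lm (g k)⁻¹).toLinearMap := fun k h => hS k (isScal_inv h)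
  obtain ⟨y, hy⟩ := exists_generic
    ((Finset.univ.image g) ∪ (Finset.univ.image fun k => (g k)⁻¹)) (by
      intro z hz
      rcases Finset.mem_union.1 hz with hz | hz
      · obtain ⟨k, _, rfl⟩ := Finset.mem_image.1 hz
        exact hS k
      · obtain ⟨k, _, rfl⟩ := Finset.mem_image.1 hz
        exact hS' k) hba hca hcb
  refine core1 hR hchar ρ hba hca hcb (fun k => y⁻¹ * g k * y) κ ?_ ?_ ?_ x
  · intro k
    exact hy _ (Finset.mem_union_left _ (Finset.mem_image_of_mem _ (Finset.mem_univ k)))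
  · intro k
    have e1 : (y⁻¹ * g k * y)⁻¹ = y⁻¹ * (g k)⁻¹ * y := by group
    rw [e1]
    exact hy _ (Finset.mem_union_right _ (Finset.mem_image.2 ⟨k, Finset.mem_univ k, rfl⟩))
  · have h1 : ρ y⁻¹ * (1 + ∑ k, κ k • ρ (g k)) * ρ y = 0 := by rw [hrel, mul_zero, zero_mul]
    have h2 : ρ y⁻¹ * ρ y = 1 := by rw [← map_mul, inv_mul_cancel, map_one]
    rw [mul_add, add_mul, mul_one, h2, Finset.mul_sum, Finset.sum_mul] at h1
    rw [← h1]
    congr 1
    refine Finset.sum_congr rfl fun k _ => ?_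
    rw [mul_smul_comm, smul_mul_assoc, map_mul, map_mul]

theorem infinite_PE {a b : Λ} (hab : a ≠ b) : Infinite (PE R Λ) := by
  classical
  refine Infinite.of_injective (fun r : R => (QuotientGroup.mk (E a b r) : PE R Λ)) ?_
  intro r s h
  have h' : (QuotientGroup.mk (E a b r) : PE R Λ) = QuotientGroup.mk (E a b s) := h
  rw [QuotientGroup.eq] at h'
  have e1 : (E a b r)⁻¹ * E a b s = E a b (s - r) := by
    rw [← E_neg, ← E_add]
    congr 1
    abel
  rw [e1] at h'
  -- a central element fixes lines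
  have h2 := (Subgroup.mem_center_iff.1 h') (E b a 1)
  have h3 := congrArg (fun k : elemGroup R Λ => lm k (Finsupp.single b 1) b) h2
  simp only [lm_mul] at h3
  rw [E_apply hab, E_apply hab.symm, E_apply hab.symm, E_apply hab] at h3
  simp only [Finsupp.add_apply, Finsupp.single_eq_same, Finsupp.single_eq_of_ne hab,
    Finsupp.single_eq_of_ne hab.symm, mul_one, one_mul, zero_add, add_zero, zero_mul,
    Finsupp.single_zero] at h3
  have h4 : s - r = 0 := by
    rw [add_eq_left] at h3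
    exact h3
  exact (sub_eq_zero.1 h4).symm

/-- Each nonzero ideal of the group ring of `PE` contains the augmentation ideal. -/
theorem augSimple_PE {P : Type*} [Field P] (hR : NoInsulator R)
    (hchar : ringChar R ≠ ringChar P) {a b c : Λ} (hba : b ≠ a) (hca : c ≠ a) (hcb : c ≠ b) :
    AugSimple P (PE R Λ) := by
  classical
  have : Infinite (PE R Λ) := infinite_PE (Ne.symm hba)
  refine augSimple_of fun I hl hr hI => ?_
  obtain ⟨α, hαI, hα0⟩ : ∃ x ∈ I, x ≠ 0 := by
    by_contra hcon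
    push Not at hcon
    exact hI (eq_bot_iff.2 fun x hx => AddSubgroup.mem_bot.2 (hcon x hx))
  let J : Ideal (MonoidAlgebra P (PE R Λ)) :=
    { carrier := {x | x ∈ I}
      add_mem' := fun hx hy => I.add_mem hx hy
      zero_mem' := I.zero_mem
      smul_mem' := fun r x hx => hl r x hx }
  have hJ : ∀ x, x ∈ J ↔ x ∈ I := fun x => Iff.rfl
  haveI : J.IsTwoSided := ⟨fun {x} y hx => hr y x hx⟩
  let π : elemGroup R Λ →* PE R Λ := QuotientGroup.mk' _
  let ρ : elemGroup R Λ →* (MonoidAlgebra P (PE R Λ) ⧸ J) :=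
    ((Ideal.Quotient.mk J : MonoidAlgebra P (PE R Λ) →+* _) : _ →* _).comp ((of P _).comp π)
  have hρ : ∀ g, ρ g = Ideal.Quotient.mk J (of P _ (QuotientGroup.mk g)) := fun _ => rfl
  -- the relation
  obtain ⟨g₀, hg₀⟩ : ∃ k, k ∈ α.coeff.support := by
    rw [← Finset.nonempty_def, Finset.nonempty_iff_ne_empty]
    intro h0
    exact hα0 (coeff_eq_zero.1 (Finsupp.support_eq_empty.1 h0))
  have hc0 : α.coeff g₀ ≠ 0 := Finsupp.mem_support_iff.1 hg₀
  let T := α.coeff.support.erase g₀
  have hsurj : ∀ h : PE R Λ, ∃ g : elemGroup R Λ, (QuotientGroup.mk g : PE R Λ) = h :=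
    fun h => QuotientGroup.mk_surjective h
  choose lift hlift using hsurj
  have hmem : (of P _ g₀⁻¹ * algebraMap P _ (α.coeff g₀)⁻¹) * α ∈ I := hl _ _ hαI
  have hα1 : (of P _ g₀⁻¹ * algebraMap P _ (α.coeff g₀)⁻¹) * α =
      1 + ∑ k : T, ((α.coeff g₀)⁻¹ * α.coeff (k : PE R Λ)) • of P _ (g₀⁻¹ * (k : PE R Λ)) := by
    have h1 : α = ∑ k ∈ α.coeff.support, α.coeff k • of P _ k := by
      conv_lhs => rw [← MonoidAlgebra.sum_coeff_single α, Finsupp.sum]
      refine Finset.sum_congr rfl fun g _ => ?_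
      rw [of_apply, smul_single, smul_eq_mul, mul_one]
    obtain ⟨d, hd⟩ : ∃ d, d = (α.coeff g₀)⁻¹ := ⟨_, rfl⟩
    rw [← hd]
    conv_lhs => rw [h1]
    rw [Finset.mul_sum, ← Finset.add_sum_erase _ _ hg₀, ← Finset.sum_coe_sort T]
    have h2 : ∀ k : PE R Λ, of P (PE R Λ) g₀⁻¹ * algebraMap P _ d *
        α.coeff k • of P _ k = (d * α.coeff k) • of P _ (g₀⁻¹ * k) := by
      intro k
      rw [← Algebra.commutes, ← Algebra.smul_def, smul_mul_smul_comm, ← map_mul]
    rw [h2, hd, inv_mul_cancel₀ hc0, one_smul, inv_mul_cancel, map_one, ← hd]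
    congr 1
    exact Finset.sum_congr rfl fun k _ => h2 k
  have hrel : 1 + ∑ k : T, ((α.coeff g₀)⁻¹ * α.coeff (k : PE R Λ)) •
      ρ (lift (g₀⁻¹ * (k : PE R Λ))) = 0 := by
    rw [hα1, ← hJ, ← Ideal.Quotient.eq_zero_iff_mem, map_add, map_one, map_sum] at hmem
    rw [← hmem]
    congr 1
    refine Finset.sum_congr rfl fun k _ => ?_
    rw [hρ, hlift]
    rfl
  have hgk : ∀ k : T, lift (g₀⁻¹ * (k : PE R Λ)) ∉ Subgroup.center (elemGroup R Λ) := by
    intro k hk
    rw [← QuotientGroup.eq_one_iff, hlift, inv_mul_eq_one] at hk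
    exact (Finset.ne_of_mem_erase k.2) hk.symm
  have htriv := core hR hchar ρ hba hca hcb (fun k : T => lift (g₀⁻¹ * (k : PE R Λ)))
    (fun k => (α.coeff g₀)⁻¹ * α.coeff (k : PE R Λ)) hgk hrel
  intro y hy
  refine augIdeal_le hl (fun g => ?_) hy
  obtain ⟨k, rfl⟩ := QuotientGroup.mk_surjective g
  have h1 := htriv k
  rw [hρ, ← map_one (Ideal.Quotient.mk J), Ideal.Quotient.eq] at h1
  exact h1

end Pool.Agent.Helper92.FG
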