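import Pool.Agent.Helper92.FG.Fam
import Pool.Agent.Helper66.EL.Final

/-!
# Abelian subgroups of the elementary group
-/

namespace Pool.Agent.Helper92.FG

open Pool.Agent.Helper66.EL

variable {R : Type*} [Ring R] {Λ : Type*}

/-- The underlying linear map. -/
abbrev lm (g : elemGroup R Λ) : (Λ →₀ R) ≃ₗ[R] (Λ →₀ R) := (g : (Λ →₀ R) ≃ₗ[R] (Λ →₀ R))

theorem lm_mul (g h : elemGroup R Λ) (v : Λ →₀ R) : lm (g * h) v = lm g (lm h v) := rfl

theorem lm_one (v : Λ →₀ R) : lm (1 : elemGroup R Λ) v = v := rfl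

theorem lm_inv_apply (g : elemGroup R Λ) (v : Λ →₀ R) : lm g⁻¹ (lm g v) = v := by
  rw [← lm_mul, inv_mul_cancel]; rfl

theorem lm_apply_inv (g : elemGroup R Λ) (v : Λ →₀ R) : lm g (lm g⁻¹ v) = v := by
  rw [← lm_mul, mul_inv_cancel]; rfl

theorem lm_ext {g h : elemGroup R Λ} (H : ∀ v, lm g v = lm h v) : g = h :=
  Subtype.ext (LinearEquiv.ext H)

/-- Two elements which act trivially on `W` and modulo `W` commute. -/
theorem comm_of_W (W : Submodule R (Λ →₀ R)) {g h : elemGroup R Λ}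
    (hg : ∀ v, lm g v - v ∈ W) (hg' : ∀ v ∈ W, lm g v = v)
    (hh : ∀ v, lm h v - v ∈ W) (hh' : ∀ v ∈ W, lm h v = v) : g * h = h * g := by
  apply lm_ext
  intro v
  rw [lm_mul, lm_mul]
  have e1 : lm h v = v + (lm h v - v) := by abel
  have e2 : lm g v = v + (lm g v - v) := by abel
  rw [e1, map_add, hg' _ (hh v)]
  conv_rhs => rw [e2, map_add, hh' _ (hg v)]
  abel

/-- The coordinate of `g⁻¹ v`, times `u`. -/
noncomputable def phi (g : elemGroup R Λ) (b : Λ) (u : R) : (Λ →₀ R) →ₗ[R] R :=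
  (LinearMap.toSpanSingleton R R u) ∘ₗ (Finsupp.lapply b) ∘ₗ (lm g⁻¹).toLinearMap

theorem phi_apply (g : elemGroup R Λ) (b : Λ) (u : R) (v : Λ →₀ R) :
    phi g b u v = (lm g⁻¹ v) b * u := rfl

/-- An element of the form `v ↦ v + f(v) x`. -/
theorem W_of_form {W : Submodule R (Λ →₀ R)} {g : elemGroup R Λ} {f : (Λ →₀ R) → R}
    {x : Λ →₀ R} (hx : x ∈ W) (hf : ∀ v ∈ W, f v = 0) (hg : ∀ v, lm g v = v + f v • x) :
    (∀ v, lm g v - v ∈ W) ∧ ∀ v ∈ W, lm g v = v := by
  constructor
  · intro v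
    rw [hg, add_sub_cancel_left]
    exact W.smul_mem _ hx
  · intro v hv
    rw [hg, hf v hv, zero_smul, add_zero]

theorem vanish_span {X : Set (Λ →₀ R)} {f : (Λ →₀ R) →ₗ[R] R} (h : ∀ x ∈ X, f x = 0) :
    ∀ v ∈ Submodule.span R X, f v = 0 := by
  intro v hv
  have : Submodule.span R X ≤ LinearMap.ker f := by
    rw [Submodule.span_le]
    exact fun x hx => h x hx
  exact this hv

/-- Conjugates of elementary elements. -/
theorem conj_E {a b : Λ} (hab : a ≠ b) (g : elemGroup R Λ) (u r w : R) (v : Λ →₀ R) :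
    lm (g * E a b (u * r * w) * g⁻¹) v = v + (phi g b u v * r) • (w • lm g (Finsupp.single a 1)) := by
  rw [lm_mul, lm_mul, E_apply hab, map_add, lm_apply_inv, phi_apply, smul_smul, ← map_smul,
    Finsupp.smul_single, smul_eq_mul, mul_one]
  simp only [mul_assoc]

section fin

variable [Finite Λ]

theorem exists_row (c : Λ) (r : Λ → R) (A : Finset Λ) (hcA : c ∉ A) :
    ∃ y : elemGroup R Λ, ∀ v : Λ →₀ R, lm y v = v + Finsupp.single c (∑ j ∈ A, v j * r j) := by
  classical
  induction A using Finset.induction_on with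
  | empty => exact ⟨1, fun v => by simp⟩
  | insert a A ha ih =>
    obtain ⟨y, hyv⟩ := ih (fun h => hcA (Finset.mem_insert_of_mem h))
    have hca : c ≠ a := fun h => hcA (h ▸ Finset.mem_insert_self _ _)
    refine ⟨E c a (r a) * y, fun v => ?_⟩
    rw [lm_mul, hyv, E_apply hca, Finsupp.add_apply, Finsupp.single_eq_of_ne (Ne.symm hca),
      add_zero, Finset.sum_insert ha, Finsupp.single_add]
    abel

/-- The transvection `v ↦ v + ψ(v) w e_c` with `w ψ(e_c) = 0` is in the elementary group. -/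
theorem exists_trans {c j : Λ} (hcj : c ≠ j) (w : R) (ψ : (Λ →₀ R) →ₗ[R] R)
    (hψ : w * ψ (Finsupp.single c 1) = 0) :
    ∃ g : elemGroup R Λ, ∀ v, lm g v = v + Finsupp.single c (ψ v * w) := by
  classical
  have := Fintype.ofFinite Λ
  obtain ⟨y, hy⟩ := exists_row c (fun i => ψ (Finsupp.single i 1) * w)
    (Finset.univ.erase c) (Finset.notMem_erase c _)
  set α := ψ (Finsupp.single c 1) with hα
  -- the diagonal element
  have hD : ∀ v : Λ →₀ R, lm ((E c j w)⁻¹ * ((E j c α)⁻¹ * (E c j w * E j c α))) v =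
      v + Finsupp.single c (v c * α * w) := by
    intro v
    have hinv : ∀ (a b : Λ) (r : R), a ≠ b → ∀ v : Λ →₀ R,
        lm (E a b r)⁻¹ v = v - Finsupp.single a (v b * r) := by
      intro a b r hab v
      have h1 : (E a b r)⁻¹ = E a b (-r) := by
        rw [E, E, Finsupp.single_neg, x_neg]
      rw [h1, E_apply hab, mul_neg, Finsupp.single_neg, sub_eq_add_neg]
    rw [lm_mul, lm_mul, lm_mul, E_apply hcj.symm, E_apply hcj, hinv j c α hcj.symm,
      hinv c j w hcj]
    simp only [Finsupp.add_apply, Finsupp.sub_apply, Finsupp.single_eq_same,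
      Finsupp.single_eq_of_ne hcj, Finsupp.single_eq_of_ne hcj.symm, add_zero, sub_zero]
    have e1 : (v c + (v j + v c * α) * w) * α = v c * α := by
      rw [add_mul, mul_assoc _ w α, hψ, mul_zero, add_zero]
    rw [e1, add_sub_cancel_right, add_mul, Finsupp.single_add]
    abel
  refine ⟨y * ((E c j w)⁻¹ * ((E j c α)⁻¹ * (E c j w * E j c α))), fun v => ?_⟩
  rw [lm_mul, hD, hy]
  have e2 : ∑ i ∈ Finset.univ.erase c, (v + Finsupp.single c (v c * α * w)) i *
      (ψ (Finsupp.single i 1) * w) = ∑ i ∈ Finset.univ.erase c, v i *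
      (ψ (Finsupp.single i 1) * w) := by
    refine Finset.sum_congr rfl fun i hi => ?_
    rw [Finsupp.add_apply, Finsupp.single_eq_of_ne (Finset.ne_of_mem_erase hi), add_zero]
  have e3 : ψ v * w = v c * α * w + ∑ i ∈ Finset.univ.erase c, v i *
      (ψ (Finsupp.single i 1) * w) := by
    have h1 : v = ∑ i : Λ, v i • Finsupp.single i (1 : R) := by
      ext k
      rw [Finsupp.finsetSum_apply, Finset.sum_eq_single k]
      · simp
      · intro i _ hik
        rw [Finsupp.smul_apply, Finsupp.single_eq_of_ne (Ne.symm hik), smul_zero]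
      · intro h; exact absurd (Finset.mem_univ k) h
    conv_lhs => rw [h1]
    rw [map_sum, Finset.sum_mul, ← Finset.add_sum_erase _ _ (Finset.mem_univ c)]
    congr 1
    · rw [map_smul, smul_eq_mul]
    · refine Finset.sum_congr rfl fun i _ => ?_
      rw [map_smul, smul_eq_mul, mul_assoc]
  rw [e2, add_assoc, ← Finsupp.single_add, ← e3]

end fin

/-- The transvection `v ↦ v + ψ(v) w e_c` if it is in the elementary group. -/
noncomputable def mt (c : Λ) (w : R) (ψ : (Λ →₀ R) →ₗ[R] R) : elemGroup R Λ :=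
  open Classical in
  if h : ∃ g : elemGroup R Λ, ∀ v, lm g v = v + Finsupp.single c (ψ v * w) then h.choose else 1

theorem mt_apply [Finite Λ] {c j : Λ} (hcj : c ≠ j) {w : R} {ψ : (Λ →₀ R) →ₗ[R] R}
    (hψ : w * ψ (Finsupp.single c 1) = 0) (v : Λ →₀ R) :
    lm (mt c w ψ) v = v + (ψ v) • Finsupp.single c w := by
  have h := exists_trans hcj w ψ hψ
  have h1 : mt c w ψ = h.choose := dif_pos h
  rw [h1, h.choose_spec v, Finsupp.smul_single, smul_eq_mul]

end Pool.Agent.Helper92.FG
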