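import Pool.Agent.Helper92.FG.Thin

/-!
# Rings with isometries of orthogonal ranges and no insulators
-/

namespace Pool.Agent.Helper92.FG

section rel

variable {A : Type*} [Ring A]

/-- The sums of elements `x_w β`, where `β` commutes with all `x_i`. -/
def xsp (x : Bool → A) : AddSubgroup A :=
  AddSubgroup.closure {g | ∃ (w : List Bool) (β : A), (∀ i, β * x i = x i * β) ∧
    g = (w.map x).prod * β}

variable {x y : Bool → A}

theorem mem_xsp (w : List Bool) {β : A} (hβ : ∀ i, β * x i = x i * β) :
    (w.map x).prod * β ∈ xsp x :=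
  AddSubgroup.subset_closure ⟨w, β, hβ, rfl⟩

theorem one_mem_xsp : (1 : A) ∈ xsp x := by
  have := mem_xsp (x := x) [] (β := 1) (fun i => by rw [one_mul, mul_one])
  rwa [List.map_nil, List.prod_nil, one_mul] at this

theorem comm_prod {β : A} (hβ : ∀ i, β * x i = x i * β) (w : List Bool) :
    β * (w.map x).prod = (w.map x).prod * β := by
  induction w with
  | nil => simp
  | cons i w ih =>
    rw [List.map_cons, List.prod_cons, ← mul_assoc, hβ, mul_assoc, ih, ← mul_assoc]

theorem xsp_mul_x {g : A} (hg : g ∈ xsp x) (i : Bool) : g * x i ∈ xsp x := by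
  induction hg using AddSubgroup.closure_induction with
  | mem g hg =>
    obtain ⟨w, β, hβ, rfl⟩ := hg
    have := mem_xsp (w ++ [i]) hβ
    rw [List.map_append, List.prod_append, List.map_singleton, List.prod_singleton] at this
    rwa [mul_assoc, hβ, ← mul_assoc]
  | zero => rw [zero_mul]; exact AddSubgroup.zero_mem _
  | add g g' _ _ h h' => rw [add_mul]; exact AddSubgroup.add_mem _ h h'
  | neg g _ h => rw [neg_mul]; exact AddSubgroup.neg_mem _ h

theorem x_mul_xsp {g : A} (hg : g ∈ xsp x) (i : Bool) : x i * g ∈ xsp x := by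
  induction hg using AddSubgroup.closure_induction with
  | mem g hg =>
    obtain ⟨w, β, hβ, rfl⟩ := hg
    have := mem_xsp (i :: w) hβ
    rw [List.map_cons, List.prod_cons] at this
    rwa [← mul_assoc]
  | zero => rw [mul_zero]; exact AddSubgroup.zero_mem _
  | add g g' _ _ h h' => rw [mul_add]; exact AddSubgroup.add_mem _ h h'
  | neg g _ h => rw [mul_neg]; exact AddSubgroup.neg_mem _ h

theorem xsp_mul_pow {g : A} (hg : g ∈ xsp x) (n : ℕ) : g * x false ^ n ∈ xsp x := by
  induction n with
  | zero => rwa [pow_zero, mul_one]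
  | succ n ih => rw [pow_succ, ← mul_assoc]; exact xsp_mul_x ih _

/-- The element `f` maps `xsp x` to itself after multiplication by powers of `x_0`. -/
def Ev (x : Bool → A) (f : A) : Prop := ∀ g ∈ xsp x, ∃ n : ℕ, f * g * x false ^ n ∈ xsp x

theorem Ev.of_gen {f : A} (h : ∀ (w : List Bool) (β : A), (∀ i, β * x i = x i * β) →
    ∃ n : ℕ, f * ((w.map x).prod * β) * x false ^ n ∈ xsp x) : Ev x f := by
  intro g hg
  induction hg using AddSubgroup.closure_induction with
  | mem g hg =>
    obtain ⟨w, β, hβ, rfl⟩ := hg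
    exact h w β hβ
  | zero => exact ⟨0, by rw [mul_zero, zero_mul]; exact AddSubgroup.zero_mem _⟩
  | add g g' _ _ h h' =>
    obtain ⟨n, hn⟩ := h
    obtain ⟨m, hm⟩ := h'
    refine ⟨n + m, ?_⟩
    rw [mul_add, add_mul]
    refine AddSubgroup.add_mem _ ?_ ?_
    · rw [pow_add, ← mul_assoc]; exact xsp_mul_pow hn m
    · rw [add_comm, pow_add, ← mul_assoc]; exact xsp_mul_pow hm n
  | neg g _ h =>
    obtain ⟨n, hn⟩ := h
    exact ⟨n, by rw [mul_neg, neg_mul]; exact AddSubgroup.neg_mem _ hn⟩

theorem Ev.closure {s : Set A} (hs : ∀ f ∈ s, Ev x f) {f : A} (hf : f ∈ Subring.closure s) :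
    Ev x f := by
  induction hf using Subring.closure_induction with
  | mem f hf => exact hs f hf
  | zero => exact fun g _ => ⟨0, by rw [zero_mul, zero_mul]; exact AddSubgroup.zero_mem _⟩
  | one => exact fun g hg => ⟨0, by rw [one_mul, pow_zero, mul_one]; exact hg⟩
  | add f f' _ _ h h' =>
    intro g hg
    obtain ⟨n, hn⟩ := h g hg
    obtain ⟨m, hm⟩ := h' g hg
    refine ⟨n + m, ?_⟩
    rw [add_mul, add_mul]
    refine AddSubgroup.add_mem _ ?_ ?_
    · rw [pow_add, ← mul_assoc]; exact xsp_mul_pow hn m
    · rw [add_comm, pow_add, ← mul_assoc]; exact xsp_mul_pow hm n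
  | neg f _ h =>
    intro g hg
    obtain ⟨n, hn⟩ := h g hg
    exact ⟨n, by rw [neg_mul, neg_mul]; exact AddSubgroup.neg_mem _ hn⟩
  | mul f f' _ _ h h' =>
    intro g hg
    obtain ⟨n, hn⟩ := h' g hg
    obtain ⟨m, hm⟩ := h _ hn
    refine ⟨n + m, ?_⟩
    have e1 : f * f' * g * x false ^ (n + m) = f * (f' * g * x false ^ n) * x false ^ m := by
      rw [pow_add]
      simp only [mul_assoc]
    rw [e1]
    exact hm

theorem ev_x (i : Bool) : Ev x (x i) := fun g hg =>
  ⟨0, by rw [pow_zero, mul_one]; exact x_mul_xsp hg i⟩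

theorem ev_y (hyx : ∀ i j, y i * x j = if i = j then 1 else 0) (i : Bool) : Ev x (y i) := by
  refine Ev.of_gen fun w β hβ => ?_
  have hif : ∀ j, (if i = j then (1 : A) else 0) = 1 ∨ (if i = j then (1 : A) else 0) = 0 := by
    intro j
    by_cases h : i = j
    · left; rw [if_pos h]
    · right; rw [if_neg h]
  cases w with
  | nil =>
    refine ⟨1, ?_⟩
    rw [List.map_nil, List.prod_nil, one_mul, pow_one, mul_assoc, hβ, ← mul_assoc, hyx]
    rcases hif false with h | h
    · rw [h]
      exact mem_xsp [] hβ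
    · rw [h, zero_mul]
      exact AddSubgroup.zero_mem _
  | cons j w =>
    refine ⟨0, ?_⟩
    rw [List.map_cons, List.prod_cons, pow_zero, mul_one, mul_assoc (x j), ← mul_assoc, hyx]
    rcases hif j with h | h
    · rw [h, one_mul]
      exact mem_xsp w hβ
    · rw [h, zero_mul]
      exact AddSubgroup.zero_mem _

theorem ev_D {D b : ℕ → A} (hb : ∀ n i, b n * x i = x i * b n)
    (hD0 : ∀ n, D n * x false = x false * b n) (hD1 : ∀ n, D n * x true = x true * D (n + 1))
    (n : ℕ) : Ev x (D n) := by
  refine Ev.of_gen fun w => ?_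
  induction w generalizing n with
  | nil =>
    intro β hβ
    refine ⟨1, ?_⟩
    rw [List.map_nil, List.prod_nil, one_mul, pow_one, mul_assoc, hβ, ← mul_assoc, hD0,
      mul_assoc]
    have := mem_xsp (x := x) [false] (β := b n * β) (fun i => by
      rw [mul_assoc, hβ, ← mul_assoc, hb, mul_assoc])
    rwa [List.map_singleton, List.prod_singleton] at this
  | cons i w ih =>
    intro β hβ
    rw [List.map_cons, List.prod_cons]
    cases i with
    | false =>
      refine ⟨0, ?_⟩
      rw [pow_zero, mul_one]
      have e1 : D n * (x false * (w.map x).prod * β) =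
          ((false :: w).map x).prod * (b n * β) := by
        rw [List.map_cons, List.prod_cons]
        calc D n * (x false * (w.map x).prod * β) = D n * x false * ((w.map x).prod * β) := by
              simp only [mul_assoc]
          _ = x false * (b n * (w.map x).prod) * β := by rw [hD0]; simp only [mul_assoc]
          _ = _ := by rw [comm_prod (hb n)]; simp only [mul_assoc]
      rw [e1]
      exact mem_xsp _ (fun i => by rw [mul_assoc, hβ, ← mul_assoc, hb, mul_assoc])
    | true =>
      obtain ⟨m, hm⟩ := ih (n + 1) β hβ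
      refine ⟨m, ?_⟩
      have e1 : D n * (x true * (w.map x).prod * β) * x false ^ m =
          x true * (D (n + 1) * ((w.map x).prod * β) * x false ^ m) := by
        calc D n * (x true * (w.map x).prod * β) * x false ^ m =
            D n * x true * ((w.map x).prod * β) * x false ^ m := by simp only [mul_assoc]
          _ = _ := by rw [hD1]; simp only [mul_assoc]
      rw [e1]
      exact x_mul_xsp hm true

theorem kill_word (hyx : ∀ i j, y i * x j = if i = j then 1 else 0) (w : List Bool) :
    ∀ n : ℕ, w.length < n → y true ^ n * ((w.map x).prod * x false) = 0 := by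
  induction w with
  | nil =>
    intro n hn
    obtain ⟨m, rfl⟩ := Nat.exists_eq_succ_of_ne_zero (Nat.pos_iff_ne_zero.1 hn)
    rw [List.map_nil, List.prod_nil, one_mul, pow_succ, mul_assoc, hyx, if_neg (by decide),
      mul_zero]
  | cons i w ih =>
    intro n hn
    rw [List.length_cons] at hn
    obtain ⟨m, rfl⟩ := Nat.exists_eq_succ_of_ne_zero (Nat.pos_iff_ne_zero.1 (by omega : 0 < n))
    have e1 : y true ^ (m + 1) * (((i :: w).map x).prod * x false) =
        y true ^ m * ((y true * x i) * ((w.map x).prod * x false)) := by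
      rw [List.map_cons, List.prod_cons, pow_succ]
      simp only [mul_assoc]
    rw [Nat.succ_eq_add_one, e1, hyx]
    cases i with
    | false => rw [if_neg (by decide), zero_mul, mul_zero]
    | true =>
      rw [if_pos rfl, one_mul]
      exact ih m (by omega)

theorem kill_xsp (hyx : ∀ i j, y i * x j = if i = j then 1 else 0) {g : A} (hg : g ∈ xsp x) :
    ∃ n₀ : ℕ, ∀ n, n₀ ≤ n → y true ^ n * (g * x false) = 0 := by
  induction hg using AddSubgroup.closure_induction with
  | mem g hg =>
    obtain ⟨w, β, hβ, rfl⟩ := hg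
    refine ⟨w.length + 1, fun n hn => ?_⟩
    rw [mul_assoc (w.map x).prod, hβ, ← mul_assoc (w.map x).prod, ← mul_assoc,
      kill_word hyx w n (by omega), zero_mul]
  | zero => exact ⟨0, fun n _ => by rw [zero_mul, mul_zero]⟩
  | add g g' _ _ h h' =>
    obtain ⟨n, hn⟩ := h
    obtain ⟨m, hm⟩ := h'
    refine ⟨n + m, fun k hk => ?_⟩
    rw [add_mul, mul_add, hn k (by omega), hm k (by omega), add_zero]
  | neg g _ h =>
    obtain ⟨n, hn⟩ := h
    exact ⟨n, fun k hk => by rw [neg_mul, mul_neg, hn k hk, neg_zero]⟩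

theorem pow_yx (hyx : ∀ i j, y i * x j = if i = j then 1 else 0) (i : Bool) (n : ℕ) :
    y i ^ n * x i ^ n = 1 := by
  induction n with
  | zero => rw [pow_zero, pow_zero, mul_one]
  | succ n ih =>
    rw [pow_succ, pow_succ', mul_assoc, ← mul_assoc (y i), hyx, if_pos rfl, one_mul, ih]

/-- A ring generated by `x_0, x_1, y_0, y_1, D_0` with these relations has no insulators. -/
theorem noInsulator_of_rel [Nontrivial A] (hyx : ∀ i j, y i * x j = if i = j then 1 else 0)
    {D b : ℕ → A} (hb : ∀ n i, b n * x i = x i * b n)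
    (hD0 : ∀ n, D n * x false = x false * b n) (hD1 : ∀ n, D n * x true = x true * D (n + 1))
    (hgen : Subring.closure ({x false, x true, y false, y true, D 0} : Set A) = ⊤) :
    NoInsulator A := by
  classical
  have hev : ∀ f : A, Ev x f := by
    intro f
    refine Ev.closure (s := ({x false, x true, y false, y true, D 0} : Set A)) ?_
      (by rw [hgen]; exact Subring.mem_top f)
    intro f hf
    simp only [Set.mem_insert_iff, Set.mem_singleton_iff] at hf
    rcases hf with rfl | rfl | rfl | rfl | rfl
    · exact ev_x _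
    · exact ev_x _
    · exact ev_y hyx _
    · exact ev_y hyx _
    · exact ev_D hb hD0 hD1 0
  intro F
  have h1 : ∃ n : ℕ, ∀ f ∈ F, f * x false ^ n ∈ xsp x := by
    induction F using Finset.induction_on with
    | empty => exact ⟨0, fun f hf => absurd hf (Finset.notMem_empty f)⟩
    | insert f F _ ih =>
      obtain ⟨n, hn⟩ := ih
      obtain ⟨m, hm⟩ := hev f 1 one_mem_xsp
      rw [mul_one] at hm
      refine ⟨n + m, fun g hg => ?_⟩
      rcases Finset.mem_insert.1 hg with rfl | hg
      · rw [add_comm, pow_add, ← mul_assoc]; exact xsp_mul_pow hm n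
      · rw [pow_add, ← mul_assoc]; exact xsp_mul_pow (hn g hg) m
  obtain ⟨n, hn⟩ := h1
  have h2 : ∃ m₀ : ℕ, ∀ m, m₀ ≤ m → ∀ f ∈ F, y true ^ m * f * x false ^ (n + 1) = 0 := by
    clear hev
    induction F using Finset.induction_on with
    | empty => exact ⟨0, fun m _ f hf => absurd hf (Finset.notMem_empty f)⟩
    | insert f F _ ih =>
      obtain ⟨m₁, hm₁⟩ := ih fun f hf => hn f (Finset.mem_insert_of_mem hf)
      obtain ⟨m₂, hm₂⟩ := kill_xsp hyx (hn f (Finset.mem_insert_self f F))
      refine ⟨m₁ + m₂, fun m hm g hg => ?_⟩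
      rcases Finset.mem_insert.1 hg with rfl | hg
      · rw [← hm₂ m (by omega), pow_succ]
        simp only [mul_assoc]
      · exact hm₁ m (by omega) g hg
  obtain ⟨m, hm⟩ := h2
  refine ⟨x false ^ (n + 1), y true ^ m, fun h => ?_, fun h => ?_, fun f hf => hm m le_rfl f hf⟩
  · have := pow_yx hyx false (n + 1)
    rw [h, mul_zero] at this
    exact zero_ne_one this
  · have := pow_yx hyx true m
    rw [h, zero_mul] at this
    exact zero_ne_one this

end rel

end Pool.Agent.Helper92.FG
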