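import Pool.Agent.Helper66.EL.Radical
import Pool.Agent.Helper92.FG.Defs

/-!
# Thin subsets of additive groups, and finite insulators
-/

namespace Pool.Agent.Helper92.FG

open Pool.Agent.Helper66.EL
open scoped Pointwise

/-- A set is thin if it is empty or lies in a coset of a subgroup of infinite index. -/
def Thin {A : Type*} [AddCommGroup A] (s : Set A) : Prop :=
  s = ∅ ∨ ∃ H : AddSubgroup A, ¬ H.FiniteIndex ∧ ∀ x ∈ s, ∀ y ∈ s, x - y ∈ H

theorem Thin.mono {A : Type*} [AddCommGroup A] {s t : Set A} (hst : s ⊆ t) (ht : Thin t) :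
    Thin s := by
  rcases ht with h | ⟨H, hH, h⟩
  · left
    rw [h] at hst
    exact Set.subset_empty_iff.1 hst
  · exact Or.inr ⟨H, hH, fun x hx y hy => h x (hst hx) y (hst hy)⟩

/-- Finitely many thin sets do not cover the group (B. H. Neumann). -/
theorem exists_notMem_thin {A : Type*} [AddCommGroup A] {ι : Type*} (T : Finset ι)
    (s : ι → Set A) (h : ∀ i ∈ T, Thin (s i)) : ∃ a, ∀ i ∈ T, a ∉ s i := by
  classical
  by_contra hcon
  push Not at hcon
  let T' := T.filter fun i => (s i).Nonempty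
  have h1 : ∀ i ∈ T', ∃ (H : AddSubgroup A) (g : A), ¬ H.FiniteIndex ∧ ∀ x ∈ s i, -g + x ∈ H := by
    intro i hi
    obtain ⟨hiT, g, hg⟩ := Finset.mem_filter.1 hi
    rcases h i hiT with h0 | ⟨H, hH, h2⟩
    · rw [h0] at hg
      exact absurd hg (Set.notMem_empty g)
    · refine ⟨H, g, hH, fun x hx => ?_⟩
      rw [neg_add_eq_sub]
      exact h2 x hx g hg
  choose! H g hH hg using h1
  have hcov : ⋃ i ∈ T', g i +ᵥ (H i : Set A) = Set.univ := by
    rw [Set.eq_univ_iff_forall]
    intro x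
    obtain ⟨i, hi, hx⟩ := hcon x
    have hi' : i ∈ T' := Finset.mem_filter.2 ⟨hi, x, hx⟩
    rw [Set.mem_iUnion₂]
    refine ⟨i, hi', ?_⟩
    rw [mem_leftAddCoset_iff]
    exact hg i hi' x hx
  obtain ⟨i, hi, hfi⟩ := AddSubgroup.exists_finiteIndex_of_leftCoset_cover hcov
  exact hH i hi hfi

section ring

variable {R : Type*} [Ring R] [IsSimpleRing R] [Infinite R]

theorem not_fi_mulRight {d : R} (hd : d ≠ 0) : ¬ (AddMonoidHom.mulRight d).ker.FiniteIndex := by
  have h := not_finiteIndex_ideal (LinearMap.ker (LinearMap.toSpanSingleton R R d)) (by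
    intro h
    apply hd
    have h1 : (1 : R) ∈ LinearMap.ker (LinearMap.toSpanSingleton R R d) := by
      rw [h]; exact Submodule.mem_top
    rw [LinearMap.mem_ker, LinearMap.toSpanSingleton_apply, one_smul] at h1
    exact h1)
  have h2 : (LinearMap.ker (LinearMap.toSpanSingleton R R d)).toAddSubgroup =
      (AddMonoidHom.mulRight d).ker := by
    ext s
    show s ∈ LinearMap.ker (LinearMap.toSpanSingleton R R d) ↔ s * d = 0
    rw [LinearMap.mem_ker, LinearMap.toSpanSingleton_apply, smul_eq_mul]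
  rwa [h2] at h

theorem not_fi_mulLeft {d : R} (hd : d ≠ 0) : ¬ (AddMonoidHom.mulLeft d).ker.FiniteIndex := by
  have h := not_finiteIndex_mulLeft (⊥ : Submodule R R) bot_ne_top hd
  have h2 : ((⊥ : Submodule R R).toAddSubgroup.comap (AddMonoidHom.mulLeft d)) =
      (AddMonoidHom.mulLeft d).ker := by
    ext s
    show d * s ∈ (⊥ : Submodule R R) ↔ d * s = 0
    rw [Submodule.mem_bot]
  rwa [h2] at h

/-- If `s β = α s` for all `s` in a subgroup of finite index, then `α = β` is central. -/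
theorem central_of_fi {α β : R} {H : AddSubgroup R} (hH : H.FiniteIndex)
    (h : ∀ s ∈ H, s * β = α * s) : α = β ∧ ∀ r : R, r * β = β * r := by
  have hc : ∀ r : R, r * β = β * r := by
    intro r
    by_contra hcon
    have hd : r * β - β * r ≠ 0 := sub_ne_zero.2 hcon
    apply not_fi_mulRight hd
    have h1 : (H.comap (AddMonoidHom.mulRight r)).FiniteIndex := finiteIndex_comap _ _
    refine AddSubgroup.finiteIndex_of_le (H := H ⊓ H.comap (AddMonoidHom.mulRight r)) ?_
    rintro s ⟨hs1, hs2⟩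
    have e1 := h s hs1
    have e2 : s * r * β = α * (s * r) := h (s * r) hs2
    show s * (r * β - β * r) = 0
    rw [mul_sub, ← mul_assoc, e2, ← mul_assoc, ← e1, ← mul_assoc, sub_self]
  refine ⟨?_, hc⟩
  by_contra hcon
  have hd : α - β ≠ 0 := sub_ne_zero.2 hcon
  apply not_fi_mulLeft hd
  refine AddSubgroup.finiteIndex_of_le (H := H) ?_
  intro s hs
  show (α - β) * s = 0
  rw [sub_mul, ← h s hs, hc s, sub_self]

/-- The elimination lemma in commutative rings. -/
theorem nil_of_family {A : Type*} [CommRing A] {K : Type*} [Fintype K] (e : K → R)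
    (he : ∀ k, e k ≠ 0) (α β : K → R → A) (hβ : ∀ k x y, β k (x + y) = β k x * β k y)
    (hβ0 : ∀ k, β k 0 = 1)
    (h : ∀ (s : R) (r : K → R), IsNilpotent (∏ k, (α k (r k) * β k (r k * e k * s) - 1)))
    (t : K → R) : IsNilpotent (∏ k, (β k (t k) - 1)) := by
  classical
  rw [nilpotent_iff_mem_prime]
  intro 𝔭 h𝔭
  let 𝔱 : K → Submodule R R := fun k =>
    { carrier := {x | ∀ r, β k (r * x) - 1 ∈ 𝔭}
      zero_mem' := by
        intro r
        rw [mul_zero, hβ0, sub_self]; exact 𝔭.zero_mem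
      add_mem' := by
        intro x y hx hy r
        have : β k (r * (x + y)) - 1 = β k (r * x) * (β k (r * y) - 1) + (β k (r * x) - 1) := by
          rw [mul_add, hβ]; ring
        rw [this]
        exact 𝔭.add_mem (𝔭.mul_mem_left _ (hy r)) (hx r)
      smul_mem' := by
        intro c x hx r
        show β k (r * (c * x)) - 1 ∈ 𝔭
        rw [← mul_assoc]
        exact hx (r * c) }
  have h𝔱 : ∀ k x, x ∈ 𝔱 k ↔ ∀ r, β k (r * x) - 1 ∈ 𝔭 := fun k x => Iff.rfl
  obtain ⟨k, hk⟩ : ∃ k, 𝔱 k = ⊤ := by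
    by_contra hcon
    push Not at hcon
    let S : K → Set R := fun k => {s | ∀ r, α k r * β k (r * e k * s) - 1 ∈ 𝔭}
    have hthin : ∀ k ∈ (Finset.univ : Finset K), Thin (S k) := by
      intro k _
      right
      refine ⟨(𝔱 k).toAddSubgroup.comap (AddMonoidHom.mulLeft (e k)),
        not_finiteIndex_mulLeft (𝔱 k) (hcon k) (he k), fun s hs s' hs' => ?_⟩
      show e k * (s - s') ∈ 𝔱 k
      rw [h𝔱]
      intro r
      have h1 : β k (r * e k * s) = β k (r * e k * s') * β k (r * (e k * (s - s'))) := by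
        rw [← hβ]
        congr 1
        simp only [mul_sub, mul_assoc]
        abel
      have h2 := hs r
      have h3 := hs' r
      rw [h1] at h2
      have h4 : β k (r * (e k * (s - s'))) - 1 =
          (α k r * (β k (r * e k * s') * β k (r * (e k * (s - s')))) - 1) -
            (α k r * β k (r * e k * s') - 1) * β k (r * (e k * (s - s'))) := by ring
      rw [h4]
      exact 𝔭.sub_mem h2 (𝔭.mul_mem_right _ h3)
    obtain ⟨s, hs⟩ := exists_notMem_thin Finset.univ S hthin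
    have h1 : ∀ k, ∃ r, α k r * β k (r * e k * s) - 1 ∉ 𝔭 := by
      intro k
      have := hs k (Finset.mem_univ k)
      simp only [S, Set.mem_ofPred_eq, not_forall] at this
      exact this
    choose r hr using h1
    obtain ⟨n, hn⟩ := h s r
    have h2 : ∏ k, (α k (r k) * β k (r k * e k * s) - 1) ∈ 𝔭 :=
      h𝔭.mem_of_pow_mem n (by rw [hn]; exact 𝔭.zero_mem)
    rw [Ideal.IsPrime.prod_mem_iff] at h2
    obtain ⟨k, _, hk⟩ := h2
    exact hr k hk
  rw [Ideal.IsPrime.prod_mem_iff]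
  refine ⟨k, Finset.mem_univ k, ?_⟩
  have h1 : t k ∈ 𝔱 k := by rw [hk]; exact Submodule.mem_top
  have h2 := h1 1
  rwa [one_mul] at h2

/-- For finitely many nonzero `c` there is a finite set `B` such that for each `u ≠ 0` some
`b ∈ B` has `c b u ≠ 0` for all these `c`. -/
theorem exists_finset_left (C : Finset R) (hC : ∀ c ∈ C, c ≠ 0) :
    ∃ B : Finset R, ∀ u : R, u ≠ 0 → ∃ b ∈ B, ∀ c ∈ C, c * b * u ≠ 0 := by
  classical
  by_contra hcon
  push Not at hcon
  choose U hU hUB using hcon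
  let 𝒰 : Ultrafilter (Finset R) := Ultrafilter.of Filter.atTop
  have h𝒰 : (𝒰 : Filter (Finset R)) ≤ Filter.atTop := Ultrafilter.of_le _
  let 𝔫 : Submodule R R :=
    { carrier := {x | ∀ᶠ B in (𝒰 : Filter (Finset R)), x * U B = 0}
      zero_mem' := Filter.Eventually.of_forall fun B => zero_mul _
      add_mem' := by
        intro x y hx hy
        filter_upwards [hx, hy] with B h1 h2
        rw [add_mul, h1, h2, add_zero]
      smul_mem' := by
        intro c x hx
        have hx' : ∀ᶠ B in (𝒰 : Filter (Finset R)), x * U B = 0 := hx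
        show ∀ᶠ B in (𝒰 : Filter (Finset R)), c * x * U B = 0
        filter_upwards [hx'] with B h1
        rw [mul_assoc, h1, mul_zero] }
  have h𝔫 : ∀ x, x ∈ 𝔫 ↔ ∀ᶠ B in (𝒰 : Filter (Finset R)), x * U B = 0 := fun x => Iff.rfl
  have h𝔫top : 𝔫 ≠ ⊤ := by
    intro h
    have h1 : (1 : R) ∈ 𝔫 := by rw [h]; exact Submodule.mem_top
    rw [h𝔫] at h1
    obtain ⟨B, hB⟩ := h1.exists
    rw [one_mul] at hB
    exact hU B hB
  have hthin : ∀ c ∈ C, Thin {b : R | c * b ∈ 𝔫} := by
    intro c hc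
    right
    refine ⟨𝔫.toAddSubgroup.comap (AddMonoidHom.mulLeft c),
      not_finiteIndex_mulLeft 𝔫 h𝔫top (hC c hc), fun x hx y hy => ?_⟩
    show c * (x - y) ∈ 𝔫
    rw [mul_sub]
    exact 𝔫.sub_mem hx hy
  obtain ⟨b, hb⟩ := exists_notMem_thin C _ hthin
  have h1 : ∀ᶠ B in (𝒰 : Filter (Finset R)), b ∈ B := by
    refine h𝒰 ?_
    filter_upwards [Filter.eventually_ge_atTop ({b} : Finset R)] with B hB
    exact hB (Finset.mem_singleton_self b)
  have h2 : (⋃ c ∈ (C : Set R), {B : Finset R | c * b * U B = 0}) ∈ 𝒰 := by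
    have : ∀ᶠ B in (𝒰 : Filter (Finset R)),
        B ∈ (⋃ c ∈ (C : Set R), {B : Finset R | c * b * U B = 0}) := by
      filter_upwards [h1] with B hB
      obtain ⟨c, hc, hc'⟩ := hUB B b hB
      exact Set.mem_biUnion hc hc'
    exact this
  rw [Ultrafilter.finite_biUnion_mem_iff C.finite_toSet] at h2
  obtain ⟨c, hc, hc'⟩ := h2
  exact hb c hc hc'

end ring

theorem exists_finset_right {R : Type*} [Ring R] [IsSimpleRing R] [Infinite R] (C : Finset R)
    (hC : ∀ c ∈ C, c ≠ 0) :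
    ∃ B : Finset R, ∀ v : R, v ≠ 0 → ∃ b ∈ B, ∀ c ∈ C, v * b * c ≠ 0 := by
  classical
  have : Infinite Rᵐᵒᵖ := Infinite.of_injective MulOpposite.op MulOpposite.op_injective
  obtain ⟨B, hB⟩ := exists_finset_left (R := Rᵐᵒᵖ) (C.image MulOpposite.op) (by
    intro c hc
    obtain ⟨d, hd, rfl⟩ := Finset.mem_image.1 hc
    exact (MulOpposite.op_ne_zero_iff d).2 (hC d hd))
  refine ⟨B.image MulOpposite.unop, fun v hv => ?_⟩
  obtain ⟨b, hb, h⟩ := hB (MulOpposite.op v) ((MulOpposite.op_ne_zero_iff v).2 hv)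
  refine ⟨MulOpposite.unop b, Finset.mem_image_of_mem _ hb, fun c hc h0 => ?_⟩
  apply h (MulOpposite.op c) (Finset.mem_image_of_mem _ hc)
  apply MulOpposite.unop_injective
  rw [MulOpposite.unop_mul, MulOpposite.unop_mul, MulOpposite.unop_op, MulOpposite.unop_op,
    MulOpposite.unop_zero, ← mul_assoc]
  exact h0

/-- The element `u` and `v` with `v F u = 0` can be chosen so that `u` is not killed by the
elements of `C` and `v` not by those of `D`. -/
theorem NoInsulator.exists_pair {R : Type*} [Ring R] [IsSimpleRing R] [Infinite R]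
    (hR : NoInsulator R) (F C D : Finset R) (hC : ∀ c ∈ C, c ≠ 0) (hD : ∀ d ∈ D, d ≠ 0) :
    ∃ u v : R, (∀ x ∈ F, v * x * u = 0) ∧ (∀ c ∈ C, c * u ≠ 0) ∧ (∀ d ∈ D, v * d ≠ 0) := by
  classical
  obtain ⟨B, hB⟩ := exists_finset_left C hC
  obtain ⟨B', hB'⟩ := exists_finset_right D hD
  obtain ⟨u₀, v₀, hu₀, hv₀, h⟩ := hR
    ((B' ×ˢ F ×ˢ B).image fun p => p.1 * p.2.1 * p.2.2)
  obtain ⟨b, hb, hbC⟩ := hB u₀ hu₀
  obtain ⟨b', hb', hbD⟩ := hB' v₀ hv₀
  refine ⟨b * u₀, v₀ * b', fun x hx => ?_, fun c hc => ?_, fun d hd => hbD d hd⟩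
  · have h1 := h (b' * x * b) (Finset.mem_image.2 ⟨(b', x, b),
      Finset.mem_product.2 ⟨hb', Finset.mem_product.2 ⟨hx, hb⟩⟩, rfl⟩)
    rw [← h1]
    simp only [mul_assoc]
  · rw [← mul_assoc]
    exact hbC c hc

end Pool.Agent.Helper92.FG
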