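import Pool.Agent.Helper92.FG.Conv

/-!
# The criterion for elementary groups
-/

namespace Pool.Agent.Helper92.FG

open Pool.Agent.Helper66.EL Pool.Agent.Helper66.AI MonoidAlgebra

section prime

variable {R : Type*} [Ring R] [IsSimpleRing R]

theorem prime_of_simple {u v : R} (h : ∀ x, v * x * u = 0) (hu : u ≠ 0) : v = 0 := by
  let I : TwoSidedIdeal R := TwoSidedIdeal.mk' {z | ∀ s r, v * s * z * r = 0}
    (by intro s r; rw [mul_zero, zero_mul])
    (by
      intro x y hx hy s r
      rw [mul_add, add_mul, hx, hy, add_zero])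
    (by
      intro x hx s r
      rw [mul_neg, neg_mul, hx, neg_zero])
    (by
      intro x y hy s r
      have := hy (s * x) r
      rw [← this]
      simp only [mul_assoc])
    (by
      intro x y hx s r
      have := hx s (y * r)
      rw [← this]
      simp only [mul_assoc])
  have hwI : u ∈ I := by
    rw [TwoSidedIdeal.mem_mk']
    intro s r
    rw [h, zero_mul]
  have h1 := IsSimpleRing.one_mem_of_ne_zero_mem I hu hwI
  rw [TwoSidedIdeal.mem_mk'] at h1
  have h2 := h1 1 1
  rwa [mul_one, mul_one, mul_one] at h2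

theorem NoInsulator.infinite (h : NoInsulator R) : Infinite R := by
  classical
  by_contra hcon
  rw [not_infinite_iff_finite] at hcon
  have := Fintype.ofFinite R
  obtain ⟨u, v, hu, hv, huv⟩ := h Finset.univ
  exact hv (prime_of_simple (fun x => huv x (Finset.mem_univ x)) hu)

end prime

section transport

variable {P : Type*} [Field P] {G H : Type*} [Group G] [Group H]

theorem AugSimple.congr (e : G ≃* H) (h : AugSimple P G) : AugSimple P H := by
  let F : MonoidAlgebra P G ≃ₐ[P] MonoidAlgebra P H := MonoidAlgebra.domCongr P P e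
  have hF : ∀ g, F (of P G g) = of P H (e g) := by
    intro g
    simp [F]
  have haug : ∀ x, aug P H (F x) = aug P G x := by
    intro x
    rw [eq_sum x]
    simp only [map_sum, map_smul, hF, aug_of]
  have hmem : ∀ x, F x ∈ augIdeal P H ↔ x ∈ augIdeal P G := by
    intro x
    rw [mem_augIdeal, mem_augIdeal, haug]
  obtain ⟨⟨a, ha, b, hb, hab⟩, h2⟩ := h
  refine ⟨⟨F a, (hmem a).2 ha, F b, (hmem b).2 hb, ?_⟩, fun I hI hIr => ?_⟩
  · rw [← map_mul]
    intro h0
    exact hab (F.injective (by rw [h0, map_zero]))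
  · let J : AddSubgroup (MonoidAlgebra P G) := I.comap (F : MonoidAlgebra P G →+ MonoidAlgebra P H)
    have hJ : ∀ x, x ∈ J ↔ F x ∈ I := fun x => Iff.rfl
    have hJI : ∀ y, y ∈ I → ∃ x ∈ J, F x = y := by
      intro y hy
      exact ⟨F.symm y, by rw [hJ, F.apply_symm_apply]; exact hy, F.apply_symm_apply y⟩
    rcases h2 J (fun x hx => (hmem x).1 (hI hx)) (fun r hr i hi => by
      have := hIr (F r) ((hmem r).2 hr) (F i) hi
      rw [← map_mul, ← map_mul] at this
      exact this) with h0 | h0
    · left
      rw [eq_bot_iff]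
      intro y hy
      obtain ⟨x, hx, rfl⟩ := hJI y hy
      rw [h0, AddSubgroup.mem_bot] at hx
      rw [hx, map_zero]
      exact AddSubgroup.zero_mem _
    · right
      refine le_antisymm hI fun y hy => ?_
      have h1 : F.symm y ∈ augIdeal P G := by
        rw [← hmem, F.apply_symm_apply]
        exact hy
      have h3 : F.symm y ∈ J := by rw [h0]; exact h1
      rw [hJ, F.apply_symm_apply] at h3
      exact h3

theorem augSimple_congr (e : G ≃* H) : AugSimple P G ↔ AugSimple P H :=
  ⟨AugSimple.congr e, AugSimple.congr e.symm⟩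

end transport

variable {R : Type*} [Ring R] {Λ : Type*}

theorem center_eq_bot [Infinite Λ] : Subgroup.center (elemGroup R Λ) = ⊥ := by
  classical
  rw [eq_bot_iff]
  intro g hg
  obtain ⟨a, b, hab⟩ := exists_pair_ne Λ
  obtain ⟨ζ, _, hζ⟩ := isScal_of_comm hab hg
  have hζ' : ∀ v, lm g v = ζ • v := hζ
  obtain ⟨c, hc⟩ := (finite_not_Fx g.2).exists_notMem
  have hc' : Fx c (lm g) := by
    by_contra hcon
    exact hc hcon
  have h1 := hc'.basis 1
  rw [hζ', Finsupp.smul_single, smul_eq_mul, mul_one] at h1
  have h2 : ζ = 1 := Finsupp.single_injective c h1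
  rw [Subgroup.mem_bot]
  apply lm_ext
  intro v
  rw [hζ', h2, one_smul]
  rfl

/-- The quotient by the trivial center. -/
noncomputable def peEquiv [Infinite Λ] : PE R Λ ≃* elemGroup R Λ :=
  (QuotientGroup.quotientMulEquivOfEq center_eq_bot).trans QuotientGroup.quotientBot

/-- The criterion. -/
theorem augSimple_PE_iff (P : Type*) [Field P] (R : Type*) [Ring R] (Λ : Type*)
    (h3 : ∃ a b c : Λ, a ≠ b ∧ a ≠ c ∧ b ≠ c) (h : Infinite Λ ∨ NoInsulator R) :
    AugSimple P (PE R Λ) ↔ IsSimpleRing R ∧ Infinite R ∧ ringChar R ≠ ringChar P := by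
  rcases finite_or_infinite Λ with hfin | hinf
  · have hR : NoInsulator R := by
      rcases h with h | h
      · exact absurd hfin (not_finite_iff_infinite.2 h)
      · exact h
    obtain ⟨a, b, c, hab, hac, hbc⟩ := h3
    constructor
    · intro hs
      have h1 : IsSimpleRing R := isSimpleRing_of_PE hab hs.isSimpleGroup
      have h2 : Infinite R := hR.infinite
      exact ⟨h1, h2, fun h4 => not_augSimple_PE_of_char P hab h4 hs⟩
    · rintro ⟨h1, h2, h4⟩
      exact augSimple_PE hR h4 hab.symm hac.symm hbc.symm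
  · rw [augSimple_congr peEquiv]
    exact augSimple_elem_iff P R Λ

end Pool.Agent.Helper92.FG
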